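import Mathlib

/-! Rising factorials of length `p` modulo `p^3`. -/

set_option autoImplicit false

open Finset

namespace Pool.Agent.P.MP_a378b9_nt

section
variable {A : Type*} [CommRing A]

/-- rising factorial -/
def Pn (a : A) (n : ℕ) : A := ∏ l ∈ range n, (a + l)

lemma Pn_zero (a : A) : Pn a 0 = 1 := by simp [Pn]

lemma Pn_succ (a : A) (n : ℕ) : Pn a (n + 1) = Pn a n * (a + n) := by simp [Pn, prod_range_succ]

lemma Pn_succ' (a : A) (n : ℕ) : Pn a (n + 1) = a * Pn (a + 1) n := by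
  rw [Pn, prod_range_succ', Pn, mul_comm]
  congr 1
  · simp
  · exact prod_congr rfl fun l _ => by push_cast; ring

lemma Pn_add (a : A) (n k : ℕ) : Pn a (n + k) = Pn a n * Pn (a + n) k := by
  rw [Pn, prod_range_add, Pn, Pn]
  congr 1
  exact prod_congr rfl fun l _ => by push_cast; ring

lemma map_Pn {B : Type*} [CommRing B] (f : A →+* B) (a : A) (n : ℕ) :
    f (Pn a n) = Pn (f a) n := by simp [Pn]

lemma Pn_one (n : ℕ) : Pn (1 : A) n = (n.factorial : A) := by
  induction n with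
  | zero => simp [Pn]
  | succ n ih => rw [Pn_succ, ih, Nat.factorial_succ]; push_cast; ring

lemma Pn_neg (n : ℕ) : Pn (-(n : A)) n = (-1) ^ n * (n.factorial : A) := by
  induction n with
  | zero => simp [Pn]
  | succ n ih =>
    rw [Pn_succ', show (-((n + 1 : ℕ) : A) + 1) = -(n : A) by push_cast; ring, ih,
      Nat.factorial_succ]
    push_cast; ring

lemma Pn_dup {a b : A} (h : 2 * b = 2 * a + 1) (n : ℕ) :
    Pn a n * Pn b n * 4 ^ n = Pn (2 * a) (n + n) := by
  induction n with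
  | zero => simp [Pn]
  | succ n ih =>
    rw [show n + 1 + (n + 1) = n + n + 1 + 1 by ring, Pn_succ, Pn_succ, Pn_succ, Pn_succ, ← ih]
    push_cast
    linear_combination (2 * Pn a n * Pn b n * 4 ^ n * (a + n)) * h

lemma Pn_trip {a b : A} (ha : 3 * a = 1) (hb : 3 * b = 2) (n : ℕ) :
    Pn a n * Pn b n * Pn 1 n * 27 ^ n = Pn 1 (n + n + n) := by
  induction n with
  | zero => simp [Pn]
  | succ n ih =>
    rw [show n + 1 + (n + 1) + (n + 1) = n + n + n + 1 + 1 + 1 by ring, Pn_succ, Pn_succ, Pn_succ,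
      Pn_succ, Pn_succ, Pn_succ, ← ih]
    push_cast
    linear_combination (3 * Pn a n * Pn b n * Pn 1 n * 27 ^ n * (1 + n) * (3 * b + 3 * n)) * ha
      + (3 * Pn a n * Pn b n * Pn 1 n * 27 ^ n * (1 + n) * (1 + 3 * n)) * hb

lemma dvd_Pn (d : A) {i k : ℕ} (h : i < k) : d ∣ Pn (d - i) k := by
  have := dvd_prod_of_mem (fun l : ℕ => d - i + (l : A)) (mem_range.mpr h)
  simpa [Pn] using this

/-- the product with the factor divisible by `p` removed -/
def Pi' (p : ℕ) (d : A) (i : ℕ) : A := Pn (d - i) i * Pn (d + 1) (p - 1 - i)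

lemma Pn_split {p i : ℕ} (h : i < p) (d : A) : Pn (d - i) p = d * Pi' p d i := by
  obtain ⟨k, rfl⟩ : ∃ k, p = i + (k + 1) := ⟨p - 1 - i, by omega⟩
  rw [Pn_add, Pn_succ', Pi', show i + (k + 1) - 1 - i = k by omega, sub_add_cancel]; ring

lemma Pi'_zero (p i : ℕ) :
    Pi' p (0 : A) i = (-1) ^ i * (i.factorial : A) * ((p - 1 - i).factorial : A) := by
  rw [Pi', zero_sub, zero_add, Pn_neg, Pn_one]

lemma Pi'_step {p i : ℕ} (h : i + 1 < p) (d : A) :
    Pi' p d (i + 1) * (d + ((p - 1 - i : ℕ) : A)) = Pi' p d i * (d - i - 1) := by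
  obtain ⟨k, hk⟩ : ∃ k, p - 1 - i = k + 1 := ⟨p - 2 - i, by omega⟩
  rw [Pi', Pi', hk, show p - 1 - (i + 1) = k by omega, Pn_succ', Pn_succ,
    show d - ((i + 1 : ℕ) : A) + 1 = d - i by push_cast; ring]
  push_cast; ring

lemma sym_prod {d : A} (hd : d ^ 2 = 0) (n : ℕ) :
    Pn (d - n) n * Pn (d + 1) n = Pn (0 - n : A) n * Pn (0 + 1 : A) n := by
  induction n with
  | zero => simp [Pn]
  | succ n ih =>
    rw [Pn_succ' (d - _), Pn_succ' ((0 : A) - _), Pn_succ, Pn_succ,
      show d - ((n + 1 : ℕ) : A) + 1 = d - n by push_cast; ring,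
      show 0 - ((n + 1 : ℕ) : A) + 1 = 0 - n by push_cast; ring]
    push_cast
    linear_combination (-(n + 1) ^ 2) * ih + (Pn (d - n) n * Pn (d + 1) n) * hd

lemma unit_add_nil {u d : A} (hu : IsUnit u) (hd : d ^ 2 = 0) : IsUnit (u + d) :=
  (IsNilpotent.isUnit_add_left_of_commute ⟨2, hd⟩ hu (Commute.all _ _))

lemma fact_unit {p : ℕ} (hu : ∀ n : ℕ, 0 < n → n < p → IsUnit (n : A)) {n : ℕ} (h : n < p) :
    IsUnit (n.factorial : A) := by
  induction n with
  | zero => simp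
  | succ n ih =>
    rw [Nat.factorial_succ, Nat.cast_mul]
    exact (hu _ (by omega) h).mul (ih (by omega))

lemma Pi'_unit {p i : ℕ} (hu : ∀ n : ℕ, 0 < n → n < p → IsUnit (n : A)) (h : i < p) :
    IsUnit (Pi' p (0 : A) i) := by
  rw [Pi'_zero]
  exact ((isUnit_one.neg.pow i).mul (fact_unit hu h)).mul (fact_unit hu (by omega))

lemma Pi'_const {p m : ℕ} (hm : p = 2 * m + 1) (hu : ∀ n : ℕ, 0 < n → n < p → IsUnit (n : A))
    {d : A} (hd : d ^ 2 = 0) (hdp : d * p = 0) {i : ℕ} (hi : i < p) : Pi' p d i = Pi' p 0 i := by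
  have key : ∀ i, i < p → Pi' p d i * Pi' p 0 0 = Pi' p 0 i * Pi' p d 0 := by
    intro i hi
    induction i with
    | zero => ring
    | succ i ih =>
      have u1 : IsUnit ((p - 1 - i : ℕ) : A) := hu _ (by omega) (by omega)
      have u2 : IsUnit (d + ((p - 1 - i : ℕ) : A)) := by rw [add_comm]; exact unit_add_nil u1 hd
      have s1 := Pi'_step hi d
      have s2 := Pi'_step hi (0 : A)
      have c : ((p - 1 - i : ℕ) : A) = p - 1 - i := by
        rw [Nat.cast_sub (by omega), Nat.cast_sub (by omega)]; simp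
      apply (u1.mul u2).mul_left_cancel
      have ih' := ih (by omega)
      rw [c] at s1 s2 ⊢
      linear_combination ((p - 1 - i) * Pi' p 0 0) * s1 - ((d + (p - 1 - i)) * Pi' p d 0) * s2
        + ((p - 1 - i) * (d - i - 1)) * ih' + (Pi' p 0 i * Pi' p d 0) * hdp
  have hmid : Pi' p d m = Pi' p 0 m := by
    rw [Pi', Pi', show p - 1 - m = m by omega, sym_prod hd]
  have h0 : Pi' p d 0 = Pi' p 0 0 := by
    apply (Pi'_unit hu (show m < p by omega)).mul_left_cancel
    rw [← key m (by omega), hmid]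
  apply (Pi'_unit hu (show 0 < p by omega)).mul_right_cancel
  rw [key i hi, h0]

lemma Pi'_symm {p m i : ℕ} (hm : p = 2 * m + 1) (hi : i < p) :
    Pi' p (0 : A) (p - 1 - i) = Pi' p 0 i := by
  rw [Pi'_zero, Pi'_zero, show p - 1 - (p - 1 - i) = i by omega]
  have : (-1 : A) ^ (p - 1 - i) = (-1) ^ i := by
    have e : (-1 : A) ^ (p - 1 - i) * (-1) ^ i = 1 := by
      rw [← pow_add, show p - 1 - i + i = 2 * m by omega, pow_mul]; simp
    have e2 : (-1 : A) ^ i * (-1) ^ i = 1 := by rw [← mul_pow]; simp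
    linear_combination (-1) ^ i * e - (-1) ^ (p - 1 - i) * e2
  rw [this]; ring

lemma map_Pi' {B : Type*} [CommRing B] (f : A →+* B) (p : ℕ) (d : A) (i : ℕ) :
    f (Pi' p d i) = Pi' p (f d) i := by simp [Pi', map_Pn]

end

section
variable {R Q : Type*} [CommRing R] [IsDomain R] [CharZero R] [CommRing Q] (q : R →+* Q)
  {p m : ℕ} (hm : p = 2 * m + 1) (hε : (p : Q) ^ 2 = 0)
  (hu : ∀ n : ℕ, 0 < n → n < p → IsUnit (n : Q))
include hm hε hu

omit [IsDomain R] [CharZero R] in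
lemma q_Pi' (c : R) {i : ℕ} (hi : i < p) : q (Pi' p (p * c) i) = Pi' p 0 i := by
  rw [map_Pi']
  apply Pi'_const hm hu _ _ hi
  · rw [map_mul, map_natCast, mul_pow, hε, zero_mul]
  · rw [map_mul, map_natCast]; linear_combination q c * hε

include q in
/-- Morley's congruence modulo `p^2` -/
lemma morley {i2 : R} (h2 : 2 * i2 = 1) :
    (-1) ^ m * (Nat.centralBinom m : Q) = 16 ^ m := by
  have hp0 : (p : R) ≠ 0 := by exact_mod_cast (by omega : p ≠ 0)
  have d := Pn_dup (a := i2) (b := 1) (by linear_combination -h2) p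
  rw [h2, Pn_add] at d
  have hP : Pn (1 : R) p ≠ 0 := by rw [Pn_one]; exact_mod_cast Nat.factorial_ne_zero p
  have d2 : Pn i2 p * 4 ^ p = Pn (1 + p : R) p := mul_left_cancel₀ hP (by linear_combination d)
  have e1 : i2 = p * i2 - (m : R) := by rw [hm]; push_cast; linear_combination -m * h2
  have e2 : (1 + p : R) = p * 2 - ((p - 1 : ℕ) : R) := by
    rw [Nat.cast_sub (by omega)]; push_cast; ring
  rw [e1, e2, Pn_split (by omega), Pn_split (by omega)] at d2
  have d3 : Pi' p (p * i2) m * 16 ^ m = Pi' p ((p : R) * 2) (p - 1) := by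
    apply mul_left_cancel₀ (mul_ne_zero hp0 (two_ne_zero (α := R)))
    have : (4 : R) ^ p = 4 * 16 ^ m := by rw [hm, pow_succ, pow_mul]; norm_num; ring
    rw [this] at d2
    linear_combination d2 - (2 * p * Pi' p (p * i2) m * 16 ^ m) * h2
  have d4 := congrArg q d3
  rw [map_mul, q_Pi' q hm hε hu _ (by omega), q_Pi' q hm hε hu _ (by omega), Pi'_zero, Pi'_zero,
    map_pow, map_ofNat, show p - 1 - m = m by omega, show p - 1 - (p - 1) = 0 by omega,
    show p - 1 = 2 * m by omega] at d4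
  have c := congrArg (Nat.cast : ℕ → Q) (Nat.choose_mul_factorial_mul_factorial
    (show m ≤ 2 * m by omega))
  rw [show 2 * m - m = m by omega, ← Nat.centralBinom_eq_two_mul_choose] at c
  push_cast at c
  have um := fact_unit hu (show m < p by omega)
  apply (um.mul um).mul_left_cancel
  have e : (-1 : Q) ^ m * (-1) ^ m = 1 := by rw [← mul_pow]; simp
  have e' : (-1 : Q) ^ (2 * m) = 1 := by rw [pow_mul]; simp
  rw [e'] at d4
  simp only [Nat.factorial_zero, Nat.cast_one] at d4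
  linear_combination (-1) ^ m * c - (-1) ^ m * d4
    + ((m.factorial : Q) * m.factorial * 16 ^ m) * e

/-- the coefficient at `t^p` -/
lemma w_value {i3 a a' b' w : R} {n : ℕ} (hn : n < p) (h3 : 3 * i3 = 1)
    (ha : a = p * i3 - n) (ha' : a' = p * (2 * i3) - ((p - 1 - n : ℕ) : R))
    (hdup : Pn a p * Pn b' p * 4 ^ p = Pn a' p * Pn (a' + p) p)
    (htrip : Pn a p * Pn a' p * Pn 1 p * 27 ^ p = Pn 1 (p + p + p))
    (hw : ((p - 1).factorial : R) ^ 2 * p ^ 2 * w = Pn a p * Pn a' p - 4 ^ p * (Pn a' p * Pn b' p)) :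
    q w * 27 ^ (2 * m) = -2 := by
  have hp0 : (p : R) ≠ 0 := by exact_mod_cast (by omega : p ≠ 0)
  have hi3 : i3 ≠ 0 := by rintro rfl; simp at h3
  have hP : Pn (1 : R) p ≠ 0 := by rw [Pn_one]; exact_mod_cast Nat.factorial_ne_zero p
  have e1 : Pn a p = p * i3 * Pi' p (p * i3) n := by rw [ha, Pn_split hn]
  have e2 : Pn a' p = p * (2 * i3) * Pi' p (p * (2 * i3)) (p - 1 - n) := by
    rw [ha', Pn_split (by omega)]
  have e3 : Pn (a' + p) p = p * (5 * i3) * Pi' p (p * (5 * i3)) (p - 1 - n) := by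
    rw [← Pn_split (by omega), ha']; congr 1; linear_combination (-(p : R)) * h3
  have c : ((p - 1 : ℕ) : R) = p - 1 := by rw [Nat.cast_sub (by omega)]; simp
  have e4 : Pn (1 + p : R) p = p * 2 * Pi' p ((p : R) * 2) (p - 1) := by
    rw [← Pn_split (by omega), c]; congr 1; ring
  have e5 : Pn (1 + ((p + p : ℕ) : R)) p = p * 3 * Pi' p ((p : R) * 3) (p - 1) := by
    rw [← Pn_split (by omega), c]; congr 1; push_cast; ring
  rw [Pn_add, Pn_add, e4, e5] at htrip
  generalize hA1 : Pi' p (p * i3) n = A1 at e1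
  generalize hA2 : Pi' p (p * (2 * i3)) (p - 1 - n) = A2 at e2
  generalize hA3 : Pi' p (p * (5 * i3)) (p - 1 - n) = A3 at e3
  generalize hB1 : Pi' p ((p : R) * 2) (p - 1) = B1 at htrip
  generalize hB2 : Pi' p ((p : R) * 3) (p - 1) = B2 at htrip
  have t1 : 27 ^ (2 * m) * (A1 * A2) = B1 * B2 := by
    apply mul_left_cancel₀ (mul_ne_zero (mul_ne_zero hP (pow_ne_zero 2 hp0))
      (show (6 : R) ≠ 0 by norm_num))
    have : (27 : R) ^ p = 27 * 27 ^ (2 * m) := by rw [hm, pow_succ]; ring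
    rw [e1, e2, this] at htrip
    linear_combination htrip
      - (6 * Pn 1 p * p ^ 2 * 27 ^ (2 * m) * (A1 * A2) * (3 * i3 + 1)) * h3
  have t2 : 9 * (A1 * ((p - 1).factorial : R) ^ 2 * w) = 2 * A1 ^ 2 * A2 - 20 * A2 ^ 2 * A3 := by
    apply mul_left_cancel₀ (mul_ne_zero (pow_ne_zero 3 hp0) hi3)
    have := congrArg (fun x => Pn a p * x) hw
    have h2 : Pn a p * (Pn a p * Pn a' p - 4 ^ p * (Pn a' p * Pn b' p))
        = Pn a p ^ 2 * Pn a' p - Pn a' p ^ 2 * Pn (a' + p) p := by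
      linear_combination (-Pn a' p) * hdup
    simp only [h2] at this
    rw [e1, e2, e3] at this
    linear_combination 9 * this
      + (p ^ 3 * i3 * (2 * A1 ^ 2 * A2 - 20 * A2 ^ 2 * A3) * (3 * i3 + 1)) * h3
  have q1 := congrArg q t1
  have q2 := congrArg q t2
  have f : Pi' p (0 : Q) (p - 1) = ((p - 1).factorial : Q) := by
    rw [Pi'_zero, show p - 1 - (p - 1) = 0 by omega]
    have : (-1 : Q) ^ (p - 1) = 1 := by rw [show p - 1 = 2 * m by omega, pow_mul]; simp
    rw [this]; simp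
  simp only [map_mul, map_pow, map_sub, map_ofNat, map_natCast, ← hA1, ← hA2, ← hA3, ← hB1, ← hB2,
    q_Pi' q hm hε hu _ hn, q_Pi' q hm hε hu _ (show p - 1 - n < p by omega),
    q_Pi' q hm hε hu _ (show p - 1 < p by omega), Pi'_symm hm hn, f] at q1 q2
  have u1 := Pi'_unit hu hn
  have u3 : IsUnit (3 : Q) := IsUnit.of_mul_eq_one (q i3) (by simpa [map_ofNat] using congrArg q h3)
  have u4 := fact_unit hu (show p - 1 < p by omega)
  apply (((u3.mul u3).mul u1).mul (u4.mul u4)).mul_left_cancel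
  linear_combination 27 ^ (2 * m) * q2 - 18 * Pi' p 0 n * q1

end

end Pool.Agent.P.MP_a378b9_nt
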