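import Mathlib

/-! Binary forms describing `x(P+Q)` and `x(P-Q)` on the curve `y^2 = x^3 + (3x+b)^2`. -/

set_option autoImplicit false

open Polynomial

namespace Pool.Agent.P.MP_a378b9_nt

section forms
variable {A : Type*} [CommRing A]

def fA (p1 q1 p2 q2 : A) : A := (p1 * q2 - p2 * q1) ^ 2

def fB (b p1 q1 p2 q2 : A) : A :=
  2 * (p1 * q2 + p2 * q1) * (p1 * p2 + 6 * b * (q1 * q2)) + 36 * ((p1 * p2) * (q1 * q2))
    + 4 * b ^ 2 * (q1 * q2) ^ 2

def fC (b p1 q1 p2 q2 : A) : A :=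
  (p1 * p2) ^ 2 - (12 * b * ((p1 * p2) * (q1 * q2)) + 4 * b ^ 2 * ((q1 * q2) * (p1 * q2 + p2 * q1)))

/-- homogenised cubic -/
def gH (b p q : A) : A := p ^ 3 + q * (3 * p + b * q) ^ 2

variable {B : Type*} [CommRing B] {F : Type*} [FunLike F A B] [RingHomClass F A B] (f : F)

lemma map_fA (p1 q1 p2 q2 : A) : f (fA p1 q1 p2 q2) = fA (f p1) (f q1) (f p2) (f q2) := by
  simp [fA]

lemma map_fB (b p1 q1 p2 q2 : A) :
    f (fB b p1 q1 p2 q2) = fB (f b) (f p1) (f q1) (f p2) (f q2) := by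
  simp [fB, map_ofNat]

lemma map_fC (b p1 q1 p2 q2 : A) :
    f (fC b p1 q1 p2 q2) = fC (f b) (f p1) (f q1) (f p2) (f q2) := by
  simp [fC, map_ofNat]

lemma map_gH (b p q : A) : f (gH b p q) = gH (f b) (f p) (f q) := by
  simp [gH, map_ofNat]

/-- a binary quadratic form with a unimodular root factors -/
lemma factor_form {a b c p q : A} (h : a * p ^ 2 - b * (p * q) + c * q ^ 2 = 0)
    (hc : IsCoprime p q) : ∃ p' q' : A, q' * q = a ∧ p' * q + p * q' = b ∧ p' * p = c := by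
  obtain ⟨u, v, huv⟩ := hc
  refine ⟨-(v * (2 * a * p * v - b * (q * v - p * u) - 2 * c * q * u)
      - p * (a * v ^ 2 + b * u * v + c * u ^ 2)),
    u * (2 * a * p * v - b * (q * v - p * u) - 2 * c * q * u)
      + q * (a * v ^ 2 + b * u * v + c * u ^ 2), ?_, ?_, ?_⟩
  · linear_combination (-u ^ 2) * h + a * (u * p + v * q + 1) * huv
  · linear_combination (2 * u * v) * h + b * (u * p + v * q + 1) * huv
  · linear_combination (-v ^ 2) * h + c * (u * p + v * q + 1) * huv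

end forms

lemma forms_ne_zero {k : Type*} [Field k] {b p1 q1 p2 q2 : k} (hD : 432 * b ^ 3 * (4 - b) ≠ 0)
    (h1 : ¬ (p1 = 0 ∧ q1 = 0)) (h2 : ¬ (p2 = 0 ∧ q2 = 0))
    (hA : fA p1 q1 p2 q2 = 0) (hB : fB b p1 q1 p2 q2 = 0) (hC : fC b p1 q1 p2 q2 = 0) : False := by
  have key : ∀ s t u : k, 432 * b ^ 3 * (4 - b) * u ^ 4 =
      (-12 * t ^ 2 - 144 * t * u + (1296 - 384 * b) * u ^ 2) *
        (s ^ 2 - (12 * b * (s * u) + 4 * b ^ 2 * (u * t))) +
      (6 * s * t - 36 * s * u - 60 * b * t * u + (432 * b - 108 * b ^ 2) * u ^ 2) *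
        (2 * t * (s + 6 * b * u) + 36 * (s * u) + 4 * b ^ 2 * u ^ 2) +
      (-96 * b * s * u - 48 * b ^ 2 * t * u + 144 * b ^ 2 * u ^ 2) * (t ^ 2 - 4 * s * u) := by
    intro s t u; ring
  have hA' : (p1 * q2 + p2 * q1) ^ 2 - 4 * (p1 * p2) * (q1 * q2) = 0 := by
    rw [← hA, fA]; ring
  have hu := key (p1 * p2) (p1 * q2 + p2 * q1) (q1 * q2)
  rw [fB] at hB
  rw [fC] at hC
  rw [hA', hB, hC] at hu
  have hu0 : q1 * q2 = 0 := by
    have : 432 * b ^ 3 * (4 - b) * (q1 * q2) ^ 4 = 0 := by rw [hu]; ring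
    exact pow_eq_zero_iff (by norm_num) |>.mp ((mul_eq_zero.mp this).resolve_left hD)
  rw [hu0] at hA' hC
  have hs : p1 * p2 = 0 := by
    have : (p1 * p2) ^ 2 = 0 := by rw [← hC]; ring
    exact pow_eq_zero_iff (by norm_num) |>.mp this
  have ht : p1 * q2 + p2 * q1 = 0 := by
    have : (p1 * q2 + p2 * q1) ^ 2 = 0 := by rw [← hA']; ring
    exact pow_eq_zero_iff (by norm_num) |>.mp this
  rcases mul_eq_zero.mp hu0 with h | h <;> rcases mul_eq_zero.mp hs with h' | h'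
  · exact h1 ⟨h', h⟩
  · rw [h, h'] at ht
    have : p1 * q2 = 0 := by simpa using ht
    rcases mul_eq_zero.mp this with h'' | h''
    · exact h1 ⟨h'', h⟩
    · exact h2 ⟨h', h''⟩
  · rw [h, h'] at ht
    have : p2 * q1 = 0 := by simpa using ht
    rcases mul_eq_zero.mp this with h'' | h''
    · exact h2 ⟨h'', h⟩
    · exact h1 ⟨h', h''⟩
  · exact h2 ⟨h', h⟩

lemma not_both_zero {A k : Type*} [CommRing A] [CommRing k] [Nontrivial k] (f : A →+* k)
    {p q : A} (h : IsCoprime p q) : ¬ (f p = 0 ∧ f q = 0) := by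
  rintro ⟨hp, hq⟩
  obtain ⟨u, v, huv⟩ := h
  have := congrArg f huv
  simp [hp, hq] at this

lemma coprime_of_factor {A : Type*} [CommRing A] {b p1 q1 p2 q2 p q p' q' : A}
    (hD : IsUnit (432 * b ^ 3 * (4 - b))) (h1 : IsCoprime p1 q1) (h2 : IsCoprime p2 q2)
    (hA : q' * q = fA p1 q1 p2 q2) (hB : p' * q + p * q' = fB b p1 q1 p2 q2)
    (hC : p' * p = fC b p1 q1 p2 q2) : IsCoprime p' q' := by
  by_contra hne
  have hne' : Ideal.span {p', q'} ≠ ⊤ := by
    intro h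
    apply hne
    have : (1 : A) ∈ Ideal.span {p', q'} := by rw [h]; trivial
    obtain ⟨u, v, huv⟩ := Ideal.mem_span_pair.mp this
    exact ⟨u, v, huv⟩
  obtain ⟨m, hm, hle⟩ := Ideal.exists_le_maximal _ hne'
  let _ := Ideal.Quotient.field m
  have hp : Ideal.Quotient.mk m p' = 0 :=
    Ideal.Quotient.eq_zero_iff_mem.mpr (hle (Ideal.subset_span (by simp)))
  have hq : Ideal.Quotient.mk m q' = 0 :=
    Ideal.Quotient.eq_zero_iff_mem.mpr (hle (Ideal.subset_span (by simp)))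
  have hD' := (hD.map (Ideal.Quotient.mk m)).ne_zero
  refine forms_ne_zero (b := Ideal.Quotient.mk m b) ?_ (not_both_zero (Ideal.Quotient.mk m) h1)
    (not_both_zero (Ideal.Quotient.mk m) h2) ?_ ?_ ?_
  · simpa [map_ofNat] using hD'
  · rw [← map_fA, ← hA]; simp [hq]
  · rw [← map_fB, ← hB]; simp [hp, hq]
  · rw [← map_fC, ← hC]; simp [hp]

section degrees
variable {R : Type*} [CommRing R]

lemma deg_mul_lt_le {f g : R[X]} {m n : ℕ} (hf : f.degree < m) (hg : g.degree ≤ n) :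
    (f * g).degree < ((m + n : ℕ) : WithBot ℕ) := by
  refine lt_of_le_of_lt (degree_mul_le f g) ?_
  push_cast
  calc f.degree + g.degree ≤ f.degree + n := by gcongr
    _ < m + n := WithBot.add_lt_add_right (by simp) hf

lemma deg_mul_le_lt {f g : R[X]} {m n : ℕ} (hf : f.degree ≤ m) (hg : g.degree < n) :
    (f * g).degree < ((m + n : ℕ) : WithBot ℕ) := by
  rw [mul_comm, add_comm]; exact deg_mul_lt_le hg hf

lemma deg_add_lt {f g : R[X]} {n : WithBot ℕ} (hf : f.degree < n) (hg : g.degree < n) :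
    (f + g).degree < n := lt_of_le_of_lt (degree_add_le f g) (max_lt hf hg)

lemma deg_sub_lt {f g : R[X]} {n : WithBot ℕ} (hf : f.degree < n) (hg : g.degree < n) :
    (f - g).degree < n := lt_of_le_of_lt (degree_sub_le f g) (max_lt hf hg)

lemma deg_C_mul_lt {f : R[X]} {n : WithBot ℕ} (c : R) (hf : f.degree < n) :
    (C c * f).degree < n := lt_of_le_of_lt (by rw [C_mul']; exact degree_smul_le c f) hf

/-- the shape of the pair (numerator, denominator) of an isogeny of degree `d` -/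
structure Good (Φ Θ : R[X]) (d : ℕ) : Prop where
  monic : Φ.Monic
  deg : Φ.natDegree = d
  lt : Θ.degree < d
  cop : IsCoprime Φ Θ

lemma Good.deg_le {Φ Θ : R[X]} {d : ℕ} (h : Good Φ Θ d) : Φ.degree ≤ d := by
  rw [← h.deg]; exact degree_le_natDegree

lemma Good.deg_eq [Nontrivial R] {Φ Θ : R[X]} {d : ℕ} (h : Good Φ Θ d) : Φ.degree = d := by
  rw [← h.deg]; exact degree_eq_natDegree h.monic.ne_zero

lemma good_step [IsDomain R] {b : R} (hD : IsUnit (432 * b ^ 3 * (4 - b)))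
    {p1 q1 p2 q2 p q p' q' : R[X]} {d1 d2 d : ℕ}
    (h1 : Good p1 q1 d1) (h2 : Good p2 q2 d2) (h : Good p q d)
    (hA : q' * q = fA p1 q1 p2 q2) (hB : p' * q + p * q' = fB (C b) p1 q1 p2 q2)
    (hC : p' * p = fC (C b) p1 q1 p2 q2) :
    ∃ d', Good p' q' d' ∧ d' + d = 2 * d1 + 2 * d2 := by
  have hs : (p1 * p2).Monic := h1.monic.mul h2.monic
  have hsd : (p1 * p2).natDegree = d1 + d2 := by
    rw [h1.monic.natDegree_mul h2.monic, h1.deg, h2.deg]
  have hsd' : (p1 * p2).degree ≤ ((d1 + d2 : ℕ) : WithBot ℕ) := by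
    rw [← hsd]; exact degree_le_natDegree
  have ht : (p1 * q2 + p2 * q1).degree < ((d1 + d2 : ℕ) : WithBot ℕ) :=
    deg_add_lt (deg_mul_le_lt h1.deg_le h2.lt) (by
      rw [add_comm d1 d2]; exact deg_mul_le_lt h2.deg_le h1.lt)
  have hu : (q1 * q2).degree < ((d1 + d2 : ℕ) : WithBot ℕ) := deg_mul_lt_le h1.lt h2.lt.le
  set D := d1 + d2 with hDdef
  have hsq : ((p1 * p2) ^ 2).degree = ((D + D : ℕ) : WithBot ℕ) := by
    rw [degree_eq_natDegree (hs.pow 2).ne_zero, hs.natDegree_pow, hsd]; congr 1; ring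
  have hrest : (12 * C b * ((p1 * p2) * (q1 * q2))
      + 4 * C b ^ 2 * ((q1 * q2) * (p1 * q2 + p2 * q1))).degree < ((D + D : ℕ) : WithBot ℕ) := by
    refine deg_add_lt ?_ ?_
    · have : (12 * C b : R[X]) = C (12 * b) := by simp [map_ofNat]
      rw [this]; exact deg_C_mul_lt _ (deg_mul_le_lt hsd' hu)
    · have : (4 * C b ^ 2 : R[X]) = C (4 * b ^ 2) := by simp [map_ofNat]
      rw [this]; exact deg_C_mul_lt _ (deg_mul_le_lt hu.le ht)
  have hCm : (fC (C b) p1 q1 p2 q2).Monic := (hs.pow 2).sub_of_left (by rw [hsq]; exact hrest)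
  have hCd : (fC (C b) p1 q1 p2 q2).natDegree = D + D := by
    apply natDegree_eq_of_degree_eq_some
    rw [fC, degree_sub_eq_left_of_degree_lt (by rw [hsq]; exact hrest), hsq]
  have hBd : (fB (C b) p1 q1 p2 q2).degree < ((D + D : ℕ) : WithBot ℕ) := by
    have e : fB (C b) p1 q1 p2 q2 = C 2 * ((p1 * q2 + p2 * q1) * (p1 * p2))
        + C (12 * b) * ((p1 * q2 + p2 * q1) * (q1 * q2)) + C 36 * ((p1 * p2) * (q1 * q2))
        + C (4 * b ^ 2) * ((q1 * q2) * (q1 * q2)) := by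
      simp only [fB, map_mul, map_pow, map_ofNat]; ring
    rw [e]
    exact deg_add_lt (deg_add_lt (deg_add_lt (deg_C_mul_lt _ (deg_mul_lt_le ht hsd'))
      (deg_C_mul_lt _ (deg_mul_lt_le ht hu.le))) (deg_C_mul_lt _ (deg_mul_le_lt hsd' hu)))
      (deg_C_mul_lt _ (deg_mul_lt_le hu hu.le))
  have hp'm : p'.Monic := h.monic.of_mul_monic_right (by rw [hC]; exact hCm)
  have hdd : p'.natDegree + d = D + D := by
    rw [← hCd, ← hC, hp'm.natDegree_mul h.monic, h.deg]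
  refine ⟨p'.natDegree, ⟨hp'm, rfl, ?_, ?_⟩, by omega⟩
  · have h3 : (p * q').degree < ((D + D : ℕ) : WithBot ℕ) := by
      have : p * q' = fB (C b) p1 q1 p2 q2 - p' * q := by rw [← hB]; ring
      rw [this]
      refine deg_sub_lt hBd ?_
      rw [← hdd]; exact deg_mul_le_lt degree_le_natDegree h.lt
    rw [degree_mul, h.deg_eq, ← hdd, add_comm p'.natDegree d] at h3
    push_cast at h3
    exact (WithBot.add_lt_add_iff_left (by simp)).mp h3
  · refine coprime_of_factor (b := C b) ?_ h1.cop h2.cop hA hB hC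
    have := hD.map (C : R →+* R[X])
    simpa [map_ofNat] using this

lemma Good.unique [IsDomain R] {p1 q1 p2 q2 : R[X]} {d1 d2 : ℕ} (h1 : Good p1 q1 d1)
    (h2 : Good p2 q2 d2) (h : p1 * q2 = p2 * q1) : d1 = d2 := by
  have a : p1 ∣ p2 := h1.cop.dvd_of_dvd_mul_right ⟨q2, h.symm⟩
  have b : p2 ∣ p1 := h2.cop.dvd_of_dvd_mul_right ⟨q1, h⟩
  have := natDegree_le_of_dvd a h2.monic.ne_zero
  have := natDegree_le_of_dvd b h1.monic.ne_zero
  rw [← h1.deg, ← h2.deg]; omega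

end degrees

section zero
variable {R : Type*} [CommRing R]

/-- values at the three torsion point -/
def Zv (b1 b2 : R) (τ : ZMod 3) (d : ℕ) (p q : R) : Prop :=
  (τ = 0 ∧ q = 0 ∧ p ^ 3 = (4 * b1 ^ 2) ^ d) ∨
    (τ ≠ 0 ∧ p = 0 ∧ q ^ 3 * (4 * b2 ^ 2) = (4 * b1 ^ 2) ^ d)

lemma Zv.neg {b1 b2 : R} {τ : ZMod 3} {d : ℕ} {p q : R} (h : Zv b1 b2 τ d p q) :
    Zv b1 b2 (-τ) d p q := by
  simpa [Zv] using h

lemma zv_step [IsDomain R] {b1 b2 : R} (hb1 : 4 * b1 ^ 2 ≠ 0) {τ1 τ2 : ZMod 3} {d1 d2 d d' : ℕ}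
    {p1 q1 p2 q2 p q p' q' : R} (hd : d' + d = 2 * d1 + 2 * d2)
    (h1 : Zv b1 b2 τ1 d1 p1 q1) (h2 : Zv b1 b2 τ2 d2 p2 q2) (h : Zv b1 b2 (τ1 - τ2) d p q)
    (hA : q' * q = fA p1 q1 p2 q2) (hB : p' * q + p * q' = fB b2 p1 q1 p2 q2)
    (hC : p' * p = fC b2 p1 q1 p2 q2) : Zv b1 b2 (τ1 + τ2) d' p' q' := by
  set β := 4 * b1 ^ 2 with hβ
  have hβd : β ^ d ≠ 0 := pow_ne_zero _ hb1
  have hpow : β ^ d' * β ^ d = (β ^ d1) ^ 2 * (β ^ d2) ^ 2 := by
    rw [← pow_add, hd]; ring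
  have canc : ∀ v : R, v * β ^ d = (β ^ d1) ^ 2 * (β ^ d2) ^ 2 → v = β ^ d' := by
    intro v hv
    exact mul_right_cancel₀ hβd (by rw [hv, hpow])
  simp only [fA, fB, fC] at hA hB hC
  rcases h1 with ⟨t1, rfl, e1⟩ | ⟨t1, rfl, e1⟩ <;> rcases h2 with ⟨t2, rfl, e2⟩ | ⟨t2, rfl, e2⟩ <;>
    rcases h with ⟨t, rfl, e⟩ | ⟨t, rfl, e⟩
  · left
    have hp : p ≠ 0 := by rintro rfl; apply hβd; rw [← e]; ring
    refine ⟨by rw [t1, t2]; rfl, ?_, canc _ ?_⟩
    · exact (mul_eq_zero.mp (by linear_combination hB : p * q' = 0)).resolve_left hp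
    · rw [← e, ← e1, ← e2]
      have : p' * p = (p1 * p2) ^ 2 := by linear_combination hC
      calc p' ^ 3 * p ^ 3 = (p' * p) ^ 3 := by ring
        _ = _ := by rw [this]; ring
  · exact absurd (by rw [t1, t2]; rfl) t
  · exact absurd (by rw [t1] at t; simpa using t) t2
  · right
    have hq : q ≠ 0 := by rintro rfl; apply hβd; rw [← e]; ring
    refine ⟨by rw [t1]; simpa using t2, ?_, canc _ ?_⟩
    · exact (mul_eq_zero.mp (by linear_combination hB : p' * q = 0)).resolve_right hq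
    · rw [← e, ← e1, ← e2]
      have : q' * q = (p1 * q2) ^ 2 := by linear_combination hA
      calc q' ^ 3 * (4 * b2 ^ 2) * (q ^ 3 * (4 * b2 ^ 2))
          = (q' * q) ^ 3 * (4 * b2 ^ 2) ^ 2 := by ring
        _ = _ := by rw [this]; ring
  · exact absurd (by rw [t2] at t; simpa using t) t1
  · right
    have hq : q ≠ 0 := by rintro rfl; apply hβd; rw [← e]; ring
    refine ⟨by rw [t2]; simpa using t1, ?_, canc _ ?_⟩
    · exact (mul_eq_zero.mp (by linear_combination hB : p' * q = 0)).resolve_right hq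
    · rw [← e, ← e1, ← e2]
      have : q' * q = (p2 * q1) ^ 2 := by linear_combination hA
      calc q' ^ 3 * (4 * b2 ^ 2) * (q ^ 3 * (4 * b2 ^ 2))
          = (q' * q) ^ 3 * (4 * b2 ^ 2) ^ 2 := by ring
        _ = _ := by rw [this]; ring
  · right
    have hp : p ≠ 0 := by rintro rfl; apply hβd; rw [← e]; ring
    refine ⟨by revert t1 t2 t; revert τ1 τ2; decide, ?_, canc _ ?_⟩
    · exact (mul_eq_zero.mp (by linear_combination hC : p' * p = 0)).resolve_right hp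
    · rw [← e, ← e1, ← e2]
      have : p * q' = 4 * b2 ^ 2 * (q1 * q2) ^ 2 := by linear_combination hB
      calc q' ^ 3 * (4 * b2 ^ 2) * p ^ 3 = (p * q') ^ 3 * (4 * b2 ^ 2) := by ring
        _ = _ := by rw [this]; ring
  · left
    have hq : q ≠ 0 := by rintro rfl; apply hβd; rw [← e]; ring
    refine ⟨by revert t1 t2 t; revert τ1 τ2; decide, ?_, canc _ ?_⟩
    · exact (mul_eq_zero.mp (by linear_combination hA : q' * q = 0)).resolve_right hq
    · rw [← e, ← e1, ← e2]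
      have : p' * q = 4 * b2 ^ 2 * (q1 * q2) ^ 2 := by linear_combination hB
      calc p' ^ 3 * (q ^ 3 * (4 * b2 ^ 2)) = (p' * q) ^ 3 * (4 * b2 ^ 2) := by ring
        _ = _ := by rw [this]; ring

end zero

end Pool.Agent.P.MP_a378b9_nt
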