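import Mathlib
import Pool.Agent.P.MP_a378b9_nt.Forms

/-! Points on `y^2 = x^3 + (3x+b)^2`: addition and subtraction on x-coordinates, and additivity
of the invariant differential. -/

set_option autoImplicit false

open WeierstrassCurve WeierstrassCurve.Affine

namespace Pool.Agent.P.MP_a378b9_nt

/-- the curve `y^2 = x^3 + (3x+b)^2` -/
def Wc {A : Type*} [CommRing A] (b : A) : WeierstrassCurve.Affine A := ⟨0, 9, 0, 6 * b, b ^ 2⟩

variable {L : Type*} [Field L]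

lemma ns_iff {b x y : L} : (Wc b).Nonsingular x y ↔
    y ^ 2 = x ^ 3 + (3 * x + b) ^ 2 ∧ (3 * x ^ 2 + 18 * x + 6 * b ≠ 0 ∨ y ≠ -y) := by
  rw [nonsingular_iff, equation_iff]
  simp only [Wc]
  constructor
  · rintro ⟨h, h'⟩
    refine ⟨by linear_combination h, h'.imp (fun h1 h2 => h1 (by linear_combination -h2))
      (fun h1 h2 => h1 (by linear_combination h2))⟩
  · rintro ⟨h, h'⟩
    refine ⟨by linear_combination h, h'.imp (fun h1 h2 => h1 (by linear_combination -h2))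
      (fun h1 h2 => h1 (by linear_combination h2))⟩

lemma negY_Wc (b x y : L) : (Wc b).negY x y = -y := by simp [Wc]

lemma addX_Wc (b x1 x2 l : L) : (Wc b).addX x1 x2 l = l ^ 2 - 9 - x1 - x2 := by simp [Wc]

lemma addY_Wc (b x1 x2 y1 l : L) :
    (Wc b).addY x1 x2 y1 l = -(l * (l ^ 2 - 9 - x1 - x2 - x1) + y1) := by
  simp [Wc, addY, negAddY]

variable [DecidableEq L]

lemma slope_dbl {b x y : L} (hy : y ≠ -y) :
    (Wc b).slope x x y y = (3 * x ^ 2 + 18 * x + 6 * b) / (2 * y) := by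
  rw [slope_of_Y_ne rfl (by rwa [negY_Wc]), negY_Wc]
  simp only [Wc]
  congr 1 <;> ring

omit [DecidableEq L] in
lemma neg_some' {b x y : L} (h : (Wc b).Nonsingular x y) :
    ∃ h' : (Wc b).Nonsingular x (-y), -Point.some x y h = Point.some x (-y) h' := by
  have h' : (Wc b).Nonsingular x (-y) := by
    have := (nonsingular_neg (W' := Wc b) x y).mpr h
    rwa [negY_Wc] at this
  exact ⟨h', by rw [Point.neg_some]; congr 1; exact negY_Wc b x y⟩

lemma add_X_ne {b x1 y1 x2 y2 : L} (h1 : (Wc b).Nonsingular x1 y1) (h2 : (Wc b).Nonsingular x2 y2)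
    (hx : x1 ≠ x2) : ∃ x3 y3 h3, Point.some x1 y1 h1 + Point.some x2 y2 h2 = Point.some x3 y3 h3 ∧
      x3 = ((y1 - y2) / (x1 - x2)) ^ 2 - 9 - x1 - x2 ∧
      y3 = -((y1 - y2) / (x1 - x2) * (x3 - x1) + y1) := by
  refine ⟨_, _, _, Point.add_of_X_ne hx, ?_, ?_⟩
  · rw [addX_Wc, slope_of_X_ne hx]
  · rw [addY_Wc, addX_Wc, slope_of_X_ne hx]

lemma add_dbl {b x y : L} (h : (Wc b).Nonsingular x y) (hy : y ≠ -y) :
    ∃ x3 y3 h3, Point.some x y h + Point.some x y h = Point.some x3 y3 h3 ∧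
      x3 = ((3 * x ^ 2 + 18 * x + 6 * b) / (2 * y)) ^ 2 - 9 - x - x ∧
      y3 = -((3 * x ^ 2 + 18 * x + 6 * b) / (2 * y) * (x3 - x) + y) := by
  refine ⟨_, _, _, Point.add_self_of_Y_ne (by rwa [negY_Wc]), ?_, ?_⟩
  · rw [addX_Wc, slope_dbl hy]
  · rw [addY_Wc, addX_Wc, slope_dbl hy]

lemma addsub_self {b x y : L} (h : (Wc b).Nonsingular x y) :
    ∃ c : L, fA x 1 x 1 = 0 ∧
      fB b x 1 x 1 = c * (Point.some x y h + Point.some x y h).xRep 1 ∧
      fC b x 1 x 1 = c * (Point.some x y h + Point.some x y h).xRep 0 := by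
  have e := (ns_iff.mp h).1
  by_cases hy : y = -y
  · rw [Point.add_self_of_Y_eq (by rwa [negY_Wc])]
    refine ⟨fC b x 1 x 1, by simp [fA], ?_, by simp⟩
    simp only [fB, Point.xRep_zero, Matrix.cons_val_one, Matrix.cons_val_zero]
    linear_combination (-4) * e + (2 * y) * hy
  · obtain ⟨x3, y3, h3, hs, hx3, -⟩ := add_dbl h hy
    have hy2 : 2 * y ≠ 0 := fun h0 => hy (by linear_combination h0)
    rw [hs]
    refine ⟨4 * y ^ 2, by simp [fA], ?_, ?_⟩
    · simp only [fB, Point.xRep_some, Matrix.cons_val_one, Matrix.cons_val_zero]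
      linear_combination (-4) * e
    · simp only [fC, Point.xRep_some, Matrix.cons_val_zero]
      have : 4 * y ^ 2 * x3 = (3 * x ^ 2 + 18 * x + 6 * b) ^ 2 - 4 * y ^ 2 * (9 + 2 * x) := by
        have hl := div_mul_cancel₀ (3 * x ^ 2 + 18 * x + 6 * b) hy2
        rw [hx3]
        generalize (3 * x ^ 2 + 18 * x + 6 * b) / (2 * y) = l at hl
        rw [← hl]; ring
      rw [this]
      linear_combination (4 * (9 + 2 * x)) * e

lemma addsub (b : L) (P Q : (Wc b).Point) : ∃ c : L,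
    fA (P.xRep 0) (P.xRep 1) (Q.xRep 0) (Q.xRep 1) = c * ((P + Q).xRep 1 * (P - Q).xRep 1) ∧
    fB b (P.xRep 0) (P.xRep 1) (Q.xRep 0) (Q.xRep 1)
      = c * ((P + Q).xRep 0 * (P - Q).xRep 1 + (P - Q).xRep 0 * (P + Q).xRep 1) ∧
    fC b (P.xRep 0) (P.xRep 1) (Q.xRep 0) (Q.xRep 1) = c * ((P + Q).xRep 0 * (P - Q).xRep 0) := by
  rcases P with _ | ⟨x1, y1, h1⟩
  · rw [← Point.zero_def, zero_add, zero_sub, Point.xRep_neg]
    refine ⟨1, ?_, ?_, ?_⟩ <;> simp [fA, fB, fC] <;> ring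
  rcases Q with _ | ⟨x2, y2, h2⟩
  · rw [← Point.zero_def, add_zero, sub_zero]
    refine ⟨1, ?_, ?_, ?_⟩ <;> simp [fA, fB, fC] <;> ring
  by_cases hx : x1 = x2
  · subst hx
    obtain ⟨c, a1, a2, a3⟩ := addsub_self h1
    rcases (Point.X_eq_iff (h₁ := h2) (h₂ := h1)).mp rfl with hq | hq
    · have hx2 : (Point.some x1 y2 h2).xRep = (Point.some x1 y1 h1).xRep := rfl
      rw [hx2, hq, sub_self]
      refine ⟨c, ?_, ?_, ?_⟩ <;> simp [a1, a2, a3]
    · have hx2 : (Point.some x1 y2 h2).xRep = (Point.some x1 y1 h1).xRep := rfl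
      rw [hx2, hq, sub_neg_eq_add, add_neg_cancel]
      refine ⟨c, ?_, ?_, ?_⟩ <;> simp [a1, a2, a3]
  · obtain ⟨h2', hn⟩ := neg_some' h2
    obtain ⟨x3, y3, h3, hs, hx3, -⟩ := add_X_ne h1 h2 hx
    obtain ⟨x4, y4, h4, hs', hx4, -⟩ := add_X_ne h1 h2' hx
    rw [sub_eq_add_neg, hn, hs, hs']
    have e1 := (ns_iff.mp h1).1
    have e2 := (ns_iff.mp h2).1
    have hd : x1 - x2 ≠ 0 := sub_ne_zero.mpr hx
    have f3 : (x1 - x2) ^ 2 * x3 = (y1 - y2) ^ 2 - (x1 - x2) ^ 2 * (9 + x1 + x2) := by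
      rw [hx3]; field_simp; ring
    have f4 : (x1 - x2) ^ 2 * x4 = (y1 + y2) ^ 2 - (x1 - x2) ^ 2 * (9 + x1 + x2) := by
      rw [hx4]; field_simp; ring
    refine ⟨(x1 - x2) ^ 2, ?_, ?_, ?_⟩ <;>
      simp only [fA, fB, fC, Point.xRep_some, Matrix.cons_val_one, Matrix.cons_val_zero]
    · ring
    · linear_combination -f3 - f4 - 2 * e1 - 2 * e2
    · apply mul_left_cancel₀ (pow_ne_zero 2 hd)
      have : (x1 - x2) ^ 2 * ((x1 - x2) ^ 2 * (x3 * x4))
          = ((x1 - x2) ^ 2 * x3) * ((x1 - x2) ^ 2 * x4) := by ring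
      rw [this, f3, f4]
      have k : ((y1 - y2) ^ 2 - (x1 - x2) ^ 2 * (9 + x1 + x2)) *
          ((y1 + y2) ^ 2 - (x1 - x2) ^ 2 * (9 + x1 + x2)) = (y1 ^ 2 - y2 ^ 2) ^ 2
          - 2 * (y1 ^ 2 + y2 ^ 2) * ((x1 - x2) ^ 2 * (9 + x1 + x2))
          + ((x1 - x2) ^ 2 * (9 + x1 + x2)) ^ 2 := by ring
      rw [k, e1, e2]; ring

/-- `(φ : θ)` is the projective x-coordinate of `P` -/
def Rep {b : L} (P : (Wc b).Point) (φ θ : L) : Prop := ∃ κ : L, φ = κ * P.xRep 0 ∧ θ = κ * P.xRep 1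

omit [DecidableEq L] in
lemma Rep.neg {b : L} {P : (Wc b).Point} {φ θ : L} (h : Rep P φ θ) : Rep (-P) φ θ := by
  simpa [Rep] using h

lemma rep_forms {b : L} {P Q : (Wc b).Point} {p1 q1 p2 q2 : L} (h1 : Rep P p1 q1)
    (h2 : Rep Q p2 q2) : ∃ c : L,
    fA p1 q1 p2 q2 = c * ((P + Q).xRep 1 * (P - Q).xRep 1) ∧
    fB b p1 q1 p2 q2 = c * ((P + Q).xRep 0 * (P - Q).xRep 1 + (P - Q).xRep 0 * (P + Q).xRep 1) ∧
    fC b p1 q1 p2 q2 = c * ((P + Q).xRep 0 * (P - Q).xRep 0) := by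
  obtain ⟨k1, rfl, rfl⟩ := h1
  obtain ⟨k2, rfl, rfl⟩ := h2
  obtain ⟨c, a1, a2, a3⟩ := addsub b P Q
  refine ⟨k1 ^ 2 * k2 ^ 2 * c, ?_, ?_, ?_⟩
  · rw [mul_assoc, ← a1]; simp only [fA]; ring
  · rw [mul_assoc, ← a2]; simp only [fB]; ring
  · rw [mul_assoc, ← a3]; simp only [fC]; ring

lemma rep_s3 {b : L} {P Q : (Wc b).Point} {p1 q1 p2 q2 p q : L} (h1 : Rep P p1 q1)
    (h2 : Rep Q p2 q2) (h : Rep (P - Q) p q) :
    fA p1 q1 p2 q2 * p ^ 2 - fB b p1 q1 p2 q2 * (p * q) + fC b p1 q1 p2 q2 * q ^ 2 = 0 := by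
  obtain ⟨c, a1, a2, a3⟩ := rep_forms h1 h2
  obtain ⟨k, rfl, rfl⟩ := h
  rw [a1, a2, a3]; ring

lemma rep_step {b : L} {P Q : (Wc b).Point} {p1 q1 p2 q2 p q p' q' : L} (h1 : Rep P p1 q1)
    (h2 : Rep Q p2 q2) (h : Rep (P - Q) p q) (hne : ¬ (p = 0 ∧ q = 0))
    (hA : q' * q = fA p1 q1 p2 q2) (hB : p' * q + p * q' = fB b p1 q1 p2 q2)
    (hC : p' * p = fC b p1 q1 p2 q2) : Rep (P + Q) p' q' := by
  obtain ⟨c, a1, a2, a3⟩ := rep_forms h1 h2
  obtain ⟨k, rfl, rfl⟩ := h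
  have hk : k ≠ 0 := by rintro rfl; simp at hne
  rw [a1] at hA; rw [a2] at hB; rw [a3] at hC
  refine ⟨c / k, ?_, ?_⟩ <;> field_simp
  · rcases hD : P - Q with _ | ⟨x, y, h⟩ <;> rw [hD] at hA hB hC
    · simpa [← Point.zero_def] using hC
    · simp only [Point.xRep_some, Matrix.cons_val_one, Matrix.cons_val_zero] at hA hB
      linear_combination hB - x * hA
  · rcases hD : P - Q with _ | ⟨x, y, h⟩ <;> rw [hD] at hA hB hC
    · simp only [← Point.zero_def, Point.xRep_zero, Matrix.cons_val_one,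
        Matrix.cons_val_zero] at hB
      linear_combination hB
    · simpa using hA

omit [DecidableEq L] in
lemma Rep.affine {b : L} {P : (Wc b).Point} {φ θ : L} (h : Rep P φ θ) (hθ : θ ≠ 0) :
    ∃ x y h', P = Point.some x y h' ∧ φ = x * θ := by
  obtain ⟨k, rfl, rfl⟩ := h
  rcases P with _ | ⟨x, y, h'⟩
  · simp [← Point.zero_def] at hθ
  · exact ⟨x, y, h', rfl, by simp [mul_comm]⟩

/-- difference of the two x-coordinates -/
lemma sub_formula {b x1 y1 x2 y2 : L} (h1 : (Wc b).Nonsingular x1 y1)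
    (h2 : (Wc b).Nonsingular x2 y2) (hx : x1 ≠ x2) : ∃ x3 x4 : L,
    (Point.some x1 y1 h1 + Point.some x2 y2 h2).xRep = ![x3, 1] ∧
    (Point.some x1 y1 h1 - Point.some x2 y2 h2).xRep = ![x4, 1] ∧
    (x4 - x3) * (x1 - x2) ^ 2 = 4 * (y1 * y2) ∧
    2 * x4 * (x1 - x2) ^ 2 = fB b x1 1 x2 1 + 4 * (y1 * y2) := by
  obtain ⟨h2', hn⟩ := neg_some' h2
  obtain ⟨x3, y3, h3, hs, hx3, -⟩ := add_X_ne h1 h2 hx
  obtain ⟨x4, y4, h4, hs', hx4, -⟩ := add_X_ne h1 h2' hx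
  have hd : x1 - x2 ≠ 0 := sub_ne_zero.mpr hx
  have e1 := (ns_iff.mp h1).1
  have e2 := (ns_iff.mp h2).1
  have f3 : (x1 - x2) ^ 2 * x3 = (y1 - y2) ^ 2 - (x1 - x2) ^ 2 * (9 + x1 + x2) := by
    rw [hx3]; field_simp; ring
  have f4 : (x1 - x2) ^ 2 * x4 = (y1 + y2) ^ 2 - (x1 - x2) ^ 2 * (9 + x1 + x2) := by
    rw [hx4]; field_simp; ring
  refine ⟨x3, x4, by rw [hs]; rfl, by rw [sub_eq_add_neg, hn, hs']; rfl, ?_, ?_⟩
  · linear_combination f4 - f3
  · simp only [fB]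
    linear_combination 2 * f4 + 2 * e1 + 2 * e2

section der
variable (δ : L →+ L)

/-- the pull back of the invariant differential along `P` is `π` times the invariant
differential -/
def Dr {b : L} (P : (Wc b).Point) (π : L) : Prop :=
  match P with
  | .zero => π = 0
  | .some x y _ => δ x = 2 * π * y ∧ δ y = π * (3 * x ^ 2 + 18 * x + 6 * b)

variable {δ}

omit [DecidableEq L] in
lemma der_nat (hm : ∀ u v, δ (u * v) = u * δ v + δ u * v) (n : ℕ) : δ n = 0 := by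
  have h1 : δ 1 = 0 := by
    have := hm 1 1
    simpa using this
  rw [← nsmul_one, map_nsmul, h1, nsmul_zero]

omit [DecidableEq L] in
lemma dr_core (hm : ∀ u v, δ (u * v) = u * δ v + δ u * v) {b x1 y1 x2 y2 x3 y3 l π1 π2 : L}
    (hx3 : x3 = l ^ 2 - 9 - x1 - x2) (hy3 : y3 = -(l * (x3 - x1) + y1))
    (hy2 : y2 = y1 + l * (x2 - x1)) (E : 6 * b - 2 * l * (y1 - l * x1) = x1 * x2 + x3 * (x1 + x2))
    (a1 : δ x1 = 2 * π1 * y1) (b1 : δ y1 = π1 * (3 * x1 ^ 2 + 18 * x1 + 6 * b))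
    (a2 : δ x2 = 2 * π2 * y2) (hl : δ l = π1 * (x1 - x3) + π2 * (x2 - x3)) :
    δ x3 = 2 * (π1 + π2) * y3 ∧ δ y3 = (π1 + π2) * (3 * x3 ^ 2 + 18 * x3 + 6 * b) := by
  have h9 : δ 9 = 0 := by simpa using der_nat hm 9
  have d3 : δ x3 = 2 * l * δ l - δ x1 - δ x2 := by
    conv_lhs => rw [hx3]
    rw [map_sub, map_sub, map_sub, h9, sq, hm]; ring
  have e3 : δ x3 = 2 * (π1 + π2) * y3 := by
    rw [d3, hl, a1, a2, hy3, hy2]; ring
  refine ⟨e3, ?_⟩
  have d4 : δ y3 = -(l * (δ x3 - δ x1) + δ l * (x3 - x1) + δ y1) := by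
    conv_lhs => rw [hy3]
    rw [map_neg, map_add, hm, map_sub]
  rw [d4, e3, hl, a1, b1, hy3]
  have h9' : (9 : L) = l ^ 2 - x1 - x2 - x3 := by rw [hx3]; ring
  linear_combination (-(2 * π1 + π2)) * E - (2 * π1 * x1 + 2 * (π1 + π2) * x3) * h9'

lemma dr_add (hm : ∀ u v, δ (u * v) = u * δ v + δ u * v) {b : L} (hb : δ b = 0)
    {P Q : (Wc b).Point} {π1 π2 : L} (h1 : Dr δ P π1) (h2 : Dr δ Q π2) :
    Dr δ (P + Q) (π1 + π2) := by
  rcases P with _ | ⟨x1, y1, n1⟩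
  · have : π1 = 0 := h1
    rw [← Point.zero_def, zero_add, this, zero_add]; exact h2
  rcases Q with _ | ⟨x2, y2, n2⟩
  · have : π2 = 0 := h2
    rw [← Point.zero_def, add_zero, this, add_zero]; exact h1
  obtain ⟨a1, b1⟩ := h1
  obtain ⟨a2, b2⟩ := h2
  have e1 := (ns_iff.mp n1).1
  have e2 := (ns_iff.mp n2).1
  by_cases hx : x1 = x2
  · subst hx
    by_cases hy : y1 = -y2
    · rw [Point.add_of_Y_eq rfl (by rwa [negY_Wc])]
      show π1 + π2 = 0
      subst hy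
      rw [map_neg] at b1
      rcases (ns_iff.mp n2).2 with h | h
      · exact (mul_eq_zero.mp (by linear_combination -b1 - b2 :
          (π1 + π2) * (3 * x1 ^ 2 + 18 * x1 + 6 * b) = 0)).resolve_right h
      · have hy2 : 2 * y2 ≠ 0 := fun h0 => h (by linear_combination h0)
        exact (mul_eq_zero.mp (by linear_combination a1 - a2 :
          (π1 + π2) * (2 * y2) = 0)).resolve_right hy2
    · have hyy : y1 = y2 := by
        have : (y1 - y2) * (y1 + y2) = 0 := by linear_combination e1 - e2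
        rcases mul_eq_zero.mp this with h | h
        · linear_combination h
        · exact absurd (by linear_combination h) hy
      subst hyy
      obtain ⟨x3, y3, h3, hs, hx3, hy3⟩ := add_dbl n1 hy
      have hy2 : 2 * y1 ≠ 0 := fun h0 => hy (by linear_combination h0)
      have hπ : π2 = π1 := mul_right_cancel₀ hy2 (by linear_combination a1 - a2)
      subst hπ
      rw [hs]
      set l := (3 * x1 ^ 2 + 18 * x1 + 6 * b) / (2 * y1) with hl
      have hl' : l * (2 * y1) = 3 * x1 ^ 2 + 18 * x1 + 6 * b := div_mul_cancel₀ _ hy2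
      refine dr_core hm hx3 hy3 (by ring) ?_ a1 b1 a1 ?_
      · rw [hx3]; linear_combination -hl'
      · have hd := congrArg δ hl'
        have h2 : δ 2 = 0 := by simpa using der_nat hm 2
        have h3 : δ 3 = 0 := by simpa using der_nat hm 3
        have h6 : δ 6 = 0 := by simpa using der_nat hm 6
        have h18 : δ 18 = 0 := by simpa using der_nat hm 18
        simp only [map_add, sq, hm, h2, h3, h6, h18, hb, a1, b1] at hd
        apply mul_right_cancel₀ hy2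
        rw [hx3]
        linear_combination hd + 2 * l * π2 * hl'
  · obtain ⟨x3, y3, h3, hs, hx3, hy3⟩ := add_X_ne n1 n2 hx
    have hd : x1 - x2 ≠ 0 := sub_ne_zero.mpr hx
    rw [hs]
    set l := (y1 - y2) / (x1 - x2) with hl
    have hl' : l * (x1 - x2) = y1 - y2 := by rw [hl]; field_simp
    have hy2 : y2 = y1 + l * (x2 - x1) := by linear_combination hl'
    have E : 6 * b - 2 * l * (y1 - l * x1) = x1 * x2 + x3 * (x1 + x2) := by
      apply mul_right_cancel₀ hd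
      rw [hy2] at e2
      rw [hx3]
      linear_combination e2 - e1
    refine dr_core hm hx3 hy3 hy2 E a1 b1 a2 ?_
    have hδ := congrArg δ hl'
    simp only [map_sub, hm, a1, b1, a2, b2] at hδ
    apply mul_right_cancel₀ hd
    have h9' : (9 : L) = l ^ 2 - x1 - x2 - x3 := by rw [hx3]; ring
    rw [hy2] at hδ
    linear_combination hδ + (π1 - π2) * E + (2 * π1 * x1 - 2 * π2 * x2) * h9'

omit [DecidableEq L] in
lemma dr_neg {b : L} {P : (Wc b).Point} {π : L} (h : Dr δ P π) : Dr δ (-P) (-π) := by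
  rcases P with _ | ⟨x, y, n⟩
  · have : π = 0 := h
    show -π = 0
    rw [this, neg_zero]
  · obtain ⟨h', hn⟩ := neg_some' n
    rw [hn]
    obtain ⟨a, b⟩ := h
    exact ⟨by rw [a]; ring, by rw [map_neg, b]; ring⟩

lemma dr_zsmul (hm : ∀ u v, δ (u * v) = u * δ v + δ u * v) {b : L} (hb : δ b = 0)
    {P : (Wc b).Point} {π : L} (h : Dr δ P π) (n : ℤ) : Dr δ (n • P) (n * π) := by
  induction n using Int.induction_on with
  | zero => rw [zero_zsmul]; show ((0 : ℤ) : L) * π = 0; simp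
  | succ n ih =>
    have := dr_add hm hb ih h
    rw [add_zsmul, one_zsmul]
    convert this using 1; push_cast; ring
  | pred n ih =>
    have := dr_add hm hb ih (dr_neg h)
    rw [sub_zsmul, one_zsmul]
    convert this using 1; push_cast; ring

end der

end Pool.Agent.P.MP_a378b9_nt
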