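import Mathlib
import Pool.Agent.P.MP_a378b9_nt.Geom

/-! The function field of the curve with its invariant derivation. -/

set_option autoImplicit false

open Polynomial WeierstrassCurve WeierstrassCurve.Affine

namespace Pool.Agent.P.MP_a378b9_nt

/-- the cubic -/
noncomputable def gp {R : Type*} [CommRing R] (b : R) : R[X] := X ^ 3 + (3 * X + C b) ^ 2

/-- a field containing a generic point of the curve, with the invariant derivation -/
structure FF {R : Type*} [CommRing R] (b : R) (L : Type*) [Field L] where
  ι : R[X] →+* L
  y : L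
  δ : L →+ L
  inj : Function.Injective ι
  hy : y ^ 2 = ι (gp b)
  hm : ∀ u v, δ (u * v) = u * δ v + δ u * v
  hd : ∀ f, δ (ι f) = ι (derivative f) * (2 * y)

open TrivSqZeroExt in
theorem exists_FF {R : Type*} [CommRing R] [IsDomain R] (b : R) :
    Nonempty (FF b (Wc b).FunctionField) := by
  let A := (Wc b).CoordinateRing
  let L := (Wc b).FunctionField
  let ι : R[X] →+* L := (algebraMap A L).comp (algebraMap R[X] A)
  let y : L := algebraMap A L (AdjoinRoot.root (Wc b).polynomial)
  have hinj : Function.Injective ι :=
    (IsFractionRing.injective A L).comp (FaithfulSMul.algebraMap_injective R[X] A)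
  have hpol : (Wc b).polynomial = X ^ 2 - C (gp b) := by
    simp only [Affine.polynomial, Wc, gp, map_add, map_mul, map_pow, map_ofNat, map_zero]
    ring
  have hy : y ^ 2 = ι (gp b) := by
    have := AdjoinRoot.eval₂_root (Wc b).polynomial
    have h2 : eval₂ (AdjoinRoot.of (Wc b).polynomial) (AdjoinRoot.root (Wc b).polynomial)
        (X ^ 2 - C (gp b)) = 0 := by rw [← hpol]; exact this
    simp only [eval₂_sub, eval₂_pow, eval₂_X, eval₂_C] at h2
    have h3 := congrArg (algebraMap A L) (sub_eq_zero.mp h2)
    rw [map_pow] at h3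
    exact h3
  let φ0 : R[X] →+* DualNumber L :=
    eval₂RingHom ((inlHom L L).comp (ι.comp C)) (inl (ι X) + inr (2 * y))
  have hφ0 : ∀ f, φ0 f = inl (ι f) + inr (ι (derivative f) * (2 * y)) := by
    intro f
    induction f using Polynomial.induction_on with
    | C a => simp [φ0]
    | add p q hp hq => rw [map_add, hp, hq]; ext <;> simp [add_mul]
    | monomial n a ih =>
      rw [pow_succ, ← mul_assoc, map_mul, ih]
      have : φ0 X = inl (ι X) + inr (2 * y) := by simp [φ0]
      rw [this, derivative_mul (f := C a * X ^ n), derivative_X]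
      ext
      · simp
      · simp only [snd_mul, fst_add, fst_inl, fst_inr, snd_add, snd_inl, snd_inr, add_zero,
          zero_add, smul_eq_mul, MulOpposite.smul_eq_mul_unop, MulOpposite.unop_op, map_add,
          map_mul, mul_one]
        ring
  let η : DualNumber L := inl y + inr (ι (derivative (gp b)))
  have hη : eval₂ φ0 η (Wc b).polynomial = 0 := by
    refine (congrArg (eval₂ φ0 η) hpol).trans ?_
    simp only [eval₂_sub, eval₂_pow, eval₂_X, eval₂_C, hφ0]
    ext
    · simp [η, hy]
    · simp [η, sq]; ring
  let φ1 : A →+* DualNumber L := AdjoinRoot.lift φ0 η hη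
  have hφ1 : ∀ a : A, (φ1 a).fst = algebraMap A L a := by
    have : (fstHom L L L).toRingHom.comp φ1 = algebraMap A L := by
      apply AdjoinRoot.ringHom_ext
      · ext1
        · ext a
          simp [φ1, hφ0, ι]; rfl
        · simp [φ1, hφ0, ι]; rfl
      · simp [φ1, η, y]
    intro a
    exact congrArg (fun g : A →+* L => g a) this
  have hunit : ∀ a : nonZeroDivisors A, IsUnit (φ1 a) := by
    intro a
    rw [isUnit_iff_isUnit_fst, hφ1]
    exact IsLocalization.map_units L a
  let φ : L →+* DualNumber L := IsLocalization.lift hunit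
  have hφ : ∀ u : L, (φ u).fst = u := by
    have : (fstHom L L L).toRingHom.comp φ = RingHom.id L := by
      apply IsLocalization.ringHom_ext (nonZeroDivisors A)
      refine RingHom.ext fun a => ?_
      simp [φ, hφ1]
    intro u
    exact congrArg (fun g : L →+* L => g u) this
  refine ⟨⟨ι, y, (sndHom L L).toAddMonoidHom.comp φ.toAddMonoidHom, hinj, hy, ?_, ?_⟩⟩
  · intro u v
    simp [hφ]
  · intro f
    have : φ (ι f) = φ0 f := by
      simp only [ι, RingHom.comp_apply, φ, IsLocalization.lift_eq]
      exact AdjoinRoot.lift_of hη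
    simp [this, hφ0]

end Pool.Agent.P.MP_a378b9_nt
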