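import Mathlib
import Pool.Agent.P.MP_a378b9_nt.FF

/-! The lattice of isogenies generated by two explicit isogenies. -/

set_option autoImplicit false

open Polynomial WeierstrassCurve WeierstrassCurve.Affine

namespace Pool.Agent.P.MP_a378b9_nt

variable {R : Type*} [CommRing R]

/-- numerator of the derivative of `Φ / Θ` -/
noncomputable def Wr (Φ Θ : R[X]) : R[X] := derivative Φ * Θ - Φ * derivative Θ

/-- the differential equation of an isogeny -/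
def ODE (b1 b2 : R) (Φ Θ : R[X]) (π : R) : Prop :=
  gp b1 * Wr Φ Θ ^ 2 = C π ^ 2 * Θ * gH (C b2) Φ Θ

lemma gp_monic [Nontrivial R] (b : R) : (gp b).Monic ∧ (gp b).natDegree = 3 := by
  have e : gp b = X ^ 3 + (C 9 * X ^ 2 + C (6 * b) * X + C (b ^ 2)) := by
    simp only [gp, map_mul, map_pow, map_ofNat]; ring
  rw [e]
  constructor
  · monicity!
  · compute_degree!

lemma Good.wr_ne [IsDomain R] [CharZero R] {Φ Θ : R[X]} {d : ℕ} (h : Good Φ Θ d) (hΘ : Θ ≠ 0) :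
    Wr Φ Θ ≠ 0 := by
  intro h0
  have hd : 0 < d := by
    have := h.lt
    rw [degree_eq_natDegree hΘ] at this
    have : Θ.natDegree < d := by exact_mod_cast this
    omega
  have h1 : Φ ∣ derivative Φ := h.cop.dvd_of_dvd_mul_right ⟨derivative Θ, sub_eq_zero.mp h0⟩
  have h2 : derivative Φ = 0 := by
    by_contra hne
    have := natDegree_le_of_dvd h1 hne
    have := natDegree_derivative_lt (p := Φ) (by rw [h.deg]; omega)
    omega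
  have := derivative_eq_zero.mp h2
  rw [h.deg] at this; omega

/-- explicit data generating a lattice of isogenies -/
structure Base (b1 b2 : R) where
  Pa : R[X]
  Qa : R[X]
  Pb : R[X]
  Qb : R[X]
  Pc : R[X]
  Qc : R[X]
  da : ℕ
  db : ℕ
  dc : ℕ
  πa : R
  πb : R
  εb : ZMod 3
  sa : R
  ga : Good Pa Qa da
  gb : Good Pb Qb db
  gc : Good Pc Qc dc
  oa : ODE b1 b2 Pa Qa πa
  ob : ODE b1 b2 Pb Qb πb
  πa0 : πa ≠ 0
  πb0 : πb ≠ 0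
  Qb0 : Qb ≠ 0
  hA : fA Pa Qa Pb Qb ≠ 0
  rel : 2 * C (πa * πb) * Pc * fA Pa Qa Pb Qb
    = Qc * (C (πa * πb) * fB (C b2) Pa Qa Pb Qb + 4 * gp b1 * (Wr Pa Qa * Wr Pb Qb))
  za : Zv b1 b2 1 da (Pa.eval 0) (Qa.eval 0)
  zb : Zv b1 b2 εb db (Pb.eval 0) (Qb.eval 0)
  zc : Zv b1 b2 (1 - εb) dc (Pc.eval 0) (Qc.eval 0)
  hsa : sa ^ 2 = 1
  sg : b1 * (Wr Pa Qa).eval 0 = sa * πa * b2 * (Qa.eval 0) ^ 2

lemma int_rec2 {H : ℤ → Prop} (h0 : H 0) (h1 : H 1)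
    (up : ∀ n, H (n - 1) → H n → H (n + 1)) (down : ∀ n, H (n + 1) → H n → H (n - 1)) (n : ℤ) :
    H n := by
  have : ∀ n : ℤ, H n ∧ H (n + 1) := by
    intro n
    induction n using Int.induction_on with
    | zero => exact ⟨h0, by simpa using h1⟩
    | succ n ih => exact ⟨ih.2, up _ (by simpa using ih.1) ih.2⟩
    | pred n ih => exact ⟨down _ ih.2 ih.1, by simpa using ih.1⟩
  exact (this n).1

section field
variable [IsDomain R] [CharZero R] {L : Type*} [Field L] [DecidableEq L] {b1 b2 : R} (F : FF b1 L)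

include F in
omit [DecidableEq L] [IsDomain R] in
lemma FF.two_ne : (2 : L) ≠ 0 := by
  intro h
  have : F.ι (C 2) = F.ι 0 := by rw [map_zero, ← h]; simp [map_ofNat]
  have := F.inj this
  simp at this

omit [DecidableEq L] [CharZero R] in
lemma FF.y_ne : F.y ≠ 0 := by
  intro h
  have := F.hy
  rw [h] at this
  have h2 : F.ι (gp b1) = F.ι 0 := by rw [← this]; simp
  exact (gp_monic b1).1.ne_zero (F.inj h2)

omit [DecidableEq L] [CharZero R] [IsDomain R] in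
lemma FF.ne {f : R[X]} (h : f ≠ 0) : F.ι f ≠ 0 := fun h0 => h (F.inj (by rw [h0, map_zero]))

omit [DecidableEq L] [CharZero R] [IsDomain R] in
lemma FF.dC (c : R) : F.δ (F.ι (C c)) = 0 := by rw [F.hd]; simp

omit [DecidableEq L] in
lemma exists_point {Φ Θ : R[X]} {d : ℕ} {π : R} (hg : Good Φ Θ d) (hΘ : Θ ≠ 0) (hπ : π ≠ 0)
    (ho : ODE b1 b2 Φ Θ π) : ∃ P : (Wc (F.ι (C b2))).Point,
      Rep P (F.ι Φ) (F.ι Θ) ∧ Dr F.δ P (F.ι (C π)) := by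
  have t0 := F.ne hΘ
  have p0 : F.ι (C π) ≠ 0 := F.ne (C_ne_zero.mpr hπ)
  have w0 := F.ne (hg.wr_ne hΘ)
  have y0 := F.y_ne
  have two := F.two_ne
  obtain ⟨x, hx⟩ : ∃ x, F.ι Φ = x * F.ι Θ := ⟨F.ι Φ / F.ι Θ, by field_simp⟩
  obtain ⟨y, hy⟩ : ∃ y, F.y * F.ι (Wr Φ Θ) = F.ι (C π) * y * F.ι Θ ^ 2 :=
    ⟨F.y * F.ι (Wr Φ Θ) / (F.ι (C π) * F.ι Θ ^ 2), by field_simp⟩
  have hy0 : y ≠ 0 := by
    rintro rfl
    exact mul_ne_zero y0 w0 (by rw [hy]; ring)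
  have ho' := congrArg F.ι ho
  rw [map_mul, map_pow, map_mul, map_mul, map_pow, map_gH, ← F.hy, hx] at ho'
  have e : y ^ 2 = x ^ 3 + (3 * x + F.ι (C b2)) ^ 2 := by
    apply mul_left_cancel₀ (mul_ne_zero (pow_ne_zero 2 p0) (pow_ne_zero 4 t0))
    simp only [gH] at ho'
    linear_combination ho' - (F.y * F.ι (Wr Φ Θ) + F.ι (C π) * y * F.ι Θ ^ 2) * hy
  have hn : (Wc (F.ι (C b2))).Nonsingular x y :=
    ns_iff.mpr ⟨e, Or.inr fun h => mul_ne_zero two hy0 (by linear_combination h)⟩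
  have dx : F.δ x = 2 * F.ι (C π) * y := by
    have h1 := congrArg F.δ hx
    rw [F.hm, F.hd, F.hd] at h1
    simp only [Wr, map_sub, map_mul, hx] at hy
    apply mul_left_cancel₀ (pow_ne_zero 2 t0)
    linear_combination 2 * hy - F.ι Θ * h1
  refine ⟨Point.some x y hn, ⟨F.ι Θ, by simp [hx, mul_comm], by simp⟩, dx, ?_⟩
  have h1 := congrArg F.δ e
  have h3 : F.δ 3 = 0 := by simpa using der_nat F.hm 3
  simp only [pow_succ, pow_zero, one_mul, map_add, F.hm, F.dC, h3, dx] at h1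
  apply mul_left_cancel₀ (mul_ne_zero two hy0)
  linear_combination h1

omit [DecidableEq L] [IsDomain R] in
lemma point_of_rep {Φ Θ : R[X]} {π : R} {P : (Wc (F.ι (C b2))).Point} (hΘ : Θ ≠ 0)
    (hr : Rep P (F.ι Φ) (F.ι Θ)) (hd : Dr F.δ P (F.ι (C π))) :
    ∃ x y h, P = Point.some x y h ∧ F.ι Φ = x * F.ι Θ ∧
      F.y * F.ι (Wr Φ Θ) = F.ι (C π) * y * F.ι Θ ^ 2 := by
  obtain ⟨x, y, h, rfl, hx⟩ := hr.affine (F.ne hΘ)
  refine ⟨x, y, h, rfl, hx, ?_⟩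
  have h1 := congrArg F.δ hx
  rw [F.hm, F.hd, F.hd, hd.1] at h1
  simp only [Wr, map_sub, map_mul, hx]
  apply mul_left_cancel₀ F.two_ne
  linear_combination F.ι Θ * h1

omit [DecidableEq L] [IsDomain R] in
lemma ode_of_rep {Φ Θ : R[X]} {π : R} {P : (Wc (F.ι (C b2))).Point} (hΘ : Θ ≠ 0)
    (hr : Rep P (F.ι Φ) (F.ι Θ)) (hd : Dr F.δ P (F.ι (C π))) : ODE b1 b2 Φ Θ π := by
  obtain ⟨x, y, h, rfl, hx, hy⟩ := point_of_rep F hΘ hr hd
  have e := (ns_iff.mp h).1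
  apply F.inj
  rw [map_mul, map_pow, map_mul, map_mul, map_pow, map_gH, ← F.hy, hx]
  simp only [gH]
  linear_combination (F.y * F.ι (Wr Φ Θ) + F.ι (C π) * y * F.ι Θ ^ 2) * hy
    + F.ι (C π) ^ 2 * F.ι Θ ^ 4 * e

/-- all the data attached to a point of the lattice -/
structure Dat (b2 : R) (P : (Wc (F.ι (C b2))).Point) (d : ℕ) (τ : ZMod 3) (Φ Θ : R[X]) :
    Prop where
  good : Good Φ Θ d
  rep : Rep P (F.ι Φ) (F.ι Θ)
  zv : Zv b1 b2 τ d (Φ.eval 0) (Θ.eval 0)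

omit [CharZero R] in
lemma dat_step (hD : IsUnit (432 * b2 ^ 3 * (4 - b2))) (hb1 : 4 * b1 ^ 2 ≠ 0)
    {P Q : (Wc (F.ι (C b2))).Point} {d1 d2 d : ℕ} {τ1 τ2 : ZMod 3} {p1 q1 p2 q2 p q : R[X]}
    (h1 : Dat F b2 P d1 τ1 p1 q1) (h2 : Dat F b2 Q d2 τ2 p2 q2)
    (h : Dat F b2 (P - Q) d (τ1 - τ2) p q) :
    ∃ d' p' q', Dat F b2 (P + Q) d' (τ1 + τ2) p' q' ∧ d' + d = 2 * d1 + 2 * d2 ∧
      q' * q = fA p1 q1 p2 q2 ∧ p' * q + p * q' = fB (C b2) p1 q1 p2 q2 := by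
  have s3 := rep_s3 h1.rep h2.rep h.rep
  have s3' : fA p1 q1 p2 q2 * p ^ 2 - fB (C b2) p1 q1 p2 q2 * (p * q)
      + fC (C b2) p1 q1 p2 q2 * q ^ 2 = 0 := by
    apply F.inj
    simp only [map_add, map_sub, map_mul, map_pow, map_fA, map_fB, map_fC, map_zero]
    exact s3
  obtain ⟨p', q', hA, hB, hC⟩ := factor_form s3' h.good.cop
  obtain ⟨d', hg, hd⟩ := good_step hD h1.good h2.good h.good hA hB hC
  refine ⟨d', p', q', ⟨hg, ?_, ?_⟩, hd, hA, hB⟩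
  · refine rep_step h1.rep h2.rep h.rep (not_both_zero F.ι h.good.cop) ?_ ?_ ?_
    · rw [← map_fA, ← hA, map_mul]
    · rw [← map_fB, ← hB, map_add, map_mul, map_mul]
    · rw [← map_fC, ← hC, map_mul]
  · refine zv_step hb1 hd h1.zv h2.zv h.zv ?_ ?_ ?_
    · simpa [map_fA] using congrArg (evalRingHom 0) hA
    · simpa [map_fB] using congrArg (evalRingHom 0) hB
    · simpa [map_fC] using congrArg (evalRingHom 0) hC

/-- existence of data -/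
def GP (b2 : R) (P : (Wc (F.ι (C b2))).Point) (N : ℤ) (τ : ZMod 3) : Prop :=
  ∃ d Φ Θ, Dat F b2 P d τ Φ Θ ∧ (d : ℤ) = N

omit [DecidableEq L] [IsDomain R] [CharZero R] in
lemma GP.neg {P : (Wc (F.ι (C b2))).Point} {N : ℤ} {τ : ZMod 3} (h : GP F b2 P N τ) :
    GP F b2 (-P) N (-τ) := by
  obtain ⟨d, Φ, Θ, h, hd⟩ := h
  exact ⟨d, Φ, Θ, ⟨h.good, h.rep.neg, h.zv.neg⟩, hd⟩

omit [DecidableEq L] [IsDomain R] [CharZero R] in
lemma GP.congr {P P' : (Wc (F.ι (C b2))).Point} {N N' : ℤ} {τ τ' : ZMod 3} (h : GP F b2 P N τ)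
    (h1 : P' = P) (h2 : N' = N) (h3 : τ' = τ) : GP F b2 P' N' τ' := by
  rw [h1, h2, h3]; exact h

omit [CharZero R] in
lemma gp_step (hD : IsUnit (432 * b2 ^ 3 * (4 - b2))) (hb1 : 4 * b1 ^ 2 ≠ 0)
    {P Q : (Wc (F.ι (C b2))).Point} {N1 N2 N : ℤ} {τ1 τ2 : ZMod 3}
    (h1 : GP F b2 P N1 τ1) (h2 : GP F b2 Q N2 τ2) (h : GP F b2 (P - Q) N (τ1 - τ2)) :
    GP F b2 (P + Q) (2 * N1 + 2 * N2 - N) (τ1 + τ2) := by
  obtain ⟨d1, p1, q1, h1, e1⟩ := h1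
  obtain ⟨d2, p2, q2, h2, e2⟩ := h2
  obtain ⟨d, p, q, h, e⟩ := h
  obtain ⟨d', p', q', h', e', -⟩ := dat_step F hD hb1 h1 h2 h
  exact ⟨d', p', q', h', by omega⟩

omit [DecidableEq L] [CharZero R] in
lemma gp_zero : GP F b2 0 0 0 := by
  refine ⟨0, 1, 0, ⟨⟨monic_one, natDegree_one, by simp, isCoprime_one_left⟩, ⟨1, by simp, by simp⟩,
    Or.inl ⟨rfl, by simp, by simp⟩⟩, rfl⟩

omit [CharZero R] in
lemma gp_line (hD : IsUnit (432 * b2 ^ 3 * (4 - b2))) (hb1 : 4 * b1 ^ 2 ≠ 0)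
    {P Q : (Wc (F.ι (C b2))).Point} {N0 N1 M : ℤ} {τ σ : ZMod 3}
    (hQ : GP F b2 Q M σ) (h0 : GP F b2 P N0 τ) (h1 : GP F b2 (P + Q) N1 (τ + σ)) (n : ℤ) :
    GP F b2 (P + n • Q) (N0 + n * (N1 - N0 - M) + n ^ 2 * M) (τ + n * σ) := by
  refine int_rec2 (H := fun n => GP F b2 (P + n • Q) (N0 + n * (N1 - N0 - M) + n ^ 2 * M)
    (τ + n * σ)) ?_ ?_ ?_ ?_ n
  · exact h0.congr F (by simp) (by ring) (by simp)
  · exact h1.congr F (by simp) (by ring) (by simp)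
  · intro n a b
    refine (gp_step F hD hb1 b hQ (a.congr F ?_ rfl ?_)).congr F ?_ ?_ ?_
    · rw [sub_zsmul, one_zsmul]; abel
    · push_cast; ring
    · rw [add_zsmul, one_zsmul]; abel
    · ring
    · push_cast; ring
  · intro n a b
    refine (gp_step F hD hb1 b (hQ.neg F) (a.congr F ?_ rfl ?_)).congr F ?_ ?_ ?_
    · rw [add_zsmul, one_zsmul]; abel
    · push_cast; ring
    · rw [sub_zsmul, one_zsmul]; abel
    · ring
    · push_cast; ring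

omit [CharZero R] in
lemma gp_lattice (hD : IsUnit (432 * b2 ^ 3 * (4 - b2))) (hb1 : 4 * b1 ^ 2 ≠ 0)
    {P Q : (Wc (F.ι (C b2))).Point} {da db dc : ℤ} {σ : ZMod 3}
    (hP : GP F b2 P da 1) (hQ : GP F b2 Q db σ) (hc : GP F b2 (P - Q) dc (1 - σ)) (u v : ℤ) :
    GP F b2 (u • P + v • Q) (da * u ^ 2 + db * v ^ 2 + (da + db - dc) * (u * v)) (u + v * σ) := by
  have r0 := gp_line F hD hb1 hP (gp_zero F) (hP.congr F (zero_add _) rfl (zero_add _)) u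
  have r1 := gp_line F hD hb1 hP (hc.neg F) (hQ.congr F (by abel) rfl (by ring)) (u + 1)
  refine (gp_line F hD hb1 hQ r0 (r1.congr F ?_ rfl ?_) v).congr F ?_ ?_ ?_
  · rw [add_zsmul, one_zsmul]; abel
  · push_cast; ring
  · abel
  · ring
  · ring

omit [IsDomain R] in
lemma sign_formula {P Q : (Wc (F.ι (C b2))).Point} {p1 q1 p2 q2 p q p' q' : R[X]} {π1 π2 : R}
    (hq1 : q1 ≠ 0) (hq2 : q2 ≠ 0) (hne : fA p1 q1 p2 q2 ≠ 0)
    (r1 : Rep P (F.ι p1) (F.ι q1)) (r2 : Rep Q (F.ι p2) (F.ι q2))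
    (d1 : Dr F.δ P (F.ι (C π1))) (d2 : Dr F.δ Q (F.ι (C π2)))
    (r : Rep (P - Q) (F.ι p) (F.ι q)) (r' : Rep (P + Q) (F.ι p') (F.ι q'))
    (hA : q' * q = fA p1 q1 p2 q2) :
    (p * q' - p' * q) * C (π1 * π2) = 4 * gp b1 * (Wr p1 q1 * Wr p2 q2) := by
  obtain ⟨x1, y1, h1, rfl, hx1, hy1⟩ := point_of_rep F hq1 r1 d1
  obtain ⟨x2, y2, h2, rfl, hx2, hy2⟩ := point_of_rep F hq2 r2 d2
  have hA' := congrArg F.ι hA
  rw [map_mul, map_fA, hx1, hx2] at hA'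
  have hx : x1 ≠ x2 := by
    rintro rfl
    apply F.ne hne
    rw [map_fA, hx1, hx2, fA]; ring
  obtain ⟨x3, x4, e3, e4, hs, -⟩ := sub_formula h1 h2 hx
  obtain ⟨k, a, b⟩ := r
  obtain ⟨k', a', b'⟩ := r'
  rw [e4] at a b
  rw [e3] at a' b'
  simp only [Matrix.cons_val_one, Matrix.cons_val_zero, mul_one] at a b a' b'
  apply F.inj
  simp only [map_mul, map_sub, map_ofNat, ← F.hy, a, a', b, b']
  simp only [fA, b, b'] at hA'
  linear_combination (F.ι (C π1) * F.ι (C π2) * (x4 - x3)) * hA'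
    + F.ι (C π1) * F.ι (C π2) * F.ι q1 ^ 2 * F.ι q2 ^ 2 * hs
    - 4 * F.y * F.ι (Wr p2 q2) * hy1 - 4 * F.ι (C π1) * y1 * F.ι q1 ^ 2 * hy2

omit [IsDomain R] in
lemma base_rep (B : Base b1 b2) (hQa : B.Qa ≠ 0) {P Q : (Wc (F.ι (C b2))).Point}
    (r1 : Rep P (F.ι B.Pa) (F.ι B.Qa)) (r2 : Rep Q (F.ι B.Pb) (F.ι B.Qb))
    (d1 : Dr F.δ P (F.ι (C B.πa))) (d2 : Dr F.δ Q (F.ι (C B.πb))) :
    Rep (P - Q) (F.ι B.Pc) (F.ι B.Qc) := by
  obtain ⟨x1, y1, h1, rfl, hx1, hy1⟩ := point_of_rep F hQa r1 d1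
  obtain ⟨x2, y2, h2, rfl, hx2, hy2⟩ := point_of_rep F B.Qb0 r2 d2
  have hx : x1 ≠ x2 := by
    rintro rfl
    apply F.ne B.hA
    rw [map_fA, hx1, hx2, fA]; ring
  obtain ⟨x3, x4, -, e4, -, hs⟩ := sub_formula h1 h2 hx
  refine ⟨F.ι B.Qc, ?_, by rw [e4]; simp⟩
  rw [e4]
  simp only [Matrix.cons_val_zero]
  have hr := congrArg F.ι B.rel
  simp only [map_mul, map_add, map_ofNat, map_fA, map_fB, ← F.hy, hx1, hx2] at hr
  have n1 := F.ne (C_ne_zero.mpr B.πa0)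
  have n2 := F.ne (C_ne_zero.mpr B.πb0)
  have n3 := F.ne hQa
  have n4 := F.ne B.Qb0
  have n5 : x1 - x2 ≠ 0 := sub_ne_zero.mpr hx
  apply mul_left_cancel₀ (mul_ne_zero (mul_ne_zero (mul_ne_zero F.two_ne (mul_ne_zero n1 n2))
    (pow_ne_zero 2 (mul_ne_zero n3 n4))) (pow_ne_zero 2 n5))
  simp only [fA, fB] at hr hs
  linear_combination hr - F.ι B.Qc * F.ι (C B.πa) * F.ι (C B.πb) * (F.ι B.Qa * F.ι B.Qb) ^ 2 * hs
    + 4 * F.ι B.Qc * F.y * F.ι (Wr B.Pb B.Qb) * hy1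
    + 4 * F.ι B.Qc * F.ι (C B.πa) * y1 * F.ι B.Qa ^ 2 * hy2

end field

/-- the isogeny attached to a lattice point -/
theorem lattice_isogeny [IsDomain R] [CharZero R] {b1 b2 : R} (B : Base b1 b2)
    (hD : IsUnit (432 * b2 ^ 3 * (4 - b2))) (hb1 : b1 ≠ 0) (u v : ℤ) (n : ℕ) (e : ℤ)
    (hn : (n : ℤ) = B.da * u ^ 2 + B.db * v ^ 2 + (B.da + B.db - B.dc) * (u * v))
    (hna : n ≠ B.da) (he : e = 1 ∨ e = -1) (hτ : (u + v * B.εb : ZMod 3) = e) :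
    ∃ Φ Θ : R[X], Good Φ Θ n ∧ ODE b1 b2 Φ Θ (u * B.πa + v * B.πb) ∧ Φ.eval 0 = 0 ∧
      Θ.eval 0 ^ 3 * (4 * b2 ^ 2) = (4 * b1 ^ 2) ^ n ∧
      b1 * (Wr Φ Θ).eval 0 = e * B.sa * (u * B.πa + v * B.πb) * b2 * Θ.eval 0 ^ 2 := by
  classical
  obtain ⟨F⟩ := exists_FF b1
  have hb1' : 4 * b1 ^ 2 ≠ 0 := mul_ne_zero (by norm_num) (pow_ne_zero _ hb1)
  have zne : ∀ {τ : ZMod 3} {d : ℕ} {p q : R}, τ ≠ 0 → Zv b1 b2 τ d p q →
      p = 0 ∧ q ≠ 0 ∧ q ^ 3 * (4 * b2 ^ 2) = (4 * b1 ^ 2) ^ d := by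
    intro τ d p q hτ h
    rcases h with h | h
    · exact absurd h.1 hτ
    · refine ⟨h.2.1, ?_, h.2.2⟩
      rintro rfl
      exact pow_ne_zero d hb1' (by rw [← h.2.2]; ring)
  obtain ⟨a0, a1, a2⟩ := zne (by decide) B.za
  have hQa : B.Qa ≠ 0 := by intro h; apply a1; rw [h]; simp
  obtain ⟨P, rP, dP⟩ := exists_point F B.ga hQa B.πa0 B.oa
  obtain ⟨Q, rQ, dQ⟩ := exists_point F B.gb B.Qb0 B.πb0 B.ob
  have rc := base_rep F B hQa rP rQ dP dQ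
  have lat := gp_lattice F hD hb1' ⟨_, _, _, ⟨B.ga, rP, B.za⟩, rfl⟩ ⟨_, _, _, ⟨B.gb, rQ, B.zb⟩, rfl⟩
    ⟨_, _, _, ⟨B.gc, rc, B.zc⟩, rfl⟩
  obtain ⟨d, Φ, Θ, h, hd⟩ := lat u v
  obtain ⟨d', p, q, h', -⟩ := lat (u - 1) v
  obtain rfl : d = n := by omega
  have hτ0 : (u + v * B.εb : ZMod 3) ≠ 0 := by
    rw [hτ]; rcases he with rfl | rfl <;> decide
  obtain ⟨c0, c1, c2⟩ := zne hτ0 h.zv
  have hΘ : Θ ≠ 0 := by intro h; apply c1; rw [h]; simp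
  have dZ : Dr F.δ (u • P + v • Q) (F.ι (C (u * B.πa + v * B.πb))) := by
    have := dr_add F.hm (F.dC b2) (dr_zsmul F.hm (F.dC b2) dP u) (dr_zsmul F.hm (F.dC b2) dQ v)
    simpa using this
  refine ⟨Φ, Θ, h.good, ode_of_rep F hΘ h.rep dZ, c0, c2, ?_⟩
  have e1 : (u - 1) • P + v • Q = u • P + v • Q - P := by rw [sub_zsmul, one_zsmul]; abel
  have e2 : (((u - 1 : ℤ) : ZMod 3) + v * B.εb) = (u + v * B.εb) - 1 := by push_cast; ring
  rw [e1, e2] at h'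
  obtain ⟨d'', p', q', h'', -, hA, hB⟩ := dat_step F hD hb1' h ⟨B.ga, rP, B.za⟩ h'
  have hne : fA Φ Θ B.Pa B.Qa ≠ 0 := by
    intro h0
    apply hna
    refine h.good.unique B.ga ?_
    rw [fA] at h0
    exact sub_eq_zero.mp (pow_eq_zero_iff (by norm_num) |>.mp h0)
  have sf := sign_formula F hΘ hQa hne h.rep rP dZ dP h'.rep h''.rep hA
  have sf0 := congrArg (evalRingHom 0) sf
  have hB0 := congrArg (evalRingHom 0) hB
  simp only [map_mul, map_sub, map_add, coe_evalRingHom, eval_C, map_ofNat, gp, map_pow,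
    eval_X, c0, a0, fB, map_intCast] at sf0 hB0
  have sg := B.sg
  have hsa := B.hsa
  have hb2 : b2 ≠ 0 := by
    rintro rfl
    exact hD.ne_zero (by ring)
  apply mul_left_cancel₀ (mul_ne_zero (mul_ne_zero (mul_ne_zero (by norm_num : (4 : R) ≠ 0) B.πa0)
    hb2) (pow_ne_zero 2 a1))
  rw [hτ] at h' h''
  rcases he with rfl | rfl
  · have z1 : q.eval 0 = 0 := by
      rcases h'.zv with h3 | h3
      · exact h3.2.1
      · exact absurd (by decide) h3.1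
    rw [z1] at sf0 hB0
    push_cast
    linear_combination (-B.sa) * sf0 + B.sa * (u * B.πa + v * B.πb) * B.πa * hB0
      - 4 * B.sa * b1 * (Wr Φ Θ).eval 0 * sg
      - 4 * B.πa * b2 * (B.Qa.eval 0) ^ 2 * b1 * (Wr Φ Θ).eval 0 * hsa
  · have z1 : q'.eval 0 = 0 := by
      rcases h''.zv with h3 | h3
      · exact h3.2.1
      · exact absurd (by decide) h3.1
    rw [z1] at sf0 hB0
    push_cast
    linear_combination (-B.sa) * sf0 - B.sa * (u * B.πa + v * B.πb) * B.πa * hB0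
      - 4 * B.sa * b1 * (Wr Φ Θ).eval 0 * sg
      - 4 * B.πa * b2 * (B.Qa.eval 0) ^ 2 * b1 * (Wr Φ Θ).eval 0 * hsa

end Pool.Agent.P.MP_a378b9_nt
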