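import Mathlib
import Pool.Agent.P.MP_a378b9_nt.Lattice

/-! An isogeny of degree `p` whose differential is divisible by `p` reduces to Frobenius. -/

set_option autoImplicit false

open Polynomial

namespace Pool.Agent.P.MP_a378b9_nt

lemma map_gp {R k : Type*} [CommRing R] [CommRing k] (ρ : R →+* k) (b : R) :
    (gp b).map ρ = gp (ρ b) := by simp [gp]

lemma map_Wr {R k : Type*} [CommRing R] [CommRing k] (ρ : R →+* k) (Φ Θ : R[X]) :
    (Wr Φ Θ).map ρ = Wr (Φ.map ρ) (Θ.map ρ) := by simp [Wr]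

lemma map_gH' {R k : Type*} [CommRing R] [CommRing k] (ρ : R →+* k) (b : R) (Φ Θ : R[X]) :
    (gH (C b) Φ Θ).map ρ = gH (C (ρ b)) (Φ.map ρ) (Θ.map ρ) := by simp [gH]

lemma ODE.map {R k : Type*} [CommRing R] [CommRing k] (ρ : R →+* k) {b1 b2 π : R} {Φ Θ : R[X]}
    (h : ODE b1 b2 Φ Θ π) : ODE (ρ b1) (ρ b2) (Φ.map ρ) (Θ.map ρ) (ρ π) := by
  have := congrArg (Polynomial.map ρ) h
  simpa [ODE, map_gp, map_Wr, map_gH'] using this

lemma Good.map {R k : Type*} [CommRing R] [CommRing k] [Nontrivial k] (ρ : R →+* k)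
    {Φ Θ : R[X]} {d : ℕ} (h : Good Φ Θ d) : Good (Φ.map ρ) (Θ.map ρ) d :=
  ⟨h.monic.map ρ, by rw [h.monic.natDegree_map, h.deg], lt_of_le_of_lt degree_map_le h.lt,
    h.cop.map (mapRingHom ρ)⟩

lemma coeff_zero_of_deriv {k : Type*} [CommRing k] [IsDomain k] {p : ℕ} [CharP k p] {f : k[X]}
    (h : derivative f = 0) {j : ℕ} (h0 : 0 < j) (hj : j < p) : f.coeff j = 0 := by
  obtain ⟨i, rfl⟩ : ∃ i, j = i + 1 := ⟨j - 1, by omega⟩
  have := congrArg (fun g => coeff g i) h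
  simp only [coeff_derivative, coeff_zero] at this
  refine (mul_eq_zero.mp this).resolve_right ?_
  intro h1
  have : ((i + 1 : ℕ) : k) = 0 := by push_cast; exact h1
  rw [CharP.cast_eq_zero_iff k p] at this
  exact absurd (Nat.le_of_dvd h0 this) (by omega)

lemma insep {k : Type*} [CommRing k] [IsDomain k] {p : ℕ} [CharP k p] (hp : 0 < p) {b1 b2 : k}
    {Φ Θ : k[X]} (hg : Good Φ Θ p) (ho : ODE b1 b2 Φ Θ 0) (h0 : Φ.eval 0 = 0) :
    Φ = X ^ p ∧ Θ = C (Θ.eval 0) := by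
  have hW : Wr Φ Θ = 0 := by
    have : gp b1 * Wr Φ Θ ^ 2 = 0 := by rw [ho]; simp
    exact pow_eq_zero_iff (by norm_num) |>.mp
      ((mul_eq_zero.mp this).resolve_left (gp_monic b1).1.ne_zero)
  have h1 : Φ ∣ derivative Φ := hg.cop.dvd_of_dvd_mul_right ⟨derivative Θ, sub_eq_zero.mp hW⟩
  have h2 : derivative Φ = 0 := by
    by_contra hne
    have := natDegree_le_of_dvd h1 hne
    have := natDegree_derivative_lt (p := Φ) (by rw [hg.deg]; omega)
    omega
  have h3 : derivative Θ = 0 := by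
    rw [Wr, h2] at hW
    have : Φ * derivative Θ = 0 := by simpa using hW
    exact (mul_eq_zero.mp this).resolve_left hg.monic.ne_zero
  constructor
  · ext j
    rw [coeff_X_pow]
    split_ifs with hj
    · rw [hj, ← hg.deg]; exact hg.monic
    · rcases Nat.eq_zero_or_pos j with rfl | hj0
      · rw [coeff_zero_eq_eval_zero, h0]
      · rcases lt_or_gt_of_ne hj with h | h
        · exact coeff_zero_of_deriv h2 hj0 h
        · exact coeff_eq_zero_of_natDegree_lt (by rw [hg.deg]; exact h)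
  · ext j
    rw [coeff_C]
    split_ifs with hj
    · rw [hj, coeff_zero_eq_eval_zero]
    · rcases lt_or_ge j p with h | h
      · exact coeff_zero_of_deriv h3 (by omega) h
      · exact coeff_eq_zero_of_degree_lt (lt_of_lt_of_le hg.lt (by exact_mod_cast h))

lemma three_roots {k : Type*} [CommRing k] [IsDomain k] {a b c E0 E1 E2 : k}
    (h0 : E0 ^ 3 + a * E0 ^ 2 + b * E0 + c = 0) (h1 : E1 ^ 3 + a * E1 ^ 2 + b * E1 + c = 0)
    (h2 : E2 ^ 3 + a * E2 ^ 2 + b * E2 + c = 0) (n01 : E0 - E1 ≠ 0) (n02 : E0 - E2 ≠ 0)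
    (n12 : E1 - E2 ≠ 0) : a = -(E0 + E1 + E2) ∧ b = E0 * E1 + E0 * E2 + E1 * E2 := by
  have a1 : E0 ^ 2 + E0 * E1 + E1 ^ 2 + a * (E0 + E1) + b = 0 :=
    mul_left_cancel₀ n01 (by linear_combination h0 - h1)
  have a2 : E0 ^ 2 + E0 * E2 + E2 ^ 2 + a * (E0 + E2) + b = 0 :=
    mul_left_cancel₀ n02 (by linear_combination h0 - h2)
  have a3 : a = -(E0 + E1 + E2) := mul_left_cancel₀ n12 (by linear_combination a1 - a2)
  exact ⟨a3, by rw [a3] at a1; linear_combination a1⟩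

lemma sqrt_integral {R K : Type*} [CommRing R] [CommRing K] (ι : R →+* K) {Θ : R[X]} {ψ : K[X]}
    (h : ψ ^ 2 = Θ.map ι) {s : R} (hs : ψ.coeff 0 = ι s) (hu : IsUnit (2 * s)) :
    ∃ f : R[X], f.map ι = ψ := by
  have key : ∀ j, ψ.coeff j ∈ ι.range := by
    intro j
    induction j using Nat.strong_induction_on with
    | _ j ih =>
      rcases Nat.eq_zero_or_pos j with rfl | hj
      · exact ⟨s, hs.symm⟩
      have h1 := congrArg (fun g => coeff g j) h
      simp only [sq, coeff_mul, coeff_map] at h1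
      have m1 : (0, j) ∈ Finset.HasAntidiagonal.antidiagonal j := by simp
      have m2 : (j, 0) ∈ (Finset.HasAntidiagonal.antidiagonal j).erase (0, j) := by simp; omega
      rw [← Finset.add_sum_erase _ _ m1, ← Finset.add_sum_erase _ _ m2] at h1
      have hsum : ∑ x ∈ ((Finset.HasAntidiagonal.antidiagonal j).erase (0, j)).erase (j, 0),
          ψ.coeff x.1 * ψ.coeff x.2 ∈ ι.range := by
        refine Subring.sum_mem _ fun x hx => ?_
        simp only [Finset.mem_erase, Finset.HasAntidiagonal.mem_antidiagonal, ne_eq, Prod.ext_iff] at hx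
        exact Subring.mul_mem _ (ih _ (by omega)) (ih _ (by omega))
      obtain ⟨r, hr⟩ := hsum
      obtain ⟨w, hw⟩ := hu.exists_left_inv
      refine ⟨w * (Θ.coeff j - r), ?_⟩
      have hw' := congrArg ι hw
      simp only [map_mul, map_one, map_ofNat] at hw'
      rw [map_mul, map_sub, hr, ← h1, hs]
      linear_combination ψ.coeff j * hw'
  exact (mem_lifts _).mp ((lifts_iff_coeff_lifts _).mpr key)

lemma exists_sqrt {R : Type*} [CommRing R] [IsDomain R] {b1 b2 π e0 e1 e2 s : R} {Φ Θ : R[X]}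
    (hc : IsCoprime Φ Θ) (ho : ODE b1 b2 Φ Θ π) (hπ : π ≠ 0)
    (hg : gp b1 = (X - C e0) * (X - C e1) * (X - C e2))
    (h0 : Θ.eval e0 ≠ 0) (h1 : Θ.eval e1 ≠ 0) (h2 : Θ.eval e2 ≠ 0)
    (hs : Θ.eval 0 = s ^ 2) (hu : IsUnit (2 * s)) : ∃ ψ : R[X], Θ = ψ ^ 2 := by
  let K := FractionRing R
  let ι := algebraMap R K
  have hinj : Function.Injective ι := IsFractionRing.injective R K
  have ho' := ho.map ι
  have hπ' : ι π ≠ 0 := fun h => hπ (hinj (by rw [h, map_zero]))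
  have cop : ∀ e : R, Θ.eval e ≠ 0 → IsCoprime (Θ.map ι) (X - C (ι e)) := by
    intro e he
    apply IsCoprime.symm
    rw [(irreducible_X_sub_C (ι e)).coprime_iff_not_dvd, dvd_iff_isRoot, IsRoot, eval_map,
      eval₂_hom]
    exact fun h => he (hinj (by rw [h, map_zero]))
  have c1 : IsCoprime (Θ.map ι) (gp (ι b1)) := by
    rw [← map_gp, hg]
    simp only [Polynomial.map_mul, Polynomial.map_sub, map_X, map_C]
    exact ((cop e0 h0).mul_right (cop e1 h1)).mul_right (cop e2 h2)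
  have c2 : IsCoprime (Θ.map ι) (gH (C (ι b2)) (Φ.map ι) (Θ.map ι)) := by
    rw [gH]
    exact IsCoprime.add_mul_left_right ((hc.map (mapRingHom ι)).symm.pow_right) _
  have e : Θ.map ι * (gp (ι b1) * gH (C (ι b2)) (Φ.map ι) (Θ.map ι))
      = (C (ι π)⁻¹ * gp (ι b1) * Wr (Φ.map ι) (Θ.map ι)) ^ 2 := by
    have hi : C (ι π)⁻¹ * C (ι π) = (1 : K[X]) := by rw [← C_mul, inv_mul_cancel₀ hπ', C_1]
    rw [ODE] at ho'
    linear_combination (-(C (ι π)⁻¹) ^ 2 * gp (ι b1)) * ho' - Θ.map ι * gp (ι b1) *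
      gH (C (ι b2)) (Φ.map ι) (Θ.map ι) * (C (ι π)⁻¹ * C (ι π) + 1) * hi
  obtain ⟨d, u, hu'⟩ := exists_associated_pow_of_mul_eq_pow' (c1.mul_right c2) e
  obtain ⟨κ, -, hκ⟩ := Polynomial.isUnit_iff.mp u.isUnit
  rw [← hκ] at hu'
  have hs0 : ι s ≠ 0 := by
    intro h
    have : s = 0 := hinj (by rw [h, map_zero])
    rw [this] at hu; simp at hu
  have ev := congrArg (eval 0) hu'
  simp only [eval_mul, eval_pow, eval_C, eval_map, eval₂_at_zero, coeff_zero_eq_eval_zero, hs,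
    map_pow] at ev
  have hd0 : d.eval 0 ≠ 0 := by
    intro h; rw [h] at ev; exact pow_ne_zero 2 hs0 (by rw [← ev]; ring)
  have hψ : (C (ι s / d.eval 0) * d) ^ 2 = Θ.map ι := by
    rw [← hu', mul_pow, ← C_pow, mul_comm]
    congr 2
    rw [div_pow, div_eq_iff (pow_ne_zero 2 hd0)]
    linear_combination -ev
  obtain ⟨f, hf⟩ := sqrt_integral ι hψ (s := s) (by
    rw [coeff_C_mul, coeff_zero_eq_eval_zero, div_mul_cancel₀ _ hd0]) hu
  refine ⟨f, Polynomial.map_injective ι hinj ?_⟩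
  rw [Polynomial.map_pow, hf, hψ]

/-- the reduced form of the differential equation -/
noncomputable def Nr {R : Type*} [CommRing R] (Φ ψ : R[X]) : R[X] :=
  derivative Φ * ψ - 2 * (Φ * derivative ψ)

lemma Nr_facts {R : Type*} [CommRing R] {Φ ψ : R[X]} {m : ℕ} (hm : 0 < m) (hΦ : Φ.Monic)
    (hd : Φ.natDegree = 2 * m + 1) (hψ : ψ.natDegree ≤ m) :
    (Nr Φ ψ).natDegree ≤ 3 * m ∧ (Nr Φ ψ).coeff (3 * m) = ψ.coeff m := by
  have a1 : (derivative Φ).natDegree ≤ 2 * m := by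
    have := natDegree_derivative_le Φ; omega
  have a2 : (derivative ψ).natDegree ≤ m - 1 := by
    have := natDegree_derivative_le ψ; omega
  constructor
  · refine (natDegree_sub_le _ _).trans (max_le ?_ ?_)
    · exact natDegree_mul_le.trans (by omega)
    · refine natDegree_mul_le.trans ?_
      have : (2 : R[X]).natDegree = 0 := natDegree_ofNat 2
      have := natDegree_mul_le (p := Φ) (q := derivative ψ)
      omega
  · have e1 : (derivative Φ * ψ).coeff (2 * m + m) = _ := coeff_mul_add_eq_of_natDegree_le a1 hψ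
    have e2 : (Φ * derivative ψ).coeff (2 * m + 1 + (m - 1)) = _ :=
      coeff_mul_add_eq_of_natDegree_le hd.le a2
    have l : Φ.coeff (2 * m + 1) = 1 := by rw [← hd]; exact hΦ
    rw [show 2 * m + m = 3 * m by ring, coeff_derivative, l] at e1
    rw [show 2 * m + 1 + (m - 1) = 3 * m by omega, coeff_derivative, l,
      show m - 1 + 1 = m by omega] at e2
    have : (2 : R[X]) = C 2 := rfl
    rw [Nr, coeff_sub, this, coeff_C_mul, e1, e2]
    have : ((m - 1 : ℕ) : R) + 1 = m := by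
      rw [← Nat.cast_succ]; congr 1; omega
    rw [this]; push_cast; ring

/-- the output of the reduction step -/
theorem frob_data {R k : Type*} [CommRing R] [IsDomain R] [CharZero R] [CommRing k] [IsDomain k]
    {p m : ℕ} [Fact p.Prime] [CharP k p] (hm : p = 2 * m + 1) (hm2 : 2 ≤ m) (ρ : R →+* k)
    (hρ : ∀ r, ρ r = 0 → (p : R) ∣ r) {b1 b2 π π' e e0 e1 e2 : R} {Φ Θ : R[X]}
    (h2 : IsUnit (2 : R)) (hb1 : IsUnit b1) (hb2 : IsUnit b2)
    (hππ : π * π' = p) (hπ : ρ π = 0) (he : e ^ 2 = 1)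
    (hg : gp b1 = (X - C e0) * (X - C e1) * (X - C e2))
    (n01 : ρ (e0 - e1) ≠ 0) (n02 : ρ (e0 - e2) ≠ 0) (n12 : ρ (e1 - e2) ≠ 0)
    (good : Good Φ Θ p) (ho : ODE b1 b2 Φ Θ π) (h0 : Φ.eval 0 = 0)
    (hz : Θ.eval 0 ^ 3 * (4 * b2 ^ 2) = (4 * b1 ^ 2) ^ p)
    (hs : b1 * (Wr Φ Θ).eval 0 = e * π * b2 * Θ.eval 0 ^ 2) :
    ∃ ψ : R[X], Θ = ψ ^ 2 ∧ ψ.natDegree ≤ m ∧ ψ.coeff m = π ∧
      gp b1 * Nr Φ ψ ^ 2 = C π ^ 2 * gH (C b2) Φ (ψ ^ 2) ∧
      Φ.map ρ = X ^ p ∧ ψ.map ρ = C (ρ e) ∧ ρ b2 = ρ b1 ^ p := by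
  have hp : p.Prime := Fact.out
  have hπ0 : π ≠ 0 := by
    rintro rfl
    exact hp.ne_zero (by exact_mod_cast (by simpa using hππ.symm : (p : R) = 0))
  have small : ∀ n : ℕ, 0 < n → n < p → (n : k) ≠ 0 := by
    intro n h1 h2 h3
    rw [CharP.cast_eq_zero_iff k p] at h3
    exact absurd (Nat.le_of_dvd h1 h3) (by omega)
  have k2 : (2 : k) ≠ 0 := by exact_mod_cast small 2 (by norm_num) (by omega)
  have k3 : (3 : k) ≠ 0 := by exact_mod_cast small 3 (by norm_num) (by omega)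
  have kb1 : ρ b1 ≠ 0 := (hb1.map ρ).ne_zero
  have kb2 : ρ b2 ≠ 0 := (hb2.map ρ).ne_zero
  obtain ⟨hΦ, hΘ⟩ := insep hp.pos (good.map ρ) (by simpa [hπ] using ho.map ρ)
    (by rw [eval_map, eval₂_at_zero, coeff_zero_eq_eval_zero, h0, map_zero])
  set c := (Θ.map ρ).eval 0 with hc
  have hΘ0 : IsUnit (Θ.eval 0) := by
    have : IsUnit ((4 * b1 ^ 2) ^ p) := by
      refine IsUnit.pow _ (IsUnit.mul ?_ (hb1.pow 2))
      have := h2.mul h2; norm_num at this; exact this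
    rw [← hz] at this
    exact (isUnit_pow_iff (by norm_num)).mp (isUnit_of_mul_isUnit_left this)
  have evΘ : ∀ x : R, ρ (Θ.eval x) = c := by
    intro x; rw [← eval₂_hom, ← eval_map, hΘ, eval_C]
  have evΦ : ∀ x : R, ρ (Φ.eval x) = ρ x ^ p := by
    intro x; rw [← eval₂_hom, ← eval_map, hΦ]; simp
  have hc0 : c ≠ 0 := by rw [← evΘ 0]; exact (hΘ0.map ρ).ne_zero
  have nz : ∀ x : R, Θ.eval x ≠ 0 := by
    intro x h; apply hc0; rw [← evΘ x, h, map_zero]
  have root : ∀ x : R, (gp b1).eval x = 0 →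
      (ρ x ^ p) ^ 3 + 9 * c * (ρ x ^ p) ^ 2 + 6 * c ^ 2 * ρ b2 * (ρ x ^ p) + c ^ 3 * ρ b2 ^ 2
        = 0 := by
    intro x hx
    have h1 := congrArg (evalRingHom x) ho
    simp only [map_mul, map_pow, map_gH, coe_evalRingHom, hx, zero_mul, eval_C] at h1
    have h3 : gH b2 (Φ.eval x) (Θ.eval x) = 0 :=
      (mul_eq_zero.mp h1.symm).resolve_left (mul_ne_zero (pow_ne_zero _ hπ0) (nz x))
    have h4 := congrArg ρ h3
    rw [map_gH, evΘ, evΦ, map_zero, gH] at h4
    linear_combination h4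
  have fr : ∀ x : k, x ^ p = frobenius k p x := fun x => rfl
  have dist : ∀ x y : R, ρ (x - y) ≠ 0 → ρ x ^ p - ρ y ^ p ≠ 0 := by
    intro x y h
    rw [fr, fr, ← map_sub, ← map_sub, ← fr]
    exact pow_ne_zero _ h
  obtain ⟨t1, t2⟩ := three_roots (root e0 (by rw [hg]; simp)) (root e1 (by rw [hg]; simp))
    (root e2 (by rw [hg]; simp)) (dist _ _ n01) (dist _ _ n02) (dist _ _ n12)
  obtain ⟨s1, s2⟩ : (9 : R) = -(e0 + e1 + e2) ∧ 6 * b1 = e0 * e1 + e0 * e2 + e1 * e2 := by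
    have a := congrArg (eval 0) hg
    have b := congrArg (eval 1) hg
    have c := congrArg (eval (-1)) hg
    simp only [gp, eval_add, eval_mul, eval_pow, eval_sub, eval_X, eval_C, eval_ofNat] at a b c
    constructor
    · apply mul_left_cancel₀ (two_ne_zero (α := R)); linear_combination b + c - 2 * a
    · apply mul_left_cancel₀ (two_ne_zero (α := R)); linear_combination b - c
  have c1 : c = 1 := by
    have := congrArg (fun x => frobenius k p (ρ x)) s1
    simp only [map_neg, map_add, map_ofNat] at this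
    simp only [← fr] at this
    apply mul_left_cancel₀ (mul_ne_zero k3 k3)
    linear_combination t1 - this
  have hb : ρ b2 = ρ b1 ^ p := by
    have := congrArg (fun x => frobenius k p (ρ x)) s2
    simp only [map_mul, map_add, map_ofNat] at this
    simp only [← fr] at this
    rw [c1] at t2
    apply mul_left_cancel₀ (mul_ne_zero k2 k3)
    linear_combination t2 - this
  -- the square root
  obtain ⟨w, hw⟩ := ((h2.mul hb2).mul hΘ0).exists_left_inv
  have hs2 : Θ.eval 0 = (w * (2 * b1) ^ p) ^ 2 := by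
    have : ((2 * b1) ^ p) ^ 2 = (4 * b1 ^ 2) ^ p := by
      rw [← pow_mul, mul_comm p 2, pow_mul]; congr 1; ring
    rw [mul_pow, this, ← hz]
    linear_combination (-(Θ.eval 0) * (w * (2 * b2 * Θ.eval 0) + 1)) * hw
  obtain ⟨ψ0, hψ0⟩ := exists_sqrt good.cop ho hπ0 hg (nz _) (nz _) (nz _) hs2
    (h2.mul ((IsUnit.of_mul_eq_one _ hw).mul ((h2.mul hb1).pow p)))
  have hΘne : Θ ≠ 0 := by intro h; apply nz 0; rw [h]; simp
  have gen : ∀ ψ : R[X], Θ = ψ ^ 2 → ψ.natDegree ≤ m ∧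
      gp b1 * Nr Φ ψ ^ 2 = C π ^ 2 * gH (C b2) Φ (ψ ^ 2) ∧ Wr Φ Θ = ψ * Nr Φ ψ := by
    intro ψ hψ
    have hψne : ψ ≠ 0 := by rintro rfl; apply hΘne; rw [hψ]; simp
    have hW : Wr Φ Θ = ψ * Nr Φ ψ := by
      rw [hψ, Wr, Nr, derivative_sq]; simp only [map_ofNat]; ring
    refine ⟨?_, ?_, hW⟩
    · have := good.lt
      rw [degree_eq_natDegree hΘne, hψ, natDegree_pow] at this
      have : 2 * ψ.natDegree < p := by exact_mod_cast this
      omega
    · apply mul_left_cancel₀ (pow_ne_zero 2 hψne)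
      rw [ODE, hW] at ho
      rw [← hψ]
      linear_combination ho + (gp b1 * Nr Φ ψ ^ 2) * hψ
  have hlead : ∀ ψ : R[X], Θ = ψ ^ 2 → ψ.coeff m ^ 2 = π ^ 2 := by
    intro ψ hψ
    obtain ⟨g1, g2, -⟩ := gen ψ hψ
    obtain ⟨f1, f2⟩ := Nr_facts (by omega) good.monic (by rw [good.deg, hm]) g1
    have e1 : (Nr Φ ψ * Nr Φ ψ).coeff (3 * m + 3 * m) = _ := coeff_mul_add_eq_of_natDegree_le f1 f1
    have e2 : (gp b1 * (Nr Φ ψ * Nr Φ ψ)).coeff (3 + (3 * m + 3 * m)) = _ :=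
      coeff_mul_add_eq_of_natDegree_le (gp_monic b1).2.le (natDegree_mul_le.trans (by omega))
    have l : (gp b1).coeff 3 = 1 := by rw [← (gp_monic b1).2]; exact (gp_monic b1).1
    rw [l, e1, f2, ← sq (Nr Φ ψ), g2, ← C_pow, coeff_C_mul, ← hψ, gH, coeff_add] at e2
    have l2 : (Φ ^ 3).coeff (3 + (3 * m + 3 * m)) = 1 := by
      have : (Φ ^ 3).natDegree = 3 + (3 * m + 3 * m) := by
        rw [good.monic.natDegree_pow, good.deg]; omega
      rw [← this]; exact good.monic.pow 3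
    have l3 : (Θ * (3 * Φ + C b2 * Θ) ^ 2).coeff (3 + (3 * m + 3 * m)) = 0 := by
      apply coeff_eq_zero_of_degree_lt
      have d1 : (3 * Φ + C b2 * Θ).degree ≤ p := by
        refine (degree_add_le _ _).trans (max_le ?_ (deg_C_mul_lt _ good.lt).le)
        have : (3 : R[X]) = C 3 := rfl
        rw [this, C_mul']; exact (degree_smul_le _ _).trans good.deg_le
      have d2 := deg_mul_lt_le (deg_mul_lt_le good.lt d1) d1
      rw [sq, ← mul_assoc]
      convert d2 using 2; omega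
    rw [l2, l3] at e2
    linear_combination -e2
  obtain ⟨ψ, hψ, hl⟩ : ∃ ψ : R[X], Θ = ψ ^ 2 ∧ ψ.coeff m = π := by
    rcases sq_eq_sq_iff_eq_or_eq_neg.mp (hlead ψ0 hψ0) with h | h
    · exact ⟨ψ0, hψ0, h⟩
    · exact ⟨-ψ0, by rw [hψ0]; ring, by simp [h]⟩
  obtain ⟨g1, g2, g3⟩ := gen ψ hψ
  obtain ⟨f1, f2⟩ := Nr_facts (by omega) good.monic (by rw [good.deg, hm]) g1
  refine ⟨ψ, hψ, g1, hl, g2, hΦ, ?_, hb⟩
  -- the sign
  have hN : (Nr Φ ψ).map ρ = 0 := by
    have := congrArg (Polynomial.map ρ) g2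
    simp only [Polynomial.map_mul, Polynomial.map_pow, map_C, hπ, map_zero, map_gp] at this
    have h3 : gp (ρ b1) * (Nr Φ ψ).map ρ ^ 2 = 0 := by rw [this]; ring
    exact pow_eq_zero_iff (by norm_num) |>.mp
      ((mul_eq_zero.mp h3).resolve_left (gp_monic _).1.ne_zero)
  obtain ⟨Ω, hΩ⟩ : C π ∣ Nr Φ ψ := by
    rw [C_dvd_iff_dvd_coeff]
    intro i
    refine Dvd.dvd.trans ⟨π', hππ.symm⟩ (hρ _ ?_)
    rw [← coeff_map, hN, coeff_zero]
  have hΩl : Ω.coeff (3 * m) = 1 := by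
    rw [hΩ, coeff_C_mul, hl] at f2
    exact mul_left_cancel₀ hπ0 (by rw [f2, mul_one])
  have g4 : gp b1 * Ω ^ 2 = gH (C b2) Φ Θ := by
    apply mul_left_cancel₀ (pow_ne_zero 2 (C_ne_zero.mpr hπ0))
    rw [hψ, ← g2, hΩ]; ring
  have g5 : gp (ρ b1) * (Ω.map ρ) ^ 2 = gp (ρ b1) ^ p := by
    have := congrArg (Polynomial.map ρ) g4
    rw [Polynomial.map_mul, Polynomial.map_pow, map_gp, map_gH', hΦ, hΘ, c1, hb] at this
    rw [this]
    have fr' : ∀ x : k[X], x ^ p = frobenius k[X] p x := fun x => rfl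
    rw [fr' (gp _), gp, gH]
    simp only [map_add, map_pow, map_mul, map_ofNat, map_one, mul_one, one_mul]
    simp only [← fr']
  have g6 : Ω.map ρ = gp (ρ b1) ^ m := by
    have : (Ω.map ρ) ^ 2 = (gp (ρ b1) ^ m) ^ 2 := by
      apply mul_left_cancel₀ (gp_monic (ρ b1)).1.ne_zero
      rw [g5, hm]; ring
    rcases sq_eq_sq_iff_eq_or_eq_neg.mp this with h | h
    · exact h
    · exfalso
      have h1 := congrArg (fun f => coeff f (3 * m)) h
      have l : (gp (ρ b1) ^ m).coeff (3 * m) = 1 := by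
        have : (gp (ρ b1) ^ m).natDegree = 3 * m := by
          rw [(gp_monic _).1.natDegree_pow, (gp_monic _).2]; ring
        rw [← this]; exact (gp_monic _).1.pow m
      simp only [coeff_map, hΩl, map_one, coeff_neg, l] at h1
      exact k2 (by linear_combination h1)
  have g7 : ρ (Ω.eval 0) = ρ b1 ^ (2 * m) := by
    rw [← eval₂_hom, ← eval_map, g6]
    simp [gp, pow_mul]
  have g8 : (ψ.map ρ) ^ 2 = 1 := by rw [← Polynomial.map_pow, ← hψ, hΘ, c1, C_1]
  have hψ0' : ψ.eval 0 ≠ 0 := by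
    intro h; apply nz 0; rw [hψ, eval_pow, h]; ring
  have g9 : b1 * Ω.eval 0 = e * b2 * ψ.eval 0 ^ 3 := by
    rw [g3, hΩ, hψ] at hs
    simp only [eval_mul, eval_C, eval_pow] at hs
    apply mul_left_cancel₀ (mul_ne_zero hπ0 hψ0')
    linear_combination hs
  have g10 := congrArg ρ g9
  simp only [map_mul, map_pow, g7, hb] at g10
  have he' : ρ e ^ 2 = 1 := by rw [← map_pow, he, map_one]
  have ev : ρ (ψ.eval 0) = (ψ.map ρ).eval 0 := by rw [eval_map, eval₂_at_zero, coeff_zero_eq_eval_zero]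
  have hpow : ρ b1 ^ p = ρ b1 * ρ b1 ^ (2 * m) := by rw [hm]; ring
  have hne : ρ b1 ^ p ≠ 0 := pow_ne_zero _ kb1
  rcases sq_eq_sq_iff_eq_or_eq_neg.mp (g8.trans (one_pow 2).symm) with h | h
  · rw [h, eval_one] at ev
    rw [ev, ← hpow] at g10
    have : ρ e = 1 := mul_right_cancel₀ hne (by linear_combination -g10)
    rw [h, this, C_1]
  · rw [h, eval_neg, eval_one] at ev
    rw [ev, ← hpow] at g10
    have : ρ e = -1 := mul_right_cancel₀ hne (by linear_combination g10)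
    rw [h, this, C_neg, C_1]

end Pool.Agent.P.MP_a378b9_nt
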