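import Mathlib
import Pool.Agent.P.MP_a378b9_nt.Frob

/-! The coefficient of the invariant differential modulo `p^2`. -/

set_option autoImplicit false

open Polynomial Finset

namespace Pool.Agent.P.MP_a378b9_nt

variable {R : Type*} [CommRing R]

/-- `binom(-1/2, j)` where `i4` is an inverse of four -/
def bc (i4 : R) (j : ℕ) : R := (-1) ^ j * (Nat.centralBinom j : R) * i4 ^ j

lemma bc_succ {i4 : R} (h : 4 * i4 = 1) (j : ℕ) :
    2 * (j + 1) * bc i4 (j + 1) = -(2 * j + 1) * bc i4 j := by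
  have := congrArg (Nat.cast : ℕ → R) (Nat.succ_mul_centralBinom_succ j)
  push_cast at this
  simp only [bc, pow_succ]
  linear_combination (-2 * (-1) ^ j * i4 ^ j * i4) * this
    - (-1) ^ j * (2 * j + 1) * (Nat.centralBinom j : R) * i4 ^ j * h

/-- truncation of `(1+X)^(-1/2)` -/
noncomputable def Bp (i4 : R) (m : ℕ) : R[X] := ∑ j ∈ range (m + 1), C (bc i4 j) * X ^ j

lemma Bp_coeff (i4 : R) (m j : ℕ) : (Bp i4 m).coeff j = if j ≤ m then bc i4 j else 0 := by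
  simp only [Bp, finsetSum_coeff, coeff_C_mul, coeff_X_pow, mul_ite, mul_one, mul_zero]
  rw [sum_ite_eq]; simp

lemma Bp_eq (i4 : R) (m : ℕ) : ∃ B1, Bp i4 m = 1 + X * B1 := by
  have : X ∣ Bp i4 m - 1 := by
    rw [X_dvd_iff]; simp [Bp_coeff, bc]
  obtain ⟨B1, h⟩ := this
  exact ⟨B1, by rw [← h]; ring⟩

lemma Bp_sq [IsDomain R] [CharZero R] {i4 : R} (h : 4 * i4 = 1) (m : ℕ) :
    X ^ (m + 1) ∣ Bp i4 m ^ 2 * (1 + X) - 1 := by
  have hE : X ^ m ∣ C 2 * (derivative (Bp i4 m) + X * derivative (Bp i4 m)) + Bp i4 m := by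
    rw [X_pow_dvd_iff]
    intro j hj
    have e : (X * derivative (Bp i4 m)).coeff j = j * (Bp i4 m).coeff j := by
      rcases j with _ | j
      · simp
      · rw [coeff_X_mul, coeff_derivative]; push_cast; ring
    rw [coeff_add, coeff_C_mul, coeff_add, e, coeff_derivative, Bp_coeff, Bp_coeff,
      if_pos (by omega), if_pos (by omega)]
    linear_combination bc_succ h j
  have hd : X ^ m ∣ derivative (Bp i4 m ^ 2 * (1 + X) - 1) := by
    have : derivative (Bp i4 m ^ 2 * (1 + X) - 1) = Bp i4 m *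
        (C 2 * (derivative (Bp i4 m) + X * derivative (Bp i4 m)) + Bp i4 m) := by
      simp only [derivative_sub, derivative_mul, derivative_sq, derivative_add, derivative_one,
        derivative_X]
      ring
    rw [this]; exact Dvd.dvd.mul_left hE _
  rw [X_pow_dvd_iff] at hd ⊢
  intro j hj
  rcases j with _ | j
  · obtain ⟨B1, hB⟩ := Bp_eq i4 m
    rw [coeff_zero_eq_eval_zero, hB]; simp
  · have := hd j (by omega)
    rw [coeff_derivative] at this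
    exact (mul_eq_zero.mp this).resolve_right (Nat.cast_add_one_ne_zero j)

lemma Bp_comp_sq [IsDomain R] [CharZero R] {i4 : R} (h : 4 * i4 = 1) (m : ℕ) {z : R[X]}
    (hz : X ∣ z) : X ^ (m + 1) ∣ ((Bp i4 m).comp z) ^ 2 * (1 + z) - 1 := by
  obtain ⟨Q, hQ⟩ := Bp_sq h m
  have := congrArg (fun f => f.comp z) hQ
  simp only [sub_comp, mul_comp, pow_comp, add_comp, one_comp, X_comp] at this
  rw [this]
  exact Dvd.dvd.mul_right (pow_dvd_pow_of_dvd hz _) _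

lemma Bp_comp_eq (i4 : R) (m : ℕ) (z : R[X]) : ∃ B1, (Bp i4 m).comp z = 1 + z * B1 := by
  obtain ⟨B1, h⟩ := Bp_eq i4 m
  exact ⟨B1.comp z, by rw [h]; simp⟩

lemma reflect_shift {f : R[X]} {n : ℕ} (h : f.natDegree ≤ n) (k : ℕ) :
    reflect (k + n) f = X ^ k * reflect n f := by
  have := reflect_mul (1 : R[X]) f (F := k) (by simp) h
  rwa [one_mul, reflect_one] at this

lemma reflect_deriv {f : R[X]} {n : ℕ} (h : f.natDegree ≤ n + 1) :
    reflect n (derivative f)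
      = C ((n : R) + 1) * reflect (n + 1) f - X * derivative (reflect (n + 1) f) := by
  ext j
  have e : (X * derivative (reflect (n + 1) f)).coeff j = j * (reflect (n + 1) f).coeff j := by
    rcases j with _ | j
    · simp
    · rw [coeff_X_mul, coeff_derivative]; push_cast; ring
  rw [coeff_sub, coeff_C_mul, e, coeff_reflect, coeff_reflect, coeff_derivative]
  rcases le_or_gt j n with hj | hj
  · rw [revAt_le hj, revAt_le (by omega), show n + 1 - j = n - j + 1 by omega]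
    push_cast [Nat.cast_sub hj]; ring
  · rw [revAt_eq_self_of_lt hj, coeff_eq_zero_of_natDegree_lt (by omega)]
    rcases eq_or_lt_of_le (show n + 1 ≤ j from hj) with rfl | hj'
    · push_cast; ring
    · rw [revAt_eq_self_of_lt hj', coeff_eq_zero_of_natDegree_lt (by omega)]; ring

lemma reflect_gp (b : R) : reflect 3 (gp b) = 1 + X * (3 + C b * X) ^ 2 := by
  have e : gp b = C 1 * X ^ 3 + C 9 * X ^ 2 + C (6 * b) * X ^ 1 + C (b ^ 2) * X ^ 0 := by
    simp only [gp, map_mul, map_pow, map_ofNat, map_one]; ring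
  rw [e]
  simp only [reflect_add, reflect_C_mul_X_pow]
  rw [revAt_le (by norm_num), revAt_le (by norm_num), revAt_le (by norm_num),
    revAt_le (by norm_num)]
  simp only [map_mul, map_pow, map_ofNat, map_one]; ring

lemma reflect_ode [Nontrivial R] {b1 b2 π : R} {Φ ψ : R[X]} {m : ℕ} (hm : 0 < m) (hΦ : Φ.Monic)
    (hd : Φ.natDegree = 2 * m + 1) (hψ : ψ.natDegree ≤ m)
    (ho : gp b1 * Nr Φ ψ ^ 2 = C π ^ 2 * gH (C b2) Φ (ψ ^ 2)) :
    (1 + X * (3 + C b1 * X) ^ 2) * (reflect (2 * m + 1) Φ * reflect m ψ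
      - X * derivative (reflect (2 * m + 1) Φ) * reflect m ψ
      + 2 * X * reflect (2 * m + 1) Φ * derivative (reflect m ψ)) ^ 2
    = C π ^ 2 * (reflect (2 * m + 1) Φ ^ 3 + X * reflect m ψ ^ 2 *
      (3 * reflect (2 * m + 1) Φ + C b2 * (X * reflect m ψ ^ 2)) ^ 2) := by
  obtain ⟨n, rfl⟩ : ∃ n, m = n + 1 := ⟨m - 1, by omega⟩
  set m := n + 1 with hmn
  have a1 : (derivative Φ).natDegree ≤ 2 * m := by
    have := natDegree_derivative_le Φ; omega
  have a2 : (derivative ψ).natDegree ≤ n := by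
    have := natDegree_derivative_le ψ; omega
  have hN : reflect (3 * m) (Nr Φ ψ) = reflect (2 * m + 1) Φ * reflect m ψ
      - X * derivative (reflect (2 * m + 1) Φ) * reflect m ψ
      + 2 * X * reflect (2 * m + 1) Φ * derivative (reflect m ψ) := by
    have t : (2 : R[X]) = C 2 := rfl
    have r1 := reflect_mul _ _ a1 hψ
    have r2 := reflect_mul _ _ hd.le a2
    rw [show 2 * m + m = 3 * m by ring] at r1
    rw [show 2 * m + 1 + n = 3 * m by omega] at r2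
    rw [Nr, reflect_sub, t, reflect_C_mul, r1, r2, reflect_deriv hd.le, reflect_deriv hψ]
    simp only [map_add, map_natCast, map_one, map_ofNat, hmn]
    push_cast; ring
  have n1 := (Nr_facts hm hΦ hd hψ).1
  have l1 := reflect_mul _ _ (gp_monic b1).2.le
    ((natDegree_mul_le (p := Nr Φ ψ) (q := Nr Φ ψ)).trans (add_le_add n1 n1))
  rw [reflect_mul _ _ n1 n1, ← sq (reflect _ _), hN, reflect_gp, ← sq (Nr Φ ψ), ho] at l1
  rw [← l1, ← C_pow, reflect_C_mul, gH, reflect_add]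
  refine congrArg (fun t => C (π ^ 2) * t) (congrArg₂ (fun a b => a + b) ?_ ?_)
  · have r1 := reflect_mul _ _ hd.le hd.le
    have r2 := reflect_mul _ _ ((natDegree_mul_le (p := Φ) (q := Φ)).trans
      (add_le_add hd.le hd.le)) hd.le
    rw [r1] at r2
    rw [show 3 + (3 * m + 3 * m) = 2 * m + 1 + (2 * m + 1) + (2 * m + 1) by ring, pow_three',
      r2, pow_three']
  · have s1 : (ψ ^ 2).natDegree ≤ m + m := by rw [sq]; exact natDegree_mul_le.trans (by omega)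
    have r1 : reflect (2 * m + 1) (ψ ^ 2) = X * reflect m ψ ^ 2 := by
      rw [show 2 * m + 1 = 1 + (m + m) by ring, reflect_shift s1, sq, reflect_mul _ _ hψ hψ]; ring
    have t : (3 : R[X]) = C 3 := rfl
    have s2 : (3 * Φ + C b2 * ψ ^ 2).natDegree ≤ 2 * m + 1 := by
      refine (natDegree_add_le _ _).trans (max_le ?_ ?_)
      · rw [t]; exact (natDegree_C_mul_le _ _).trans hd.le
      · exact (natDegree_C_mul_le _ _).trans (by omega)
    have r2 : reflect (2 * m + 1) (3 * Φ + C b2 * ψ ^ 2)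
        = 3 * reflect (2 * m + 1) Φ + C b2 * (X * reflect m ψ ^ 2) := by
      rw [reflect_add, t, reflect_C_mul, reflect_C_mul, r1]
    have r3 := reflect_mul _ _ s2 s2
    have r4 := reflect_mul _ _ (s1.trans (show m + m ≤ 2 * m + 1 by omega))
      ((natDegree_mul_le (p := 3 * Φ + C b2 * ψ ^ 2) (q := 3 * Φ + C b2 * ψ ^ 2)).trans
        (add_le_add s2 s2))
    rw [r3, r2, r1] at r4
    rw [show 3 + (3 * m + 3 * m) = 2 * m + 1 + (2 * m + 1 + (2 * m + 1)) by ring,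
      sq (3 * Φ + C b2 * ψ ^ 2), r4]
    ring

/-- coefficient of the invariant differential -/
noncomputable def cp (i4 b : R) (m : ℕ) : R := ((Bp i4 m).comp (X * (3 + C b * X) ^ 2)).coeff m

lemma series_core [IsDomain R] [CharZero R] {i4 b1 b2 π : R} (h4 : 4 * i4 = 1) {m : ℕ}
    (hm : 0 < m) {P s : R} {Φ ψ Φ1 ψ1 : R[X]} (hP : P = 2 * m + 1) (hπ : π ≠ 0)
    (hΦ : Φ = 1 + C P * X * Φ1) (hψ : ψ = C P * ψ1 + C s * X ^ m) (h0 : ψ.coeff 0 = π)
    (hs : ψ.coeff m = s)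
    (ho : (1 + X * (3 + C b1 * X) ^ 2) * (Φ * ψ - X * derivative Φ * ψ
      + 2 * X * Φ * derivative ψ) ^ 2
      = C π ^ 2 * (Φ ^ 3 + X * ψ ^ 2 * (3 * Φ + C b2 * (X * ψ ^ 2)) ^ 2)) :
    ∃ r, π * cp i4 b1 m = P * s + P ^ 3 * r := by
  obtain ⟨n, rfl⟩ : ∃ n, m = n + 1 := ⟨m - 1, by omega⟩
  set m := n + 1 with hmn
  obtain ⟨V, hV⟩ : ∃ V, V = (Bp i4 m).comp (C P * X * Φ1) := ⟨_, rfl⟩
  obtain ⟨V1, hV1⟩ := Bp_comp_eq i4 m (C P * X * Φ1)
  obtain ⟨Q, hQ⟩ := Bp_comp_sq h4 m (z := C P * X * Φ1) ⟨C P * Φ1, by ring⟩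
  rw [← hV] at hV1 hQ
  rw [← hΦ] at hQ
  obtain ⟨U, hU⟩ : ∃ U, U = ψ * V := ⟨_, rfl⟩
  obtain ⟨D, hD⟩ : ∃ D, D = U + 2 * (X * derivative U) := ⟨_, rfl⟩
  obtain ⟨H1, hH1⟩ : ∃ H, H = (Bp i4 m).comp (X * (3 + C b1 * X) ^ 2) := ⟨_, rfl⟩
  obtain ⟨Q1, hQ1⟩ := Bp_comp_sq h4 m (z := X * (3 + C b1 * X) ^ 2) ⟨_, rfl⟩
  obtain ⟨G1, hG1⟩ := Bp_comp_eq i4 m (X * (3 + C b1 * X) ^ 2)
  rw [← hH1] at hQ1 hG1
  obtain ⟨H2, hH2⟩ : ∃ H, H = (Bp i4 m).comp (X * U ^ 2 * (3 + C b2 * (X * U ^ 2)) ^ 2) := ⟨_, rfl⟩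
  obtain ⟨Q2, hQ2⟩ := Bp_comp_sq h4 m (z := X * U ^ 2 * (3 + C b2 * (X * U ^ 2)) ^ 2)
    ⟨U ^ 2 * (3 + C b2 * (X * U ^ 2)) ^ 2, by ring⟩
  obtain ⟨G2, hG2⟩ := Bp_comp_eq i4 m (X * U ^ 2 * (3 + C b2 * (X * U ^ 2)) ^ 2)
  rw [← hH2] at hQ2 hG2
  let q := Ideal.Quotient.mk (Ideal.span {(X : R[X]) ^ (m + 1)})
  have qX : q X ^ (m + 1) = 0 := by
    rw [← map_pow]; exact Ideal.Quotient.eq_zero_iff_mem.mpr (Ideal.subset_span rfl)
  have dQ := congrArg derivative hQ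
  simp only [derivative_sub, derivative_mul, derivative_sq, derivative_one, derivative_X_pow,
    sub_zero, Nat.add_sub_cancel] at dQ
  have e1 := congrArg q hQ
  have e2 := congrArg (fun f => q (X * f)) dQ
  have e3 := congrArg q hQ1
  have e4 := congrArg q hQ2
  have e5 := congrArg q ho
  have e6 : q D = q V ^ 3 * q (Φ * ψ - X * derivative Φ * ψ + 2 * X * Φ * derivative ψ) := by
    rw [hD, hU, derivative_mul]
    simp only [map_add, map_sub, map_mul, map_pow, map_ofNat, map_one, qX, zero_mul] at e1 e2 ⊢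
    linear_combination (-(q ψ * q V) - 2 * q X * q (derivative ψ) * q V
      - 2 * q X * q ψ * q (derivative V)) * e1 + q ψ * q V * e2
      + q ψ * q V * q (C ((m + 1 : ℕ) : R)) * q Q * qX
  have e7 : q ((D * H2 - C π * H1) * (D * H2 + C π * H1)) = 0 := by
    have eU : q U = q ψ * q V := by rw [hU, map_mul]
    generalize Φ * ψ - X * derivative Φ * ψ + 2 * X * Φ * derivative ψ = N at e5 e6
    simp only [map_add, map_sub, map_mul, map_pow, map_ofNat, map_one, qX, zero_mul, eU, e6]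
      at e1 e3 e4 e5 ⊢
    have f1 : q V ^ 2 * q Φ = 1 := by linear_combination e1
    have f2 : q V ^ 6 * (q Φ ^ 3 + q X * q ψ ^ 2 * (3 * q Φ + q (C b2) * (q X * q ψ ^ 2)) ^ 2)
        = 1 + q X * (q ψ * q V) ^ 2 * (3 + q (C b2) * (q X * (q ψ * q V) ^ 2)) ^ 2 := by
      calc _ = (q V ^ 2 * q Φ) ^ 3 + q X * (q ψ * q V) ^ 2 *
          (3 * (q V ^ 2 * q Φ) + q (C b2) * (q X * (q ψ * q V) ^ 2)) ^ 2 := by ring
        _ = _ := by rw [f1]; ring
    linear_combination (-(q V ^ 3 * q N * q H2) ^ 2) * e3 + q V ^ 6 * q H2 ^ 2 * q H1 ^ 2 * e5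
      + q (C π) ^ 2 * q H2 ^ 2 * q H1 ^ 2 * f2 + q (C π) ^ 2 * q H1 ^ 2 * e4
  have e8 : X ^ (m + 1) ∣ (D * H2 - C π * H1) * (D * H2 + C π * H1) :=
    Ideal.mem_span_singleton.mp (Ideal.Quotient.eq_zero_iff_mem.mp e7)
  have e9 : ¬ X ∣ D * H2 + C π * H1 := by
    rw [X_dvd_iff, coeff_zero_eq_eval_zero, hD, hU, hG2, hG1, hV1]
    rw [coeff_zero_eq_eval_zero] at h0
    simp only [eval_add, eval_mul, eval_X, eval_one, eval_C, zero_mul, mul_zero, add_zero, mul_one,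
      h0]
    intro h
    exact mul_ne_zero two_ne_zero hπ (by linear_combination h)
  have e10 := (X_pow_dvd_iff.mp (prime_X.pow_dvd_of_dvd_mul_right _ e9 e8)) m (by omega)
  rw [coeff_sub, coeff_C_mul] at e10
  have cU : U.coeff m = s + P ^ 2 * (X * Φ1 * V1 * ψ1).coeff m := by
    have : U = ψ + C (P ^ 2) * (X * Φ1 * V1 * ψ1) + X ^ (m + 1) * (C P * C s * Φ1 * V1) := by
      rw [hU, hV1]
      linear_combination (C P * X * Φ1 * V1) * hψ + (-(X * Φ1 * V1 * ψ1)) * (C_pow (a := P) (n := 2))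
    rw [this, coeff_add, coeff_add, hs, coeff_C_mul, coeff_X_pow_mul', if_neg (by omega), add_zero]
  have cD : D.coeff m = P * U.coeff m := by
    have t : (2 : R[X]) = C 2 := rfl
    rw [hD, coeff_add, t, coeff_C_mul, hmn, coeff_X_mul, coeff_derivative, hP, hmn]
    push_cast; ring
  obtain ⟨U1, U2, hU'⟩ : ∃ U1 U2, U = C P * U1 + X ^ m * U2 :=
    ⟨ψ1 * V, C s * V, by rw [hU, hψ]; ring⟩
  obtain ⟨D1, D2, hD'⟩ : ∃ D1 D2, D = C P * D1 + X ^ m * D2 := by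
    refine ⟨U1 + 2 * X * derivative U1, U2 + 2 * (C (m : R) * U2 + X * derivative U2), ?_⟩
    rw [hD, hU']
    simp only [derivative_add, derivative_mul, derivative_C, derivative_X_pow, hmn,
      Nat.add_sub_cancel]
    ring
  obtain ⟨W1, W2, hW⟩ : ∃ W1 W2, D * H2 = D + C (P ^ 3) * W1 + X ^ (m + 1) * W2 := by
    obtain ⟨T, hT⟩ : ∃ T, T = (3 + C b2 * (X * U ^ 2)) ^ 2 * G2 := ⟨_, rfl⟩
    have : D * H2 = D + X * (D * U ^ 2) * T := by rw [hG2, hT]; ring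
    refine ⟨X * D1 * U1 ^ 2 * T, (D2 * U ^ 2 + C P * D1 * U2 * (2 * C P * U1 + X ^ m * U2)) * T, ?_⟩
    rw [this, C_pow]
    linear_combination (X * U ^ 2 * T) * hD'
      + (X * C P * D1 * T * (U + C P * U1 + X ^ m * U2)) * hU'
  rw [hW, coeff_add, coeff_add, coeff_C_mul, coeff_X_pow_mul', if_neg (by omega), add_zero, cD,
    cU] at e10
  refine ⟨(X * Φ1 * V1 * ψ1).coeff m + W1.coeff m, ?_⟩
  rw [cp, ← hH1]
  linear_combination -e10

/-- the geometric input: the coefficient `c_p` modulo `p^2` -/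
theorem cp_cong {k : Type*} [IsDomain R] [CharZero R] [CommRing k] [IsDomain k]
    {p m : ℕ} [Fact p.Prime] [CharP k p] (hm : p = 2 * m + 1) (hm2 : 2 ≤ m) (ρ : R →+* k)
    (hρ : ∀ r, ρ r = 0 → (p : R) ∣ r) {i4 b1 b2 π π' e e0 e1 e2 : R} {Φ Θ : R[X]}
    (h4 : 4 * i4 = 1) (hb1 : IsUnit b1) (hb2 : IsUnit b2)
    (hππ : π * π' = p) (hπ : ρ π = 0) (he : e ^ 2 = 1)
    (hg : gp b1 = (X - C e0) * (X - C e1) * (X - C e2))
    (n01 : ρ (e0 - e1) ≠ 0) (n02 : ρ (e0 - e2) ≠ 0) (n12 : ρ (e1 - e2) ≠ 0)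
    (good : Good Φ Θ p) (ho : ODE b1 b2 Φ Θ π) (h0 : Φ.eval 0 = 0)
    (hz : Θ.eval 0 ^ 3 * (4 * b2 ^ 2) = (4 * b1 ^ 2) ^ p)
    (hs : b1 * (Wr Φ Θ).eval 0 = e * π * b2 * Θ.eval 0 ^ 2) :
    ∃ s : R, (p : R) ^ 2 ∣ cp i4 b1 m - π' * s ∧ (p : R) ∣ s - e ∧
      s ^ 6 * (4 * b2 ^ 2) = (4 * b1 ^ 2) ^ p ∧ (p : R) ∣ b2 - b1 ^ p := by
  have hp : p.Prime := Fact.out
  have hp0 : (p : R) ≠ 0 := by exact_mod_cast hp.ne_zero
  have hπ0 : π ≠ 0 := by rintro rfl; exact hp0 (by simpa using hππ.symm)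
  obtain ⟨ψ, hψ, g1, hl, g2, hΦ, hψ', hb⟩ := frob_data hm hm2 ρ hρ
    (IsUnit.of_mul_eq_one (2 * i4) (by linear_combination h4)) hb1 hb2 hππ hπ he hg n01 n02 n12
    good ho h0 hz hs
  have dv : ∀ f : R[X], f.map ρ = 0 → C (p : R) ∣ f := by
    intro f hf
    rw [C_dvd_iff_dvd_coeff]
    intro i
    exact hρ _ (by rw [← coeff_map, hf, coeff_zero])
  have hse : ρ (ψ.coeff 0) = ρ e := by rw [← coeff_map, hψ', coeff_C_zero]
  have ro := reflect_ode (by omega) good.monic (by rw [good.deg, hm]) g1 g2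
  rw [← hm] at ro
  obtain ⟨Y, hY⟩ := dv (reflect p Φ - 1) (by
    rw [Polynomial.map_sub, ← reflect_map, hΦ, Polynomial.map_one, reflect_monomial,
      revAt_le le_rfl]; simp)
  obtain ⟨Φ1, hΦ1⟩ : X ∣ Y := by
    rw [X_dvd_iff]
    have := congrArg (fun f => coeff f 0) hY
    simp only [coeff_sub, coeff_reflect, revAt_zero, coeff_one_zero, coeff_C_mul] at this
    have l : Φ.coeff p = 1 := by rw [← good.deg]; exact good.monic
    rw [l, sub_self] at this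
    exact (mul_eq_zero.mp this.symm).resolve_left hp0
  obtain ⟨ψ1, hψ1⟩ := dv (reflect m ψ - C (ψ.coeff 0) * X ^ m) (by
    rw [Polynomial.map_sub, ← reflect_map, hψ', reflect_C]; simp [hse])
  obtain ⟨r, hr⟩ := series_core (b1 := b1) (b2 := b2) h4 (m := m) (by omega) (P := (p : R))
    (s := ψ.coeff 0) (Φ := reflect p Φ) (ψ := reflect m ψ) (Φ1 := Φ1) (ψ1 := ψ1)
    (by rw [hm]; push_cast; ring) hπ0 (by rw [mul_assoc, ← hΦ1, ← hY]; ring)
    (by rw [← hψ1]; ring) (by rw [coeff_reflect, revAt_zero, hl])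
    (by rw [coeff_reflect, revAt_le le_rfl, Nat.sub_self]) ro
  refine ⟨ψ.coeff 0, ⟨π' * r, ?_⟩, hρ _ (by rw [map_sub, hse, sub_self]), ?_,
    hρ _ (by rw [map_sub, map_pow, hb, sub_self])⟩
  · apply mul_left_cancel₀ hp0
    linear_combination π' * hr - cp i4 b1 m * hππ
  · rw [← hz, hψ, eval_pow, coeff_zero_eq_eval_zero]; ring

end Pool.Agent.P.MP_a378b9_nt
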