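import Mathlib
import Pool.Agent.P.MP_a378b9_nt.Prods
import Pool.Agent.P.MP_a378b9_nt.Series

/-! Truncated hypergeometric series modulo `p^2`. -/

set_option autoImplicit false

open Finset Polynomial

namespace Pool.Agent.P.MP_a378b9_nt

section ode
variable {A : Type*} [CommRing A]

/-- the hypergeometric operator with parameters `(a, b; 1)` -/
noncomputable def LH (a b : A) (f : A[X]) : A[X] :=
  X * (1 - X) * derivative (derivative f) + (1 - C (a + b + 1) * X) * derivative f - C (a * b) * f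

lemma coeff_Xd (f : A[X]) (j : ℕ) : (X * derivative f).coeff j = j * f.coeff j := by
  rcases j with _ | j
  · simp
  · rw [coeff_X_mul, coeff_derivative]; push_cast; ring

lemma LH_coeff (a b : A) (f : A[X]) (j : ℕ) :
    (LH a b f).coeff j = (j + 1) ^ 2 * f.coeff (j + 1) - (j + a) * (j + b) * f.coeff j := by
  have : LH a b f = X * derivative (derivative f) - X * derivative (X * derivative f)
      + derivative f - C (a + b) * (X * derivative f) - C (a * b) * f := by
    simp only [LH, derivative_mul, derivative_X, map_add, map_one]; ring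
  rw [this]
  simp only [coeff_sub, coeff_add, coeff_C_mul, coeff_Xd, coeff_derivative]
  ring

/-- the hypergeometric recurrence below `p` -/
def Rec (p : ℕ) (a b c : A) (x : ℕ → A) : Prop :=
  ∀ k : ℕ, k + 1 < p → (k + 1 + c) ^ 2 * x (k + 1) = (k + a + c) * (k + b + c) * x k

lemma rec_closed {p : ℕ} {a b : A} {x : ℕ → A} (h0 : x 0 = 1) (h : Rec p a b 0 x) {k : ℕ}
    (hk : k < p) : (k.factorial : A) ^ 2 * x k = Pn a k * Pn b k := by
  induction k with
  | zero => simp [h0, Pn]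
  | succ k ih =>
    rw [Pn_succ, Pn_succ, Nat.factorial_succ]
    push_cast
    linear_combination (k.factorial : A) ^ 2 * h k hk + (k + a) * (k + b) * ih (by omega)

lemma rec_unique {p : ℕ} (hu : ∀ n : ℕ, 0 < n → n < p → IsUnit (n : A)) {a b c : A}
    (hc : c ^ 2 = 0) {x y : ℕ → A} (h0 : x 0 = y 0) (hx : Rec p a b c x) (hy : Rec p a b c y)
    {k : ℕ} (hk : k < p) : x k = y k := by
  induction k with
  | zero => exact h0
  | succ k ih =>
    have u : IsUnit ((k : A) + 1 + c) := by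
      have := unit_add_nil (hu (k + 1) (by omega) hk) hc
      simpa using this
    apply (u.pow 2).mul_left_cancel
    rw [hx k hk, hy k hk, ih (by omega)]

/-- truncated series -/
noncomputable def Up (p : ℕ) (u : ℕ → A) : A[X] := ∑ k ∈ range p, C (u k) * X ^ k

lemma Up_coeff (p : ℕ) (u : ℕ → A) (j : ℕ) : (Up p u).coeff j = if j < p then u j else 0 := by
  simp only [Up, finsetSum_coeff, coeff_C_mul, coeff_X_pow, mul_ite, mul_one, mul_zero]
  rw [sum_ite_eq]; simp

lemma Up_deg {p n : ℕ} {u : ℕ → A} (h : ∀ k, n < k → k < p → u k = 0) :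
    (Up p u).natDegree ≤ n := by
  rw [natDegree_le_iff_coeff_eq_zero]
  intro j hj
  rw [Up_coeff]
  split_ifs with h1
  · exact h j hj h1
  · rfl

lemma Up_eval (p : ℕ) (u : ℕ → A) (t : A) : (Up p u).eval t = ∑ k ∈ range p, u k * t ^ k := by
  simp [Up, eval_finsetSum]

lemma LH_Up {n : ℕ} {a b : A} {u : ℕ → A} (h : Rec (n + 1) a b 0 u) :
    LH a b (Up (n + 1) u) = -(C ((n + a) * (n + b) * u n) * X ^ n) := by
  ext j
  rw [LH_coeff, Up_coeff, Up_coeff, coeff_neg, coeff_C_mul, coeff_X_pow]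
  rcases lt_trichotomy j n with hj | rfl | hj
  · rw [if_pos (by omega), if_pos (by omega), if_neg (by omega)]
    linear_combination h j (by omega)
  · rw [if_neg (by omega), if_pos (by omega), if_pos rfl]; ring
  · rw [if_neg (by omega), if_neg (by omega), if_neg (by omega)]; ring

/-- the quadratic substitution -/
noncomputable def zq : A[X] := 4 * X * (1 - X)

lemma zq_deriv : derivative (zq : A[X]) = 4 * (1 - 2 * X) := by
  simp [zq]; ring

lemma LH_comp (a b : A) (f z : A[X]) : (LH a b f).comp z =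
    z * (1 - z) * (derivative (derivative f)).comp z
      + (1 - C (a + b + 1) * z) * (derivative f).comp z - C (a * b) * f.comp z := by
  simp only [LH, sub_comp, add_comp, mul_comp, X_comp, one_comp, C_comp]

lemma LH_even {a b a0 b0 : A} (h0 : a0 + b0 = 1) (h1 : 2 * (a + b) = 1) (h2 : 4 * (a * b) = a0 * b0)
    (f : A[X]) : LH a0 b0 (f.comp zq) = 4 * (LH a b f).comp zq := by
  have e0 := congrArg (C : A → A[X]) h0
  have e1 := congrArg (C : A → A[X]) h1
  have e2 := congrArg (C : A → A[X]) h2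
  rw [LH_comp, LH]
  simp only [derivative_comp, derivative_mul, zq_deriv, derivative_sub, derivative_one,
    derivative_X, derivative_ofNat, map_add, map_mul, map_one, map_ofNat] at e0 e1 e2 ⊢
  generalize (derivative (derivative f)).comp zq = f2
  generalize (derivative f).comp zq = f1
  generalize f.comp zq = f0
  rw [zq]
  linear_combination (-4 * X * (1 - 2 * X) * f1) * e0 + (8 * X * (1 - X) * f1) * e1 + f0 * e2

lemma LH_odd {a b a0 b0 : A} (h0 : a0 + b0 = 1) (h1 : 2 * (a + b) = 3)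
    (h2 : 4 * (a * b) = 2 + a0 * b0) (f : A[X]) :
    LH a0 b0 ((1 - 2 * X) * f.comp zq) = 4 * (1 - 2 * X) * (LH a b f).comp zq := by
  have e0 := congrArg (C : A → A[X]) h0
  have e1 := congrArg (C : A → A[X]) h1
  have e2 := congrArg (C : A → A[X]) h2
  rw [LH_comp, LH]
  simp only [derivative_comp, derivative_mul, zq_deriv, derivative_sub, derivative_one,
    derivative_zero,
    derivative_X, derivative_ofNat, map_add, map_mul, map_one, map_ofNat] at e0 e1 e2 ⊢
  generalize (derivative (derivative f)).comp zq = f2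
  generalize (derivative f).comp zq = f1
  generalize f.comp zq = f0
  rw [zq]
  linear_combination (-X * (4 * (1 - 2 * X) ^ 2 * f1 - 2 * f0)) * e0
    + (8 * X * (1 - X) * (1 - 2 * X) * f1) * e1 + (1 - 2 * X) * f0 * e2

lemma zq_deg (f : A[X]) {n : ℕ} (h : f.natDegree ≤ n) : (f.comp zq).natDegree ≤ 2 * n := by
  refine natDegree_comp_le.trans ?_
  have : (zq : A[X]).natDegree ≤ 2 := by unfold zq; compute_degree
  calc _ ≤ n * 2 := Nat.mul_le_mul h this
    _ = _ := by ring

lemma zq_deg' (f : A[X]) {n : ℕ} (h : f.natDegree ≤ n) :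
    ((1 - 2 * X) * f.comp zq).natDegree ≤ 2 * n + 1 := by
  refine natDegree_mul_le.trans ?_
  have : (1 - 2 * X : A[X]).natDegree ≤ 1 := by compute_degree
  have := zq_deg f h
  omega

/-- a polynomial solution up to an error term -/
structure Sol (p : ℕ) (a0 b0 E : A) (f : A[X]) : Prop where
  c0 : f.coeff 0 = 1
  deg : f.natDegree < p + p
  ode : ∃ g : A[X], g.coeff 0 = 1 ∧ LH a0 b0 f = -(C (4 ^ p * E) * (X ^ (p - 1) * g))

lemma sol_even {n : ℕ} {a b a0 b0 : A} (h0 : a0 + b0 = 1) (h1 : 2 * (a + b) = 1)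
    (h2 : 4 * (a * b) = a0 * b0) {u : ℕ → A} (u0 : u 0 = 1) (h : Rec (n + 1) a b 0 u) :
    Sol (n + 1) a0 b0 ((n + a) * (n + b) * u n) ((Up (n + 1) u).comp zq) := by
  refine ⟨?_, ?_, (1 - X) ^ n, ?_, ?_⟩
  · rw [coeff_zero_eq_eval_zero, eval_comp, ← u0]
    simp [zq, ← coeff_zero_eq_eval_zero, Up_coeff]
  · have := zq_deg (Up (n + 1) u) (n := n) (Up_deg (by omega)); omega
  · simp [coeff_zero_eq_eval_zero]
  · rw [LH_even h0 h1 h2, LH_Up h]
    simp only [neg_comp, mul_comp, C_comp, pow_comp, X_comp, zq, mul_pow, Nat.add_sub_cancel]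
    rw [C_mul (a := 4 ^ (n + 1)), C_pow, map_ofNat]; ring

lemma sol_odd {n : ℕ} {a b a0 b0 : A} (h0 : a0 + b0 = 1) (h1 : 2 * (a + b) = 3)
    (h2 : 4 * (a * b) = 2 + a0 * b0) {u : ℕ → A} (u0 : u 0 = 1) (h : Rec (n + 1) a b 0 u) :
    Sol (n + 1) a0 b0 ((n + a) * (n + b) * u n) ((1 - 2 * X) * (Up (n + 1) u).comp zq) := by
  refine ⟨?_, ?_, (1 - 2 * X) * (1 - X) ^ n, ?_, ?_⟩
  · rw [coeff_zero_eq_eval_zero, eval_mul, eval_comp, ← u0]
    simp [zq, ← coeff_zero_eq_eval_zero, Up_coeff]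
  · have := zq_deg' (Up (n + 1) u) (n := n) (Up_deg (by omega)); omega
  · simp [coeff_zero_eq_eval_zero]
  · rw [LH_odd h0 h1 h2, LH_Up h]
    simp only [neg_comp, mul_comp, C_comp, pow_comp, X_comp, zq, mul_pow, Nat.add_sub_cancel]
    rw [C_mul (a := 4 ^ (n + 1)), C_pow, map_ofNat]; ring

lemma Sol.lower {p : ℕ} {a0 b0 E : A} {f : A[X]} (h : Sol p a0 b0 E f) : Rec p a0 b0 0 f.coeff := by
  obtain ⟨g, -, hg⟩ := h.ode
  intro k hk
  have := congrArg (fun f => coeff f k) hg
  simp only [LH_coeff, coeff_neg, coeff_C_mul, coeff_X_pow_mul', if_neg (show ¬ p - 1 ≤ k by omega)]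
    at this
  linear_combination this

lemma Sol.top {n : ℕ} {a0 b0 E : A} {f : A[X]} (h : Sol (n + 1) a0 b0 E f) :
    (n.factorial : A) ^ 2 * ((n + 1 : ℕ) : A) ^ 2 * f.coeff (n + 1)
      = Pn a0 (n + 1) * Pn b0 (n + 1) - 4 ^ (n + 1) * ((n.factorial : A) ^ 2 * E) := by
  obtain ⟨g, g0, hg⟩ := h.ode
  have := congrArg (fun f => coeff f n) hg
  simp only [LH_coeff, coeff_neg, coeff_C_mul, coeff_X_pow_mul', Nat.add_sub_cancel, le_refl,
    if_true, Nat.sub_self, g0] at this
  have c := rec_closed h.c0 h.lower (show n < n + 1 by omega)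
  rw [Pn_succ, Pn_succ]
  push_cast
  linear_combination (n.factorial : A) ^ 2 * this + (n + a0) * (n + b0) * c

lemma Sol.map {B : Type*} [CommRing B] (q : A →+* B) {p : ℕ} {a0 b0 E : A} {f : A[X]}
    (h : Sol p a0 b0 E f) : Sol p (q a0) (q b0) (q E) (f.map q) := by
  refine ⟨by simp [h.c0], natDegree_map_le.trans_lt h.deg, ?_⟩
  obtain ⟨g, g0, hg⟩ := h.ode
  refine ⟨g.map q, by simp [g0], ?_⟩
  have := congrArg (Polynomial.map q) hg
  simpa [LH, map_ofNat] using this

lemma Sol.upper {p : ℕ} {a0 b0 : A} {f : A[X]} (h : Sol p a0 b0 0 f) :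
    Rec p a0 b0 p fun k => f.coeff (p + k) := by
  obtain ⟨g, -, hg⟩ := h.ode
  intro k _
  have := congrArg (fun f => coeff f (p + k)) hg
  simp only [LH_coeff, mul_zero, map_zero, zero_mul, neg_zero, coeff_zero] at this
  push_cast at this
  simp only [← add_assoc]
  linear_combination this

lemma eval_split {p : ℕ} {f : A[X]} (h : f.natDegree < p + p) (t : A) :
    f.eval t = ∑ k ∈ range p, f.coeff k * t ^ k
      + t ^ p * ∑ k ∈ range p, f.coeff (p + k) * t ^ k := by
  rw [eval_eq_sum_range' h, sum_range_add, mul_sum]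
  congr 1
  exact sum_congr rfl fun k _ => by ring

lemma rec_lin {p : ℕ} (hu : ∀ n : ℕ, 0 < n → n < p → IsUnit (n : A)) (hε : (p : A) ^ 2 = 0)
    {a b i3 : A} (h3 : 3 * i3 = 1) {x y : ℕ → A} (h0 : x 0 = y 0) (hx : Rec p a b 0 x)
    (hy : Rec p a b (-(p * i3)) y) : Rec p a b p fun k => 4 * x k - 3 * y k := by
  have e : ∀ k, k < p → (p : A) * x k = p * y k := by
    intro k hk
    refine rec_unique hu (a := a) (b := b) (c := 0) (by simp) (x := fun k => (p : A) * x k)
      (y := fun k => (p : A) * y k) (by simp [h0]) ?_ ?_ hk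
    · intro k hk; linear_combination p * hx k hk
    · intro k hk
      linear_combination p * hy k hk + ((2 * (k + 1) * i3 - p * i3 ^ 2) * y (k + 1)
        - ((2 * k + a + b) * i3 - p * i3 ^ 2) * y k) * hε
  intro k hk
  linear_combination 4 * hx k hk - 3 * hy k hk + 8 * (k + 1) * e (k + 1) hk
    - 4 * (2 * k + a + b) * e k (by omega)
    + ((4 * x (k + 1) - 3 * y (k + 1)) - (4 * x k - 3 * y k)
      + 3 * i3 ^ 2 * y (k + 1) - 3 * i3 ^ 2 * y k) * hε
    + (-2 * (k + 1) * p * y (k + 1) + (2 * k + a + b) * p * y k) * h3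

/-- structure of a solution modulo `p^2` -/
lemma Sol.eval {p : ℕ} (hu : ∀ n : ℕ, 0 < n → n < p → IsUnit (n : A)) (hε : (p : A) ^ 2 = 0)
    {a b i3 : A} (h3 : 3 * i3 = 1) {x y : ℕ → A} (x0 : x 0 = 1) (y0 : y 0 = 1)
    (hx : Rec p a b 0 x) (hy : Rec p a b (-(p * i3)) y) {f : A[X]} (h : Sol p a b 0 f) (t : A) :
    f.eval t = ∑ k ∈ range p, x k * t ^ k + f.coeff p * t ^ p *
      (4 * ∑ k ∈ range p, x k * t ^ k - 3 * ∑ k ∈ range p, y k * t ^ k) := by
  rw [eval_split h.deg, mul_sum, mul_sum, mul_sum, ← sum_sub_distrib, mul_sum]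
  congr 1
  · refine sum_congr rfl fun k hk => ?_
    rw [rec_unique hu (by simp) (h.c0.trans x0.symm) h.lower hx (mem_range.mp hk)]
  · refine sum_congr rfl fun k hk => ?_
    have l := rec_lin hu hε h3 (x0.trans y0.symm) hx hy
    have := rec_unique hu hε (x := fun k => f.coeff (p + k))
      (y := fun k => f.coeff p * (4 * x k - 3 * y k)) (by simp only [x0, y0, add_zero]; ring)
      h.upper (fun k hk => by linear_combination f.coeff p * l k hk) (mem_range.mp hk)
    rw [this]; ring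

end ode

section cpx
variable {A : Type*} [CommRing A]

/-- the coefficients of `c_p` as a polynomial in `t` -/
def Yc (i4 i3 : A) (m k : ℕ) : A :=
  if k ≤ m then bc i4 (m - k) * 9 ^ (m - k) * ((2 * (m - k)).choose k : A) * (4 * i3) ^ k else 0

lemma cp_eq {i4 i3 : A} (h3 : 3 * i3 = 1) (t : A) (m : ℕ) :
    cp i4 (4 * t) m = ∑ k ∈ range (2 * m + 1), Yc i4 i3 m k * t ^ k := by
  have e1 : ∀ j, j ≤ m → ((X * (3 + C (4 * t) * X) ^ 2) ^ j : A[X]).coeff m
      = 9 ^ j * ((2 * j).choose (m - j) : A) * (4 * i3 * t) ^ (m - j) := by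
    intro j hj
    have : (3 + C (4 * t) * X : A[X]) = C 3 * (1 + X).comp (C (4 * i3 * t) * X) := by
      have := congrArg (C : A → A[X]) h3
      simp only [add_comp, one_comp, X_comp, map_mul, map_ofNat, map_one] at this ⊢
      linear_combination (-4 * C t * X) * this
    rw [mul_pow, ← pow_mul, this, mul_pow, ← C_pow, ← pow_comp, coeff_X_pow_mul', if_pos hj,
      coeff_C_mul, comp_C_mul_X_coeff, coeff_one_add_X_pow, pow_mul]
    norm_num; ring
  rw [cp, Bp, Polynomial.sum_comp, finsetSum_coeff]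
  rw [show 2 * m + 1 = (m + 1) + m by ring, sum_range_add _ (m + 1) m, sum_eq_zero (s := range m),
    add_zero, ← sum_range_reflect]
  · refine sum_congr rfl fun k hk => ?_
    have hk' : k ≤ m := by simpa [Nat.lt_succ_iff] using hk
    rw [mul_comp, C_comp, pow_comp, X_comp, coeff_C_mul, show m + 1 - 1 - k = m - k by omega,
      e1 _ (by omega), Yc, if_pos hk', show m - (m - k) = k by omega, mul_pow (4 * i3)]
    ring
  · intro k _
    rw [Yc, if_neg (by omega), zero_mul]

lemma choose_c1 (n k : ℕ) : (n.choose (k + 1) : A) * (k + 1) = n.choose k * (n - k) := by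
  rcases le_or_gt k n with h | h
  · have := congrArg (Nat.cast : ℕ → A) (Nat.choose_succ_right_eq n k)
    push_cast [Nat.cast_sub h] at this
    exact this
  · rw [Nat.choose_eq_zero_of_lt h, Nat.choose_eq_zero_of_lt (by omega)]; simp

lemma choose_c2 (n k : ℕ) : (n.choose k : A) * (n + 1) = (n + 1).choose k * (n + 1 - k) := by
  rcases le_or_gt k (n + 1) with h | h
  · have := congrArg (Nat.cast : ℕ → A) (Nat.choose_mul_succ_eq n k)
    push_cast [Nat.cast_sub h] at this
    exact this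
  · rw [Nat.choose_eq_zero_of_lt h, Nat.choose_eq_zero_of_lt (by omega)]; simp

lemma Yc_rec {p m : ℕ} (hm : p = 2 * m + 1) (hm2 : 2 ≤ m)
    (hu : ∀ n : ℕ, 0 < n → n < p → IsUnit (n : A))
    (hε : (p : A) ^ 2 = 0) {i4 i3 : A} (h4 : 4 * i4 = 1) (h3 : 3 * i3 = 1) :
    Rec p i3 (2 * i3) (-(p * i3)) (Yc i4 i3 m) := by
  intro k hk
  rcases lt_trichotomy k m with h | rfl | h
  · obtain ⟨i, hi⟩ : ∃ i, m - k = i + 1 := ⟨m - k - 1, by omega⟩
    rw [Yc, Yc, if_pos (by omega), if_pos (by omega), hi, show m - (k + 1) = i by omega]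
    have hp : (p : A) = 2 * i + 2 * k + 3 := by
      rw [show p = 2 * i + 2 * k + 3 by omega]; push_cast; ring
    have b := bc_succ h4 i
    have c1 := choose_c1 (A := A) (2 * i) k
    have c2 := choose_c2 (A := A) (2 * i) k
    have c3 := choose_c2 (A := A) (2 * i + 1) k
    rw [show 2 * (i + 1) = 2 * i + 1 + 1 by ring]
    push_cast at c1 c2 c3
    have u1 : IsUnit ((k : A) + 1) := by simpa using hu (k + 1) (by omega) hk
    have u2 : IsUnit (2 * (i : A) + 1) := by simpa using hu (2 * i + 1) (by omega) (by omega)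
    have u3 : IsUnit (3 : A) := IsUnit.of_mul_eq_one _ h3
    have u4 : IsUnit (4 : A) := IsUnit.of_mul_eq_one _ h4
    have u5 : IsUnit (3 * ((k : A) + 1) + -p) := unit_add_nil (u3.mul u1) (by simpa using hε)
    generalize ((2 * i).choose (k + 1) : A) = C0 at *
    generalize ((2 * i).choose k : A) = C1 at *
    generalize ((2 * i + 1).choose k : A) = C2 at *
    generalize ((2 * i + 1 + 1).choose k : A) = C3 at *
    have E2 : C0 * ((2 * i + 2) * (2 * i + 1) * (k + 1))
        = C3 * ((2 * i + 2 - k) * (2 * i + 1 - k) * (2 * i - k)) := by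
      linear_combination (2 * i + 2) * (2 * i + 1) * c1 + (2 * i + 2) * (2 * i - k) * c2
        + (2 * i + 1 - k) * (2 * i - k) * c3
    obtain ⟨Y1, hY1⟩ : ∃ Y, Y = bc i4 i * 9 ^ i * C0 * (4 * i3) ^ (k + 1) := ⟨_, rfl⟩
    obtain ⟨Y0, hY0⟩ : ∃ Y, Y = bc i4 (i + 1) * 9 ^ (i + 1) * C3 * (4 * i3) ^ k := ⟨_, rfl⟩
    have E3 : 27 * (2 * i + 1) ^ 2 * (k + 1) * Y1
        = -4 * ((2 * i + 2 - k) * (2 * i + 1 - k) * (2 * i - k)) * Y0 := by
      rw [hY1, hY0, pow_succ (9 : A), pow_succ (4 * i3)]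
      linear_combination (27 * (2 * i + 1) * (k + 1) * 9 ^ i * C0 * (4 * i3) ^ k * (4 * i3)) * b
        - (27 * bc i4 (i + 1) * 9 ^ i * (4 * i3) ^ k * (4 * i3)) * E2
        - (36 * bc i4 (i + 1) * 9 ^ i * (4 * i3) ^ k * C3
          * ((2 * i + 2 - k) * (2 * i + 1 - k) * (2 * i - k))) * h3
    rw [← hY1, ← hY0]
    have hi' : (2 * i : A) = p - 2 * k - 3 := by rw [hp]; ring
    have E4 : (3 * (k + 1) - p) ^ 2 * Y1 = (3 * k + 1 - p) * (3 * k + 2 - p) * Y0 := by
      apply (u4.mul u5).mul_left_cancel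
      rw [hi'] at E3
      linear_combination E3 + ((9 * (k + 1) - 4 * p) * Y1) * hε
    apply (u3.pow 2).mul_left_cancel
    linear_combination E4
      + ((-2 * (3 * (k + 1)) * p + p ^ 2 * (3 * i3 + 1)) * Y1
        - ((1 - p) * (3 * k + 2 - p) + (2 - p) * (3 * k + 3 * i3 * (1 - p))) * Y0) * h3
  · rw [Yc, Yc, if_neg (by omega), if_pos le_rfl, Nat.sub_self, Nat.choose_eq_zero_of_lt (by omega)]
    simp
  · rw [Yc, Yc, if_neg (by omega), if_neg (by omega)]; simp

end cpx

end Pool.Agent.P.MP_a378b9_nt
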