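import Mathlib
import Pool.Agent.P.MP_a378b9_nt.Hyp

/-! Combination of the geometric input with the hypergeometric congruences. -/

set_option autoImplicit false

open Finset Polynomial

namespace Pool.Agent.P.MP_a378b9_nt

section
variable {Q : Type*} [CommRing Q]

lemma fermat {p m : ℕ} (hp : p.Prime) (hm : p = 2 * m + 1) {n : ℕ} (h0 : 0 < n) (hn : n < p) :
    ∃ a : Q, (n : Q) ^ (2 * m) = 1 + p * a := by
  have h : (n : ℤ) ^ (p - 1) ≡ 1 [ZMOD p] := by
    apply Int.ModEq.pow_card_sub_one_eq_one hp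
    rw [Nat.isCoprime_iff_coprime]
    exact (Nat.coprime_comm.mp ((Nat.Prime.coprime_iff_not_dvd hp).mpr
      (Nat.not_dvd_of_pos_of_lt h0 hn)))
  obtain ⟨a, ha⟩ := h.symm.dvd
  refine ⟨a, ?_⟩
  have := congrArg (Int.cast : ℤ → Q) ha
  rw [show p - 1 = 2 * m by omega] at this
  push_cast at this
  linear_combination this

lemma A_formula {ε T' Tp s e π' A0 a b α β i4 M2 M3 : Q} (hε : ε ^ 2 = 0) (h4 : 4 * i4 = 1)
    (hT : IsUnit Tp) (h2 : M2 = 1 + ε * a) (h3 : M3 = 1 + ε * b)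
    (hA : M2 * M3 * A0 = π' * s) (hs : s = e + ε * α) (he : e ^ 2 = 1)
    (h6 : s ^ 6 * (4 * (4 * T') ^ 2) = 64 * M2 ^ 6 * Tp ^ 2)
    (hT' : 4 * T' = 4 * M2 ^ 2 * Tp + ε * β) :
    3 * Tp * A0 = e * π' * (4 * Tp - T' * M3 ^ 3) ∧ ∃ γ, T' = Tp + ε * γ := by
  have u4 : IsUnit (4 : Q) := IsUnit.of_mul_eq_one _ h4
  have u2 : IsUnit (2 : Q) := IsUnit.of_mul_eq_one (2 * i4) (by linear_combination h4)
  obtain ⟨γ, hγ⟩ : ∃ γ, T' = Tp + ε * γ := by
    refine ⟨2 * a * Tp + i4 * β, ?_⟩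
    apply u4.mul_left_cancel
    rw [hT', h2]
    linear_combination (4 * a ^ 2 * Tp) * hε - ε * β * h4
  refine ⟨?_, γ, hγ⟩
  have s6 : s ^ 6 = 1 + 6 * e * ε * α := by
    have s2 : s ^ 2 = 1 + 2 * e * ε * α := by rw [hs]; linear_combination he + α ^ 2 * hε
    calc s ^ 6 = (s ^ 2) ^ 3 := by ring
      _ = _ := by
        rw [s2]; linear_combination (12 * e ^ 2 * α ^ 2 + 8 * e ^ 3 * α ^ 3 * ε) * hε
  have m6 : M2 ^ 6 = 1 + 6 * ε * a := by
    have s2 : M2 ^ 2 = 1 + 2 * ε * a := by rw [h2]; linear_combination a ^ 2 * hε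
    calc M2 ^ 6 = (M2 ^ 2) ^ 3 := by ring
      _ = _ := by rw [s2]; linear_combination (12 * a ^ 2 + 8 * a ^ 3 * ε) * hε
  have k : ε * (3 * e * α * Tp + γ - 3 * a * Tp) = 0 := by
    apply (((u4.pow 3).mul u2).mul hT).mul_left_cancel
    rw [s6, m6, hγ] at h6
    linear_combination h6 - 64 * (γ ^ 2 + 6 * e * α * (2 * Tp * γ + ε * γ ^ 2)) * hε
  have hA' : A0 = π' * (e + ε * (α - e * (a + b))) := by
    have : A0 = (1 - ε * (a + b)) * (M2 * M3 * A0) := by
      rw [h2, h3]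
      linear_combination (A0 * ((a + b) ^ 2 - a * b + a * b * (a + b) * ε)) * hε
    rw [this, hA, hs]
    linear_combination (-π' * α * (a + b)) * hε
  rw [hA', hγ, h3]
  linear_combination (π' * e) * k - 3 * Tp * π' * ε * α * he
    + (e * π' * (3 * b * γ + (Tp + ε * γ) * (3 * b ^ 2 + ε * b ^ 3))) * hε

lemma final_alg {ε w K b F1 F2 A1 A2 W1 W2 T1 T2 T' γ1 γ2 l χ : Q} (hε : ε ^ 2 = 0)
    (h6 : IsUnit (6 : Q)) (hK : K = (1 + ε * b) ^ 3) (hw : w * K = -2) (hχ : χ ^ 2 = 1)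
    (hF : F2 = χ * F1) (hW : W2 = -χ * W1)
    (e1 : W1 = F1 + w * T1 * (4 * F1 - 3 * A1)) (e2 : W2 = F2 + w * T2 * (4 * F2 - 3 * A2))
    (a1 : 3 * T1 * A1 = l * (4 * T1 - T' * K)) (a2 : 3 * T2 * A2 = χ * l * (4 * T2 - (1 - T') * K))
    (g1 : T' = T1 + ε * γ1) (g2 : 1 - T' = T2 + ε * γ2) : F1 = l ∧ W1 = l * (1 - 2 * T') := by
  have hw' : w = -2 + ε * (6 * b) := by
    have : w = (1 - 3 * ε * b) * (w * K) := by
      rw [hK]; linear_combination (w * (6 * b ^ 2 + 8 * b ^ 3 * ε + 3 * b ^ 4 * ε ^ 2)) * hε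
    rw [this, hw]; ring
  have u : IsUnit (2 + 4 * w * (T1 + T2)) := by
    have : 2 + 4 * w * (T1 + T2) = -6 + ε * (24 * b * (T1 + T2) + 8 * (γ1 + γ2)) := by
      rw [hw']; linear_combination 8 * g1 + 8 * g2
    rw [this]
    exact unit_add_nil h6.neg (by rw [mul_pow, hε, zero_mul])
  have hF1 : F1 = l := by
    apply u.mul_left_cancel
    rw [hF] at e2
    linear_combination -e1 - χ * e2 + χ * hW + w * a1 + χ * w * a2 - l * hw
      - (W1 + F1 + 4 * w * T2 * F1 - w * l * (4 * T2 - (1 - T') * K)) * hχ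
  refine ⟨hF1, ?_⟩
  rw [e1, hF1]
  linear_combination -w * a1 + l * T' * hw

end

section
variable {R Q : Type*} [CommRing R] [IsDomain R] [CharZero R] [CommRing Q] (q : R →+* Q)
  {p m : ℕ} (hp : p.Prime) (hm : p = 2 * m + 1) (hm2 : 2 ≤ m) (hε : (p : Q) ^ 2 = 0)
  (hu : ∀ n : ℕ, 0 < n → n < p → IsUnit (n : Q)) {i4 i3 : R} (h4 : 4 * i4 = 1) (h3 : 3 * i3 = 1)
include hp hm hm2 hε hu h4 h3

/-- the geometric input at the parameter `t` -/
def Geo (p m : ℕ) (i4 t t' π' e : R) : Prop :=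
  ∃ s : R, (p : R) ^ 2 ∣ cp i4 (4 * t) m - π' * s ∧ (p : R) ∣ s - e ∧
    s ^ 6 * (4 * (4 * t') ^ 2) = (4 * (4 * t) ^ 2) ^ p ∧ (p : R) ∣ 4 * t' - (4 * t) ^ p

theorem hyp_final {fE fH : R[X]} {EE EH : R} (sE : Sol p i3 (2 * i3) EE fE)
    (sH : Sol p i3 (2 * i3) EH fH) (qE : q EE = 0) (qH : q EH = 0) (wE : q (fE.coeff p) = 0)
    (wH : q (fH.coeff p) * 27 ^ (2 * m) = -2) {χ t t' π' e : R} (hχ : χ ^ 2 = 1) (he : e ^ 2 = 1)
    (symE : fE.eval (1 - t) = χ * fE.eval t) (symH : fH.eval (1 - t) = -χ * fH.eval t)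
    (ut : IsUnit t) (ut' : IsUnit (1 - t))
    (g1 : Geo p m i4 t t' π' e) (g2 : Geo p m i4 (1 - t) (1 - t') π' (χ * e)) :
    q (fE.eval t) = q (e * π') ∧ q (fH.eval t) = q (e * π' * (1 - 2 * t')) := by
  have q4 : 4 * q i4 = 1 := by simpa [map_ofNat] using congrArg q h4
  have q3 : 3 * q i3 = 1 := by simpa [map_ofNat] using congrArg q h3
  obtain ⟨a, ha⟩ := fermat (Q := Q) hp hm (n := 2) (by norm_num) (by omega)
  obtain ⟨b, hb⟩ := fermat (Q := Q) hp hm (n := 3) (by norm_num) (by omega)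
  push_cast at ha hb
  have u2 : IsUnit (2 : Q) := by simpa using hu 2 (by norm_num) (by omega)
  have u3 : IsUnit (3 : Q) := by simpa using hu 3 (by norm_num) (by omega)
  obtain ⟨ι, hι⟩ := ((u2.pow (2 * m)).mul (u3.pow (2 * m))).exists_right_inv
  have sE' := sE.map q
  have sH' := sH.map q
  rw [map_mul, map_ofNat, qE] at sE'
  rw [map_mul, map_ofNat, qH] at sH'
  have hY := Yc_rec hm hm2 hu hε q4 q3
  have y0 : Yc (q i4) (q i3) m 0 * ι = 1 := by
    have mo := morley q hm hε hu (i2 := 2 * i4) (by linear_combination h4)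
    rw [← hι, Yc, if_pos (by omega), Nat.sub_zero, bc, mo, Nat.choose_zero_right, pow_zero,
      ← mul_pow, pow_mul, pow_mul]
    have : 16 * q i4 = 2 ^ 2 := by linear_combination 4 * q4
    rw [this]; norm_num
  have hy : Rec p (q i3) (2 * q i3) (-(p * q i3)) fun k => Yc (q i4) (q i3) m k * ι :=
    fun k hk => by linear_combination ι * hY k hk
  have ev : ∀ (f : R[X]) (x : R), q (f.eval x) = (f.map q).eval (q x) := by
    intro f x; rw [eval_map, eval₂_hom]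
  have eE := Sol.eval hu hε q3 sE'.c0 y0 sE'.lower hy sE'
  have eH := Sol.eval hu hε q3 sE'.c0 y0 sE'.lower hy sH'
  simp only [coeff_map q p, wE, zero_mul, add_zero] at eE eH
  have dv2 : ∀ x : R, (p : R) ^ 2 ∣ x → q x = 0 := by
    rintro x ⟨y, rfl⟩; rw [map_mul, map_pow, map_natCast, hε, zero_mul]
  have pw : ∀ j : ℕ, ((2 : Q) ^ j) ^ p = 2 ^ j * (2 ^ (2 * m)) ^ j := by
    intro j; rw [← pow_mul, ← pow_mul, ← pow_add, hm]; congr 1; ring
  have geo : ∀ {t t' e : R}, IsUnit t → e ^ 2 = 1 → Geo p m i4 t t' π' e →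
      3 * q t ^ p * (∑ k ∈ range p, Yc (q i4) (q i3) m k * ι * q t ^ k)
        = q e * q π' * (4 * q t ^ p - q t' * ((3 : Q) ^ (2 * m)) ^ 3) ∧
        ∃ γ, q t' = q t ^ p + p * γ := by
    rintro t t' e ut he ⟨s, c1, ⟨α, c2⟩, c3, ⟨β, c4⟩⟩
    refine A_formula (s := q s) (α := q α) (β := q β) hε q4 ((ut.map q).pow p) ha hb
      ?_ ?_ (by rw [← map_pow, he, map_one]) ?_ ?_
    · have := dv2 _ c1
      rw [map_sub, map_mul, cp_eq h3, ← hm, map_sum] at this
      rw [← sub_eq_zero.mp this, mul_sum]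
      refine sum_congr rfl fun k _ => ?_
      have : q (Yc i4 i3 m k) = Yc (q i4) (q i3) m k := by
        simp only [Yc, bc]; split_ifs <;> simp [map_ofNat]
      rw [map_mul, map_pow, this]
      linear_combination (Yc (q i4) (q i3) m k * q t ^ k) * hι
    · have := congrArg q c2
      simp only [map_sub, map_mul, map_natCast] at this
      linear_combination this
    · have := congrArg q c3
      simp only [map_mul, map_pow, map_ofNat] at this
      rw [this, show (4 : Q) * (4 * q t) ^ 2 = 2 ^ 6 * q t ^ 2 by ring, mul_pow, pw 6]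
      ring
    · have := congrArg q c4
      simp only [map_sub, map_mul, map_pow, map_ofNat, map_natCast] at this
      have e : (4 * q t) ^ p = 4 * ((2 : Q) ^ (2 * m)) ^ 2 * q t ^ p := by
        rw [show (4 : Q) * q t = 2 ^ 2 * q t by ring, mul_pow, pw 2]; ring
      linear_combination this + e
  obtain ⟨a1, γ1, b1⟩ := geo ut he g1
  obtain ⟨a2, γ2, b2⟩ := geo ut' (by rw [mul_pow, hχ, he, one_mul]) g2
  have sE2 := congrArg q symE
  have sH2 := congrArg q symH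
  rw [map_mul, ev, ev, eE, eE] at sE2
  rw [map_mul, ev, ev, map_neg] at sH2
  have hK : (27 : Q) ^ (2 * m) = ((3 : Q) ^ (2 * m)) ^ 3 := by
    rw [← pow_mul, mul_comm (2 * m) 3, pow_mul (3 : Q) 3]; norm_num
  rw [hK] at wH
  have := final_alg (χ := q χ) (l := q e * q π') (T' := q t') hε
    (by have := u2.mul u3; norm_num at this; exact this) (by rw [hb]) wH
    (by rw [← map_pow, hχ, map_one]) sE2 sH2 (eH _) (eH _) a1
    (by rw [a2]; simp only [map_mul, map_sub, map_one]; ring) b1 (by simpa using b2)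
  rw [ev, ev, eE, this.1, this.2]
  simp [map_ofNat]

end

end Pool.Agent.P.MP_a378b9_nt
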