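import Mathlib
import Pool.Agent.P.MP_a378b9_nt.Lattice

/-! Explicit isogenies between the two curves with complex multiplication by the maximal order of
discriminant `-15`. -/

set_option autoImplicit false
set_option linter.unusedSimpArgs false
set_option linter.unusedVariables false
set_option linter.unusedSectionVars false
set_option maxRecDepth 20000

open Polynomial

namespace Pool.Agent.P.MP_a378b9_nt

variable {R : Type*} [CommRing R]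

lemma cop_of {Φ Θ u v : R[X]} {n : R} (hn : IsUnit n) (h : u * Φ + v * Θ = C n) :
    IsCoprime Φ Θ := by
  obtain ⟨w, hw⟩ := hn.exists_left_inv
  exact ⟨C w * u, C w * v, by rw [mul_assoc, mul_assoc, ← mul_add, h, ← C_mul, hw, C_1]⟩

lemma unit23 (h2 : IsUnit (2 : R)) (h3 : IsUnit (3 : R)) (a b : ℕ) :
    IsUnit ((2 : R) ^ a * 3 ^ b) := (h2.pow a).mul (h3.pow b)

lemma ne_of_mul [CharZero R] {v w : R} {n : ℕ} (hn : n ≠ 0) (h : v * w = n) : v ≠ 0 := by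
  rintro rfl
  exact hn (by exact_mod_cast (by rw [← h, zero_mul] : (n : R) = 0))

lemma rels {t z : R} (ht : t ^ 2 - t - 1 = 0) (hz : z ^ 2 + z + 1 = 0) :
    (C t : R[X]) ^ 2 - C t - 1 = 0 ∧ (C z : R[X]) ^ 2 + C z + 1 = 0 := by
  constructor
  · simpa using congrArg (C : R → R[X]) ht
  · simpa using congrArg (C : R → R[X]) hz

lemma ode_steps {G W P Q π b W2 P2 M M2 H QH c : R} (h1 : W * W = W2) (h2 : P * P = P2)
    (h3 : 3 * P + b * Q = M) (h4 : M * M = M2) (h5 : P2 * P + Q * M2 = H) (h6 : Q * H = QH)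
    (h7 : π * π = c) (h8 : G * W2 = c * QH) : G * W ^ 2 = π ^ 2 * Q * gH b P Q := by
  subst h1 h2 h3 h4 h5 h6 h7
  rw [gH]; linear_combination h8

lemma rel_steps {G p1 q1 p2 q2 p3 q3 b π1 π2 W1 W2 N A s t u v bu B WW c E cp : R}
    (h1 : p1 * q2 - p2 * q1 = N) (h2 : N * N = A) (h3 : p1 * p2 = s) (h4 : p1 * q2 + p2 * q1 = t)
    (h5 : q1 * q2 = u) (h6 : s + 6 * b * u = v) (h7 : b * u = bu)
    (h8 : 2 * t * v + 36 * (s * u) + 4 * bu * bu = B) (h9 : W1 * W2 = WW) (h10 : π1 * π2 = c)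
    (h11 : c * B + 4 * G * WW = E) (h12 : 2 * c * p3 = cp) (h13 : cp * A = q3 * E) :
    2 * (π1 * π2) * p3 * fA p1 q1 p2 q2 = q3 * (π1 * π2 * fB b p1 q1 p2 q2 + 4 * G * (W1 * W2)) := by
  subst h1 h2 h3 h4 h5 h6 h7 h8 h9 h10 h11 h12
  rw [fA, fB]; linear_combination h13

variable [IsDomain R] [CharZero R] {t z : R} (ht : t ^ 2 - t - 1 = 0) (hz : z ^ 2 + z + 1 = 0)
  (h2 : IsUnit (2 : R)) (h3 : IsUnit (3 : R))
include ht hz h2 h3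

noncomputable def Pa (t z : R) : R[X] :=
  X ^ 2 + C (4*t*z + 4*t - 4*z) * X ^ 1

noncomputable def Qa (t z : R) : R[X] :=
  C (-2*t*z - t + z + 1) * X ^ 1 + C (-4*t*z - 4*t - 4*z - 4) * X ^ 0

lemma gooda : Good (Pa t z) (Qa t z) 2 := by
  obtain ⟨hT, hZ⟩ := rels ht hz
  refine ⟨by unfold Pa; monicity!, by unfold Pa; compute_degree!,
    by unfold Qa; compute_degree!, ?_⟩
  refine cop_of (u := -5*C t*C z - 3*C t + 9*C z + 4) (v := X*C t*C z + 3*X*C t - X*C z - 4*X - 12*C t*C z + 24*C z) (unit23 h2 h3 4 1) ?_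
  simp only [Pa, Qa, map_add, map_sub, map_mul, map_neg, map_ofNat, map_one, map_pow]
  linear_combination (-2*X^2*C z^2 - 7*X^2*C z - 3*X^2 - 36*X*C z - 24*X + 48*C z^2 + 48*C z) * hT + (X^2*C t - 3*X^2 - 4*X*C t - 8*X - 48) * hZ

omit [IsDomain R] [CharZero R] h2 h3 in
lemma Wa : Wr (Pa t z) (Qa t z) = -2*X^2*C t*C z - X^2*C t + X^2*C z + X^2 - 8*X*C t*C z - 8*X*C t - 8*X*C z - 8*X - 32*C t*C z - 16*C t - 16*C z - 16 := by
  obtain ⟨hT, hZ⟩ := rels ht hz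
  simp only [Wr, Pa, Qa, derivative_add, derivative_mul, derivative_C, derivative_X_pow,
    derivative_one, map_add, map_sub, map_mul, map_neg, map_ofNat, map_one, map_pow, Nat.cast_ofNat,
    Nat.cast_one, Nat.cast_zero, map_zero, derivative_ofNat, derivative_neg, derivative_sub]
  linear_combination (-16*C z^2 - 32*C z - 16) * hT + (-16*C t) * hZ

omit [IsDomain R] [CharZero R] h2 h3 in
lemma odea : ODE (4 * t) (4 * (1 - t)) (Pa t z) (Qa t z) (1 - t + z) := by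
  obtain ⟨hT, hZ⟩ := rels ht hz
  rw [ODE, Wa ht hz]
  simp only [gp, Pa, Qa, map_add, map_sub, map_mul, map_neg, map_ofNat, map_one, map_pow]
  generalize (C t : R[X]) = T at hT ⊢
  generalize (C z : R[X]) = Z at hZ ⊢
  generalize (X : R[X]) = x
  refine ode_steps (W2 := -2*x^4*T*Z - x^4*T + x^4*Z - 3*x^4 + 16*x^3*T*Z - 32*x^3*T - 16*x^3 + 192*x^2*T*Z - 96*x^2*T + 96*x^2*Z - 96*x^2 + 768*x*T*Z - 512*x*T + 512*x*Z - 256*x + 512*T*Z - 1280*T + 256*Z - 768)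
    (P2 := x^4 + 8*x^3*T*Z + 8*x^3*T - 8*x^3*Z + 16*x^2*T*Z + 32*x^2*T - 16*x^2)
    (M := 3*x^2 + 8*x*T*Z + 8*x*T + 8*x + 16*T*Z + 16*T)
    (M2 := 9*x^4 + 48*x^3*T*Z + 48*x^3*T + 48*x^3 + 288*x^2*T*Z + 224*x^2*T + 64*x^2*Z + 64*x^2 + 512*x*T*Z + 256*x*T + 256*x*Z + 256*T*Z + 256*Z)
    (H := x^6 - 6*x^5*T*Z + 3*x^5*T - 3*x^5*Z + 9*x^5 - 84*x^4*T*Z + 60*x^4*T - 36*x^4*Z + 12*x^4 - 576*x^3*T*Z + 224*x^3*T - 288*x^3*Z + 224*x^3 - 1536*x^2*T*Z + 1536*x^2*T - 1152*x^2*Z + 768*x^2 - 1536*x*T*Z + 3840*x*T - 768*x*Z + 2304*x + 3072*T + 2048)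
    (QH := -2*x^7*T*Z - x^7*T + x^7*Z + x^7 - 34*x^6*T*Z - 25*x^6*T - 7*x^6*Z - 7*x^6 - 264*x^5*T*Z - 288*x^5*T - 240*x^5*Z - 264*x^5 - 2064*x^4*T*Z - 2720*x^4*T - 1088*x^4*Z - 1632*x^4 - 8448*x^3*T*Z - 13056*x^3*T - 5632*x^3*Z - 7936*x^3 - 26112*x^2*T*Z - 37632*x^2*T - 16128*x^2*Z - 23808*x^2 - 47104*x*T*Z - 57344*x*T - 28672*x*Z - 34816*x - 32768*T*Z - 32768*T - 20480*Z - 20480)
    (c := -2*T*Z - T + Z + 1) ?_ ?_ ?_ ?_ ?_ ?_ ?_ ?_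
  · linear_combination (4*x^4*Z^2 + 4*x^4*Z + x^4 + 32*x^3*Z^2 + 48*x^3*Z + 16*x^3 + 192*x^2*Z^2 + 256*x^2*Z + 96*x^2 + 512*x*Z^2 + 768*x*Z + 256*x + 1024*Z^2 + 1024*Z + 256) * hT + (5*x^4 + 48*x^3*T + 16*x^3 + 320*x^2*T + 224*x^2 + 1280*x*T + 768*x + 2048*T + 1280) * hZ
  · linear_combination (16*x^2*Z^2 + 32*x^2*Z + 16*x^2) * hT + (-16*x^2*T + 32*x^2) * hZ
  · linear_combination (8*x*Z + 4*x + 16*Z + 16) * hT + (0) * hZ
  · linear_combination (64*x^2*Z^2 + 128*x^2*Z + 64*x^2 + 256*x*Z^2 + 512*x*Z + 256*x + 256*Z^2 + 512*Z + 256) * hT + (64*x^2*T + 64*x^2 + 256*x*T + 256*x + 256*T + 256) * hZ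
  · linear_combination (-64*x^4*Z^2 - 80*x^4*Z - 16*x^4 - 704*x^3*Z^2 - 928*x^3*Z - 288*x^3 - 2176*x^2*Z^2 - 3072*x^2*Z - 1152*x^2 - 2560*x*Z^2 - 3328*x*Z - 1024*x - 1024*Z^2 - 1024*Z) * hT + (-80*x^4*T - 32*x^4 - 800*x^3*T - 640*x^3 - 3584*x^2*T - 2176*x^2 - 5888*x*T - 3328*x - 3072*T - 2048) * hZ
  · linear_combination (12*x^6*Z^2 - 3*x^6 + 192*x^5*Z^2 - 24*x^5*Z - 72*x^5 + 1488*x^4*Z^2 + 224*x^4*Z - 464*x^4 + 5376*x^3*Z^2 - 128*x^3*Z - 2432*x^3 + 9216*x^2*Z^2 - 6144*x^2*Z - 9984*x^2 + 6144*x*Z^2 - 15360*x*Z - 18432*x - 12288*Z - 12288) * hT + (12*x^6*T + 9*x^6 + 216*x^5*T + 168*x^5 + 1968*x^4*T + 1344*x^4 + 9600*x^3*T + 5376*x^3 + 19968*x^2*T + 13056*x^2 + 15360*x*T + 9216*x) * hZ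
  · linear_combination (1) * hT + (1) * hZ
  · linear_combination (-4*x^7*Z^2 - 4*x^7*Z - x^7 - 68*x^6*Z^2 - 84*x^6*Z - 25*x^6 - 528*x^5*Z^2 - 888*x^5*Z - 312*x^5 - 32*x^4*T*Z - 16*x^4*T - 4128*x^4*Z^2 - 7136*x^4*Z - 3552*x^4 + 256*x^3*T*Z - 512*x^3*T - 16896*x^3*Z^2 - 29696*x^3*Z - 16128*x^3 + 3072*x^2*T*Z - 1536*x^2*T - 52224*x^2*Z^2 - 78336*x^2*Z - 52992*x^2 + 12288*x*T*Z - 8192*x*T - 94208*x*Z^2 - 129024*x*Z - 100352*x + 8192*T*Z - 20480*T - 65536*Z^2 - 86016*Z - 65536) * hT + (-5*x^7 - 48*x^6*T - 61*x^6 - 744*x^5*T - 288*x^5 - 4240*x^4*T - 3040*x^4 - 19712*x^3*T - 11264*x^3 - 58368*x^2*T - 36096*x^2 - 104448*x*T - 65536*x - 73728*T - 45056) * hZ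

noncomputable def Pb (t z : R) : R[X] :=
  X ^ 2 + C (-4*t*z + 4*z + 4) * X ^ 1

noncomputable def Qb (t z : R) : R[X] :=
  C (2*t*z + t - z) * X ^ 1 + C (4*t*z + 4*z) * X ^ 0

lemma goodb : Good (Pb t z) (Qb t z) 2 := by
  obtain ⟨hT, hZ⟩ := rels ht hz
  refine ⟨by unfold Pb; monicity!, by unfold Pb; compute_degree!,
    by unfold Qb; compute_degree!, ?_⟩
  refine cop_of (u := 5*C t*C z + 2*C t - 9*C z - 5) (v := -X*C t*C z + 2*X*C t + X*C z - 3*X + 12*C t*C z + 12*C t - 24*C z - 24) (unit23 h2 h3 4 1) ?_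
  simp only [Pb, Qb, map_add, map_sub, map_mul, map_neg, map_ofNat, map_one, map_pow]
  linear_combination (-2*X^2*C z^2 + 3*X^2*C z + 2*X^2 + 36*X*C z + 12*X + 48*C z^2 + 48*C z) * hT + (X^2*C t - 3*X^2 - 4*X*C t - 8*X - 48) * hZ

omit [IsDomain R] [CharZero R] h2 h3 in
lemma Wb : Wr (Pb t z) (Qb t z) = 2*X^2*C t*C z + X^2*C t - X^2*C z + 8*X*C t*C z + 8*X*C z + 32*C t*C z + 16*C t + 16*C z := by
  obtain ⟨hT, hZ⟩ := rels ht hz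
  simp only [Wr, Pb, Qb, derivative_add, derivative_mul, derivative_C, derivative_X_pow,
    derivative_one, map_add, map_sub, map_mul, map_neg, map_ofNat, map_one, map_pow, Nat.cast_ofNat,
    Nat.cast_one, Nat.cast_zero, map_zero, derivative_ofNat, derivative_neg, derivative_sub]
  linear_combination (-16*C z^2) * hT + (-16*C t) * hZ

omit [IsDomain R] [CharZero R] h2 h3 in
lemma odeb : ODE (4 * t) (4 * (1 - t)) (Pb t z) (Qb t z) (-t - z) := by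
  obtain ⟨hT, hZ⟩ := rels ht hz
  rw [ODE, Wb ht hz]
  simp only [gp, Pb, Qb, map_add, map_sub, map_mul, map_neg, map_ofNat, map_one, map_pow]
  generalize (C t : R[X]) = T at hT ⊢
  generalize (C z : R[X]) = Z at hZ ⊢
  generalize (X : R[X]) = x
  refine ode_steps (W2 := 2*x^4*T*Z + x^4*T - x^4*Z - 4*x^4 - 16*x^3*T*Z - 48*x^3*T - 16*x^3 - 192*x^2*T*Z - 288*x^2*T - 96*x^2*Z - 192*x^2 - 768*x*T*Z - 1280*x*T - 512*x*Z - 768*x - 512*T*Z - 1792*T - 256*Z - 1024)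
    (P2 := x^4 - 8*x^3*T*Z + 8*x^3*Z + 8*x^3 - 16*x^2*T*Z + 16*x^2*T - 16*x^2)
    (M := 3*x^2 - 8*x*T*Z + 8*x - 16*T*Z)
    (M2 := 9*x^4 - 48*x^3*T*Z + 48*x^3 - 288*x^2*T*Z - 64*x^2*T - 64*x^2*Z - 512*x*T*Z - 256*x*T - 256*x*Z - 256*x - 256*T*Z - 256*T - 256*Z - 256)
    (H := x^6 + 6*x^5*T*Z + 9*x^5*T + 3*x^5*Z + 12*x^5 + 84*x^4*T*Z + 144*x^4*T + 36*x^4*Z + 48*x^4 + 576*x^3*T*Z + 800*x^3*T + 288*x^3*Z + 512*x^3 + 1536*x^2*T*Z + 3072*x^2*T + 1152*x^2*Z + 1920*x^2 + 1536*x*T*Z + 5376*x*T + 768*x*Z + 3072*x + 3072*T + 2048)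
    (QH := 2*x^7*T*Z + x^7*T - x^7*Z + 34*x^6*T*Z + 9*x^6*T + 7*x^6*Z + 264*x^5*T*Z - 24*x^5*T + 240*x^5*Z - 24*x^5 + 2064*x^4*T*Z - 656*x^4*T + 1088*x^4*Z - 544*x^4 + 8448*x^3*T*Z - 4608*x^3*T + 5632*x^3*Z - 2304*x^3 + 26112*x^2*T*Z - 11520*x^2*T + 16128*x^2*Z - 7680*x^2 + 47104*x*T*Z - 10240*x*T + 28672*x*Z - 6144*x + 32768*T*Z + 20480*Z)
    (c := 2*T*Z + T - Z) ?_ ?_ ?_ ?_ ?_ ?_ ?_ ?_
  · linear_combination (4*x^4*Z^2 + 4*x^4*Z + x^4 + 32*x^3*Z^2 + 16*x^3*Z + 192*x^2*Z^2 + 128*x^2*Z + 32*x^2 + 512*x*Z^2 + 256*x*Z + 1024*Z^2 + 1024*Z + 256) * hT + (5*x^4 + 48*x^3*T + 16*x^3 + 320*x^2*T + 224*x^2 + 1280*x*T + 768*x + 2048*T + 1280) * hZ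
  · linear_combination (16*x^2*Z^2) * hT + (-16*x^2*T + 32*x^2) * hZ
  · linear_combination (-8*x*Z - 4*x - 16*Z) * hT + (0) * hZ
  · linear_combination (64*x^2*Z^2 + 256*x*Z^2 + 256*Z^2) * hT + (64*x^2*T + 64*x^2 + 256*x*T + 256*x + 256*T + 256) * hZ
  · linear_combination (-64*x^4*Z^2 - 48*x^4*Z - 704*x^3*Z^2 - 480*x^3*Z - 64*x^3 - 2176*x^2*Z^2 - 1280*x^2*Z - 256*x^2 - 2560*x*Z^2 - 1792*x*Z - 256*x - 1024*Z^2 - 1024*Z) * hT + (-80*x^4*T - 32*x^4 - 800*x^3*T - 640*x^3 - 3584*x^2*T - 2176*x^2 - 5888*x*T - 3328*x - 3072*T - 2048) * hZ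
  · linear_combination (12*x^6*Z^2 + 24*x^6*Z + 9*x^6 + 192*x^5*Z^2 + 408*x^5*Z + 144*x^5 + 1488*x^4*Z^2 + 2752*x^4*Z + 800*x^4 + 5376*x^3*Z^2 + 10880*x^3*Z + 3072*x^3 + 9216*x^2*Z^2 + 24576*x^2*Z + 5376*x^2 + 6144*x*Z^2 + 27648*x*Z + 3072*x + 12288*Z) * hT + (12*x^6*T + 9*x^6 + 216*x^5*T + 168*x^5 + 1968*x^4*T + 1344*x^4 + 9600*x^3*T + 5376*x^3 + 19968*x^2*T + 13056*x^2 + 15360*x*T + 9216*x) * hZ
  · linear_combination (1) * hT + (1) * hZ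
  · linear_combination (-4*x^7*Z^2 - 4*x^7*Z - x^7 - 68*x^6*Z^2 - 52*x^6*Z - 9*x^6 - 528*x^5*Z^2 - 168*x^5*Z + 48*x^5 + 32*x^4*T*Z + 16*x^4*T - 4128*x^4*Z^2 - 1120*x^4*Z - 544*x^4 - 256*x^3*T*Z - 768*x^3*T - 16896*x^3*Z^2 - 4096*x^3*Z - 3328*x^3 - 3072*x^2*T*Z - 4608*x^2*T - 52224*x^2*Z^2 - 26112*x^2*Z - 26880*x^2 - 12288*x*T*Z - 20480*x*T - 94208*x*Z^2 - 59392*x*Z - 65536*x - 8192*T*Z - 28672*T - 65536*Z^2 - 45056*Z - 45056) * hT + (-5*x^7 - 48*x^6*T - 61*x^6 - 744*x^5*T - 288*x^5 - 4240*x^4*T - 3040*x^4 - 19712*x^3*T - 11264*x^3 - 58368*x^2*T - 36096*x^2 - 104448*x*T - 65536*x - 73728*T - 45056) * hZ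

noncomputable def Pc (t z : R) : R[X] :=
  X ^ 3 + C (12) * X ^ 2 + C (48*t) * X ^ 1 + C (64*t + 64) * X ^ 0

noncomputable def Qc (t z : R) : R[X] :=
  C (-3) * X ^ 2

lemma goodc : Good (Pc t z) (Qc t z) 3 := by
  obtain ⟨hT, hZ⟩ := rels ht hz
  refine ⟨by unfold Pc; monicity!, by unfold Pc; compute_degree!,
    by unfold Qc; compute_degree!, ?_⟩
  refine cop_of (u := -18*X*C t + 27*X - 12*C t + 24) (v := -6*X^2*C t + 9*X^2 - 76*X*C t + 116*X + 96*C t - 192) (unit23 h2 h3 8 1) ?_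
  simp only [Pc, Qc, map_add, map_sub, map_mul, map_neg, map_ofNat, map_one, map_pow]
  linear_combination (-864*X^2 - 1728*X - 768) * hT + (0) * hZ

omit [IsDomain R] [CharZero R] h2 h3 in
lemma zva : Zv (4 * t) (4 * (1 - t)) (1) 2 ((Pa t z).eval 0) ((Qa t z).eval 0) := by
  refine Or.inr ⟨by decide, by simp [Pa], ?_⟩
  simp only [Qa, eval_add, eval_mul, eval_pow, eval_C, eval_X, eval_one]
  linear_combination (-4096*t^3*z^3 - 12288*t^3*z^2 - 12288*t^3*z - 4096*t^3 - 8192*t^2*z^3 - 24576*t^2*z^2 - 24576*t^2*z - 12288*t^2 - 4096*t*z^3 - 12288*t*z^2 - 12288*t*z - 8192*t - 4096*z^3 - 12288*z^2 - 12288*z - 12288) * ht + (-12288*t*z - 24576*t - 8192*z - 16384) * hz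

omit [IsDomain R] [CharZero R] h2 h3 in
lemma zvb : Zv (4 * t) (4 * (1 - t)) (1) 2 ((Pb t z).eval 0) ((Qb t z).eval 0) := by
  refine Or.inr ⟨by decide, by simp [Pb], ?_⟩
  simp only [Qb, eval_add, eval_mul, eval_pow, eval_C, eval_X, eval_one]
  linear_combination (4096*t^3*z^3 + 8192*t^2*z^3 - 4096*t^2 + 4096*t*z^3 - 4096*t + 4096*z^3 - 8192) * ht + (12288*t*z - 12288*t + 8192*z - 8192) * hz

omit [IsDomain R] [CharZero R] h2 h3 in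
lemma zvc : Zv (4 * t) (4 * (1 - t)) (1 - 1) 3 ((Pc t z).eval 0) ((Qc t z).eval 0) := by
  refine Or.inl ⟨by decide, by simp [Qc], ?_⟩
  simp only [Pc, eval_add, eval_mul, eval_pow, eval_C, eval_X, eval_one]
  linear_combination (-262144*t^4 - 262144*t^3 - 524288*t^2 - 524288*t - 262144) * ht + (0) * hz

omit [IsDomain R] [CharZero R] h2 h3 in
lemma relbaseHom : 2 * C ((1 - t + z) * (-t - z)) * Pc t z * fA (Pa t z) (Qa t z) (Pb t z) (Qb t z)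
    = Qc t z * (C ((1 - t + z) * (-t - z)) * fB (C (4 * (1 - t))) (Pa t z) (Qa t z) (Pb t z) (Qb t z)
      + 4 * gp (4 * t) * (Wr (Pa t z) (Qa t z) * Wr (Pb t z) (Qb t z))) := by
  obtain ⟨hT, hZ⟩ := rels ht hz
  rw [Wa ht hz, Wb ht hz]
  simp only [gp, Pa, Qa, Pb, Qb, Pc, Qc, map_add, map_sub, map_mul, map_neg,
    map_ofNat, map_one, map_pow]
  generalize (C t : R[X]) = T at hT ⊢
  generalize (C z : R[X]) = Z at hZ ⊢
  generalize (X : R[X]) = x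
  refine rel_steps (N := 4*x^3*T*Z + 2*x^3*T - 2*x^3*Z - x^3 + 24*x^2*T*Z + 12*x^2*T + 8*x^2*Z + 4*x^2 + 32*x*T*Z + 16*x*T + 32*x*Z + 16*x)
    (A := -15*x^6 - 120*x^5*T - 120*x^5 - 1008*x^4*T - 576*x^4 - 2688*x^3*T - 1536*x^3 - 2304*x^2*T - 1536*x^2)
    (s := x^4 + 4*x^3*T + 4*x^3 + 32*x^2)
    (t := x^3 + 4*x^2*T - 20*x^2 - 48*x*T - 16*x)
    (u := 4*x^2 + 16*x*T + 4*x + 48*T + 32)
    (v := x^4 + 4*x^3*T + 4*x^3 - 96*x^2*T + 128*x^2 - 96*x*T - 288*x - 768*T - 384)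
    (bu := -16*x^2*T + 16*x^2 - 16*x*T - 48*x - 128*T - 64)
    (B := 2*x^7 + 16*x^6*T + 112*x^6 + 768*x^5*T + 816*x^5 + 8896*x^4*T + 3712*x^4 + 42240*x^3*T + 27136*x^3 + 132096*x^2*T + 82944*x^2 + 208896*x*T + 126976*x + 131072*T + 81920)
    (WW := 4*x^4 + 32*x^3*T + 8*x^3 + 288*x^2*T + 192*x^2 + 1024*x*T + 640*x + 1536*T + 1024)
    (c := 2)
    (E := 20*x^7 + 160*x^6*T + 400*x^6 + 4224*x^5*T + 2688*x^5 + 36352*x^4*T + 20224*x^4 + 178176*x^3*T + 111616*x^3 + 528384*x^2*T + 331776*x^2 + 835584*x*T + 507904*x + 524288*T + 327680)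
    (cp := 4*x^3 + 48*x^2 + 192*x*T + 256*T + 256) ?_ ?_ ?_ ?_ ?_ ?_ ?_ ?_ ?_ ?_ ?_ ?_ ?_
  · linear_combination (8*x^2*Z + 4*x^2) * hT + (0) * hZ
  · linear_combination (16*x^6*Z^2 + 16*x^6*Z + 4*x^6 + 192*x^5*Z^2 + 192*x^5*Z + 48*x^5 + 832*x^4*Z^2 + 832*x^4*Z + 208*x^4 + 1536*x^3*Z^2 + 1536*x^3*Z + 384*x^3 + 1024*x^2*Z^2 + 1024*x^2*Z + 256*x^2) * hT + (20*x^6 + 160*x^5*T + 160*x^5 + 1344*x^4*T + 768*x^4 + 3584*x^3*T + 2048*x^3 + 3072*x^2*T + 2048*x^2) * hZ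
  · linear_combination (-16*x^2*Z^2 - 16*x^2*Z) * hT + (16*x^2*T - 32*x^2) * hZ
  · linear_combination (16*x^2*Z^2 + 16*x^2*Z + 4*x^2 + 32*x*Z^2 + 32*x*Z) * hT + (-8*x^2*T + 24*x^2 + 32*x*T) * hZ
  · linear_combination (-4*x^2*Z^2 - 4*x^2*Z - x^2 - 16*x*Z^2 - 16*x*Z - 4*x - 16*Z^2 - 16*Z) * hT + (-5*x^2 - 24*x*T - 8*x - 48*T - 32) * hZ
  · linear_combination (-384*x - 1152) * hT + (0) * hZ
  · linear_combination (-64*x - 192) * hT + (0) * hZ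
  · linear_combination (32*x^5 + 2176*x^4 + 17408*x^3 + 20480*x^2 + 90112*x + 65536) * hT + (0) * hZ
  · linear_combination (-4*x^4*Z^2 - 4*x^4*Z - x^4 - 32*x^3*Z^2 - 32*x^3*Z - 8*x^3 - 192*x^2*Z^2 - 192*x^2*Z - 32*x^2 - 512*x*Z^2 - 512*x*Z - 128*x - 1024*Z^2 - 1024*Z - 256) * hT + (-5*x^4 - 48*x^3*T - 16*x^3 - 320*x^2*T - 224*x^2 - 1280*x*T - 768*x - 2048*T - 1280) * hZ
  · linear_combination (1) * hT + (-1) * hZ
  · linear_combination (3328*x^4 + 2048*x^3*T + 30208*x^3 + 18432*x^2*T + 129024*x^2 + 65536*x*T + 253952*x + 98304*T + 163840) * hT + (0) * hZ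
  · linear_combination (0) * hT + (0) * hZ
  · linear_combination (-23040*x^6 - 224256*x^5 - 774144*x^4 - 1130496*x^3 - 589824*x^2) * hT + (0) * hZ

/-- explicit generators of a lattice of isogenies -/
noncomputable def baseHom : Base (4 * t) (4 * (1 - t)) where
  Pa := Pa t z
  Qa := Qa t z
  Pb := Pb t z
  Qb := Qb t z
  Pc := Pc t z
  Qc := Qc t z
  da := 2
  db := 2
  dc := 3
  πa := 1 - t + z
  πb := -t - z
  εb := 1
  sa := -1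
  ga := gooda ht hz h2 h3
  gb := goodb ht hz h2 h3
  gc := goodc ht hz h2 h3
  oa := odea ht hz
  ob := odeb ht hz
  πa0 := ne_of_mul (w := -t - z) (n := 2) (by norm_num) (by push_cast; linear_combination (1) * ht + (-1) * hz)
  πb0 := ne_of_mul (w := -t + z + 1) (n := 2) (by norm_num) (by push_cast; linear_combination (1) * ht + (-1) * hz)
  Qb0 := by
    intro h
    have h1 := congrArg (eval 0) h
    simp only [Qb, eval_add, eval_mul, eval_pow, eval_C, eval_X, eval_one, eval_zero] at h1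
    exact ne_of_mul (w := t*z + t - 2*z - 2) (n := 4) (by norm_num)
      (by push_cast; linear_combination (4*z^2 + 4*z) * ht + (-4) * hz) h1
  hA := by
    intro h
    have h1 := congrArg (eval 1) (pow_eq_zero_iff (by norm_num) |>.mp h)
    simp only [Pa, Qa, Pb, Qb, eval_add, eval_sub, eval_mul, eval_pow, eval_C, eval_X,
      eval_one, eval_zero] at h1
    exact ne_of_mul (w := 60*t*z + 30*t - 98*z - 49) (n := 93) (by norm_num)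
      (by push_cast; linear_combination (480*t*z^2 + 480*t*z + 120*t + 2816*z^2 + 2816*z + 704) * ht + (-124) * hz) h1
  rel := relbaseHom ht hz
  za := zva ht hz
  zb := zvb ht hz
  zc := zvc ht hz
  hsa := by norm_num
  sg := by
    rw [Wa ht hz]
    simp only [Qa, eval_add, eval_sub, eval_neg, eval_mul, eval_pow, eval_C, eval_X, eval_one,
      eval_ofNat]
    linear_combination (64*t^2*z^2 + 128*t^2*z + 64*t^2 - 64*t*z^3 - 64*t*z^2 + 64*t*z + 64*t - 128*z^3 - 256*z^2 - 256*z - 64) * ht + (-128*t*z - 64*t - 64*z) * hz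

noncomputable def Pi (t z : R) : R[X] :=
  X ^ 1

noncomputable def Qi (t z : R) : R[X] :=
  1

lemma goodi : Good (Pi t z) (Qi t z) 1 := by
  obtain ⟨hT, hZ⟩ := rels ht hz
  refine ⟨by unfold Pi; monicity!, by unfold Pi; compute_degree!,
    by unfold Qi; compute_degree!, ?_⟩
  refine cop_of (u := 0) (v := 1) (unit23 h2 h3 0 0) ?_
  simp only [Pi, Qi, map_add, map_sub, map_mul, map_neg, map_ofNat, map_one, map_pow]
  linear_combination (0) * hT + (0) * hZ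

omit [IsDomain R] [CharZero R] h2 h3 in
lemma Wi : Wr (Pi t z) (Qi t z) = 1 := by
  obtain ⟨hT, hZ⟩ := rels ht hz
  simp only [Wr, Pi, Qi, derivative_add, derivative_mul, derivative_C, derivative_X_pow,
    derivative_one, map_add, map_sub, map_mul, map_neg, map_ofNat, map_one, map_pow, Nat.cast_ofNat,
    Nat.cast_one, Nat.cast_zero, map_zero, derivative_ofNat, derivative_neg, derivative_sub]
  linear_combination (0) * hT + (0) * hZ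

omit [IsDomain R] [CharZero R] h2 h3 in
lemma odei : ODE (4 * t) (4 * t) (Pi t z) (Qi t z) (1) := by
  obtain ⟨hT, hZ⟩ := rels ht hz
  rw [ODE, Wi ht hz]
  simp only [gp, Pi, Qi, map_add, map_sub, map_mul, map_neg, map_ofNat, map_one, map_pow]
  generalize (C t : R[X]) = T at hT ⊢
  generalize (C z : R[X]) = Z at hZ ⊢
  generalize (X : R[X]) = x
  refine ode_steps (W2 := 1)
    (P2 := x^2)
    (M := 3*x + 4*T)
    (M2 := 9*x^2 + 24*x*T + 16*T + 16)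
    (H := x^3 + 9*x^2 + 24*x*T + 16*T + 16)
    (QH := x^3 + 9*x^2 + 24*x*T + 16*T + 16)
    (c := 1) ?_ ?_ ?_ ?_ ?_ ?_ ?_ ?_
  · linear_combination (0) * hT + (0) * hZ
  · linear_combination (0) * hT + (0) * hZ
  · linear_combination (0) * hT + (0) * hZ
  · linear_combination (16) * hT + (0) * hZ
  · linear_combination (0) * hT + (0) * hZ
  · linear_combination (0) * hT + (0) * hZ
  · linear_combination (0) * hT + (0) * hZ
  · linear_combination (16) * hT + (0) * hZ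

noncomputable def Po (t z : R) : R[X] :=
  X ^ 4 + C (4*t*z + 8*t + 12) * X ^ 3 + C (32*t*z + 64*t - 32*z + 32) * X ^ 2 + C (-64*t*z + 128*t + 64) * X ^ 1

noncomputable def Qo (t z : R) : R[X] :=
  C (-2*t*z - t + z - 3) * X ^ 3 + C (4*t*z - 16*t - 24*z - 12) * X ^ 2 + C (-64*t*z - 80*t + 16*z - 16) * X ^ 1 + C (-64*t*z - 64*t - 64*z - 64) * X ^ 0

lemma goodo : Good (Po t z) (Qo t z) 4 := by
  obtain ⟨hT, hZ⟩ := rels ht hz
  refine ⟨by unfold Po; monicity!, by unfold Po; compute_degree!,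
    by unfold Qo; compute_degree!, ?_⟩
  refine cop_of (u := 537*X^2*C t*C z + 206*X^2*C t - 864*X^2*C z - 349*X^2 - 2624*X*C t*C z - 2800*X*C t + 4272*X*C z + 4432*X + 1360*C t*C z + 4272*C t - 2320*C z - 7360) (v := 111*X^3*C t*C z - 14*X^3*C t - 176*X^3*C z + 21*X^3 + 1176*X^2*C t*C z + 144*X^2*C t - 1856*X^2*C z - 296*X^2 + 6464*X*C t*C z + 5808*X*C t - 10224*X*C z - 9616*X - 1728*C t*C z + 3456*C z) (unit23 h2 h3 12 3) ?_
  simp only [Po, Qo, map_add, map_sub, map_mul, map_neg, map_ofNat, map_one, map_pow]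
  linear_combination (-222*X^6*C z^2 - 83*X^6*C z + 14*X^6 + 240*X^5*C z^2 + 1824*X^5*C z + 1728*X^5 - 8640*X^4*C z^2 - 35536*X^4*C z - 16208*X^4 - 165952*X^3*C z^2 - 361984*X^3*C z - 222208*X^3 - 284416*X^2*C z^2 - 878592*X^2*C z - 558848*X^2 - 390144*X*C z^2 - 746496*X*C z + 175104*X + 110592*C z^2 + 110592*C z) * hT + (241*X^6*C t - 398*X^6 - 1696*X^5*C t + 2608*X^5 - 32080*X^4*C t + 50512*X^4 + 37824*X^3*C t - 72256*X^3 + 180992*X^2*C t - 337920*X^2 - 249856*X*C t + 319488*X - 110592) * hZ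

omit [IsDomain R] [CharZero R] h2 h3 in
lemma Wo : Wr (Po t z) (Qo t z) = -2*X^6*C t*C z - X^6*C t + X^6*C z - 3*X^6 + 8*X^5*C t*C z - 32*X^5*C t - 48*X^5*C z - 24*X^5 - 80*X^4*C t*C z - 256*X^4*C t - 352*X^4*C z - 272*X^4 - 2816*X^3*C t*C z - 2048*X^3*C t - 512*X^3*C z - 512*X^3 - 9728*X^2*C t*C z - 7168*X^2*C t - 7168*X^2*C z - 3584*X^2 - 20480*X*C t*C z - 16384*X*C t - 12288*X*C z - 12288*X - 20480*C t*C z - 28672*C t - 12288*C z - 16384 := by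
  obtain ⟨hT, hZ⟩ := rels ht hz
  simp only [Wr, Po, Qo, derivative_add, derivative_mul, derivative_C, derivative_X_pow,
    derivative_one, map_add, map_sub, map_mul, map_neg, map_ofNat, map_one, map_pow, Nat.cast_ofNat,
    Nat.cast_one, Nat.cast_zero, map_zero, derivative_ofNat, derivative_neg, derivative_sub]
  linear_combination (80*X^4*C z^2 + 128*X^4*C z - 64*X^4 - 768*X^3*C z^2 - 1280*X^3*C z - 1024*X^3 - 2560*X^2*C z^2 - 10496*X^2*C z - 4608*X^2 - 4096*X*C z^2 - 12288*X*C z - 8192*X + 4096*C z^2 - 4096*C z - 8192) * hT + (-112*X^4*C t + 112*X^4 - 512*X^3*C t - 768*X^3 - 2304*X^2*C t - 3072*X^2 - 4096*X*C t + 8192*C t + 4096) * hZ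

omit [IsDomain R] [CharZero R] h2 h3 in
lemma odeo : ODE (4 * t) (4 * t) (Po t z) (Qo t z) (1 + z - t - 2 * t * z) := by
  obtain ⟨hT, hZ⟩ := rels ht hz
  rw [ODE, Wo ht hz]
  simp only [gp, Po, Qo, map_add, map_sub, map_mul, map_neg, map_ofNat, map_one, map_pow]
  generalize (C t : R[X]) = T at hT ⊢
  generalize (C z : R[X]) = Z at hZ ⊢
  generalize (X : R[X]) = x
  refine ode_steps (W2 := 14*x^12*T*Z + 7*x^12*T - 7*x^12*Z + 5*x^12 + 16*x^11*T*Z + 128*x^11*T + 480*x^11*Z + 336*x^11 + 4256*x^10*T*Z + 4288*x^10*T + 2560*x^10*Z + 1760*x^10 + 68864*x^9*T*Z + 55040*x^9*T + 17152*x^9*Z - 6144*x^9 + 561408*x^8*T*Z + 203520*x^8*T + 378624*x^8*Z + 172032*x^8 + 4153344*x^7*T*Z + 344064*x^7*T + 2359296*x^7*Z + 663552*x^7 + 19832832*x^6*T*Z - 3317760*x^6*T + 11919360*x^6*Z - 3833856*x^6 + 69992448*x^5*T*Z - 46989312*x^5*T + 47775744*x^5*Z - 24182784*x^5 + 241434624*x^4*T*Z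 - 183631872*x^4*T + 139591680*x^4*Z - 118358016*x^4 + 710934528*x^3*T*Z - 394264576*x^3*T + 448790528*x^3*Z - 245366784*x^3 + 1627389952*x^2*T*Z - 331350016*x^2*T + 1002438656*x^2*Z - 197132288*x^2 + 2281701376*x*T*Z + 335544320*x*T + 1409286144*x*Z + 201326592*x + 1627389952*T*Z + 838860800*T + 1006632960*Z + 520093696)
    (P2 := x^8 + 8*x^7*T*Z + 16*x^7*T + 24*x^7 + 208*x^6*T*Z + 368*x^6*T - 16*x^6*Z + 256*x^6 + 1408*x^5*T*Z + 3328*x^5*T + 1664*x^5 + 2560*x^4*T*Z + 15872*x^4*T + 512*x^4*Z + 7168*x^4 - 8192*x^3*T*Z + 32768*x^3*T + 24576*x^3 - 28672*x^2*T*Z + 28672*x^2*T - 20480*x^2*Z + 16384*x^2)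
    (M := 3*x^4 + 8*x^3*T*Z + 8*x^3*T - 8*x^3*Z + 32*x^3 + 16*x^2*T*Z + 80*x^2*T - 80*x^2*Z + 32*x^2 - 384*x*T*Z - 256*x*Z - 128*x - 512*T*Z - 512*T - 256*Z - 256)
    (M2 := 9*x^8 + 48*x^7*T*Z + 48*x^7*T - 48*x^7*Z + 192*x^7 + 672*x^6*T*Z + 1120*x^6*T - 992*x^6*Z + 1152*x^6 - 512*x^5*T*Z + 8192*x^5*T - 7168*x^5*Z + 1024*x^5 - 42752*x^4*T*Z + 12800*x^4*T - 29184*x^4*Z - 6912*x^4 - 217088*x^3*T*Z - 102400*x^3*T - 110592*x^3*Z - 57344*x^3 - 401408*x^2*T*Z - 557056*x^2*T - 245760*x^2*Z - 319488*x^2 + 131072*x*T*Z - 720896*x*T + 65536*x*Z - 458752*x + 524288*T*Z + 327680*Z)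
    (H := x^12 - 6*x^11*T*Z + 15*x^11*T + 9*x^11*Z + 9*x^11 - 60*x^10*T*Z + 336*x^10*T + 168*x^10*Z + 84*x^10 + 2016*x^9*T*Z + 4240*x^9*T - 144*x^9*Z + 1648*x^9 + 36288*x^8*T*Z + 46656*x^8*T - 6336*x^8*Z + 9792*x^8 + 251136*x^7*T*Z + 317952*x^7*T + 119808*x^7*Z + 99072*x^7 + 1465344*x^6*T*Z + 1317888*x^6*T + 1207296*x^6*Z + 952320*x^6 + 8073216*x^5*T*Z + 5087232*x^5*T + 4718592*x^5*Z + 3575808*x^5 + 30228480*x^4*T*Z + 19021824*x^4*T + 18137088*x^4*Z + 10616832*x^4 + 81985536*x^3*T*Z + 61472768*x^3*T + 51904512*x^3*Z + 38862848*x^3 + 137625600*x^2*T*Z + 150208512*x^2*T + 84148224*x^2*Z + 92798976*x^2 + 91226112*x*T*Z + 188743680*x*T + 56623104*x*Z + 116391936*x + 88080384*T + 54525952)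
    (QH := -2*x^15*T*Z - x^15*T + x^15*Z - 3*x^15 - 2*x^14*T*Z - 73*x^14*T - 87*x^14*Z - 75*x^14 - 616*x^13*T*Z - 1952*x^13*T - 1232*x^13*Z - 1000*x^13 - 24208*x^12*T*Z - 31440*x^12*T - 2768*x^12*Z - 9056*x^12 - 296704*x^11*T*Z - 310784*x^11*T - 112640*x^11*Z - 132352*x^11 - 2659072*x^10*T*Z - 2088704*x^10*T - 1914624*x^10*Z - 1648128*x^10 - 21934080*x^9*T*Z - 12613632*x^9*T - 13322240*x^9*Z - 8579072*x^9 - 132329472*x^8*T*Z - 55160832*x^8*T - 80031744*x^8*Z - 28348416*x^8 - 620101632*x^7*T*Z - 139591680*x^7*T - 397934592*x^7*Z - 101056512*x^7 - 2441478144*x^6*T*Z - 319160320*x^6*T - 1469186048*x^6*Z - 180617216*x^6 - 7646216192*x^5*T*Z - 907018240*x^5*T - 4776263680*x^5*Z - 552599552*x^5 - 19373490176*x^4*T*Z - 3779067904*x^4*T - 11947474944*x^4*Z - 2384461824*x^4 - 36825989120*x^3*T*Z - 12348030976*x^3*T - 22749904896*x^3*Z - 7566524416*x^3 - 48502931456*x^2*T*Z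 - 24930942976*x^2*T - 29997662208*x^2*Z - 15451815936*x^2 - 39325794304*x*T*Z - 29125246976*x*T - 24293408768*x*Z - 17985175552*x - 14763950080*T*Z - 14763950080*T - 9126805504*Z - 9126805504)
    (c := -2*T*Z - T + Z - 3) ?_ ?_ ?_ ?_ ?_ ?_ ?_ ?_
  · linear_combination (4*x^12*Z^2 + 4*x^12*Z + x^12 - 32*x^11*Z^2 + 112*x^11*Z + 64*x^11 + 384*x^10*Z^2 + 672*x^10*Z + 1536*x^10 + 9984*x^9*Z^2 + 14848*x^9*Z + 20480*x^9 + 256*x^8*Z^2 + 236544*x^8*Z + 210944*x^8 + 376832*x^7*Z^2 + 2383872*x^7*Z + 1540096*x^7 + 9240576*x^6*Z^2 + 18866176*x^6*Z + 8970240*x^6 + 57737216*x^5*Z^2 + 94175232*x^5*Z + 39583744*x^5 + 213254144*x^4*Z^2 + 330694656*x^4*Z + 133169152*x^4 + 513802240*x^3*Z^2 + 857735168*x^3*Z + 352321536*x^3 + 817889280*x^2*Z^2 + 1522532352*x^2*Z + 679477248*x^2 + 838860800*x*Z^2 + 1845493760*x*Z + 939524096*x + 419430400*Z^2 + 1174405120*Z + 822083584) *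 hT + (5*x^12 + 176*x^11*T - 128*x^11 + 864*x^10*T + 1984*x^10 + 8448*x^9*T + 42752*x^9 + 327936*x^8*T + 158976*x^8 + 3268608*x^7*T + 1400832*x^7 + 21897216*x^6*T + 15704064*x^6 + 126222336*x^5*T + 74907648*x^5 + 459276288*x^4*T + 285868032*x^4 + 1136656384*x^3*T + 702545920*x^3 + 1853882368*x^2*T + 1145044992*x^2 + 1845493760*x*T + 1140850688*x + 922746880*T + 570425344) * hZ
  · linear_combination (16*x^6*Z^2 + 64*x^6*Z + 64*x^6 + 256*x^5*Z^2 + 1024*x^5*Z + 1024*x^5 + 512*x^4*Z^2 + 4096*x^4*Z + 6144*x^4 - 4096*x^3*Z^2 + 16384*x^3 + 4096*x^2*Z^2 - 16384*x^2*Z + 16384*x^2) * hT + (16*x^6*T + 16*x^6 + 256*x^5 - 1536*x^4*T + 1536*x^4 - 4096*x^3 + 4096*x^2*T + 4096*x^2) * hZ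
  · linear_combination (-8*x^3*Z - 4*x^3 + 16*x^2*Z - 64*x^2 - 256*x*Z - 320*x - 256*Z - 256) * hT + (0) * hZ
  · linear_combination (64*x^6*Z^2 + 128*x^6*Z + 64*x^6 + 256*x^5*Z^2 + 1536*x^5*Z + 1280*x^5 - 5888*x^4*Z^2 - 3584*x^4*Z + 6400*x^4 - 20480*x^3*Z^2 - 77824*x^3*Z - 8192*x^3 + 131072*x^2*Z^2 - 98304*x^2*Z - 81920*x^2 + 393216*x*Z^2 + 393216*x*Z + 262144*Z^2 + 524288*Z + 262144) * hT + (-64*x^6*T + 128*x^6 - 1280*x^5*T + 1536*x^5 - 6400*x^4*T + 4608*x^4 + 36864*x^3*T + 24576*x^3 + 401408*x^2*T + 237568*x^2 + 851968*x*T + 524288*x + 524288*T + 327680) * hZ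
  · linear_combination (-64*x^10*Z^2 - 16*x^10*Z + 80*x^10 - 64*x^9*Z^2 + 672*x^9*Z + 2080*x^9 + 12416*x^8*Z^2 + 20608*x^8*Z + 22272*x^8 + 79360*x^7*Z^2 + 210176*x^7*Z + 150528*x^7 + 211968*x^6*Z^2 + 1263616*x^6*Z + 874496*x^6 + 2162688*x^5*Z^2 + 6410240*x^5*Z + 5005312*x^5 + 14368768*x^4*Z^2 + 27279360*x^4*Z + 23035904*x^4 + 40894464*x^3*Z^2 + 77201408*x^3*Z + 66322432*x^3 + 19398656*x^2*Z^2 + 88604672*x^2*Z + 93323264*x^2 - 41943040*x*Z^2 - 4194304*x*Z + 46137344*x - 33554432*Z^2 - 33554432*Z) * hT + (80*x^10*T - 112*x^10 + 928*x^9*T + 96*x^9 + 2816*x^8*T + 28800*x^8 + 110848*x^7*T + 209408*x^7 + 1530880*x^6*T + 734208*x^6 + 8843264*x^5*T + 4562944*x^5 + 31490048*x^4*T + 21086208*x^4 + 69468160*x^3*T + 42795008*x^3 + 47448064*x^2*T + 28311552*x^2 - 67108864*x*T - 40894464*x - 88080384*T - 54525952) * hZ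
  · linear_combination (12*x^14*Z^2 - 24*x^14*Z - 15*x^14 + 96*x^13*Z^2 - 456*x^13*Z - 576*x^13 - 3888*x^12*Z^2 - 8672*x^12*Z - 10816*x^12 - 60288*x^11*Z^2 - 162176*x^11*Z - 142336*x^11 - 482304*x^10*Z^2 - 1731328*x^10*Z - 1425152*x^10 - 4377600*x^9*Z^2 - 13136896*x^9*Z - 10408960*x^9 - 28680192*x^8*Z^2 - 82169856*x^8*Z - 54595584*x^8 - 138018816*x^7*Z^2 - 415088640*x^7*Z - 226197504*x^7 - 653524992*x^6*Z^2 - 1762066432*x^6*Z - 857145344*x^6 - 2398617600*x^5*Z^2 - 5981863936*x^5*Z - 2981101568*x^5 - 6813646848*x^4*Z^2 - 15715008512*x^4*Z - 8727298048*x^4 - 13690208256*x^3*Z^2 - 30685528064*x^3*Z - 19058917376*x^3 - 14646509568*x^2*Z^2 - 37446746112*x^2*Z - 26122125312*x^2 - 5838471168*x*Z^2 - 23555211264*x*Z - 19126026240*x - 5637144576*Z - 5637144576) * hT + (-12*x^14*T + 21*x^14 - 120*x^13*T + 48*x^13 - 144*x^12*T - 7920*x^12 - 72192*x^11*T - 61056*x^11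 - 1332480*x^10*T - 223488*x^10 - 10008576*x^9*T - 6137856*x^9 - 65949696*x^8*T - 50614272*x^8 - 396509184*x^7*T - 221478912*x^7 - 1672151040*x^6*T - 1038680064*x^6 - 5685116928*x^5*T - 3571974144*x^5 - 14907604992*x^4*T - 9106882560*x^4 - 27405582336*x^3*T - 17024679936*x^3 - 31004295168*x^2*T - 19126026240*x^2 - 15300820992*x*T - 9462349824*x) * hZ
  · linear_combination (4*Z^2 + 4*Z + 1) * hT + (5) * hZ
  · linear_combination (-4*x^15*Z^2 - 4*x^15*Z - x^15 - 4*x^14*Z^2 - 148*x^14*Z - 73*x^14 - 1232*x^13*Z^2 - 4184*x^13*Z - 1784*x^13 + 224*x^12*T*Z + 112*x^12*T - 48416*x^12*Z^2 - 86592*x^12*Z - 28176*x^12 + 256*x^11*T*Z + 2048*x^11*T - 593408*x^11*Z^2 - 808192*x^11*Z - 200448*x^11 + 68096*x^10*T*Z + 68608*x^10*T - 5318144*x^10*Z^2 - 5074688*x^10*Z - 670976*x^10 + 1101824*x^9*T*Z + 880640*x^9*T - 43868160*x^9*Z^2 - 32311296*x^9*Z - 6946816*x^9 + 8982528*x^8*T*Z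 + 3256320*x^8*T - 264658944*x^8*Z^2 - 127930368*x^8*Z - 40894464*x^8 + 66453504*x^7*T*Z + 5505024*x^7*T - 1240203264*x^7*Z^2 - 319094784*x^7*Z - 203096064*x^7 + 317325312*x^6*T*Z - 53084160*x^6*T - 4882956288*x^6*Z^2 - 891944960*x^6*Z - 1561329664*x^6 + 1119879168*x^5*T*Z - 751828992*x^5*T - 15292432384*x^5*Z^2 - 1781530624*x^5*Z - 6452936704*x^5 + 3862953984*x^4*T*Z - 2938109952*x^4*T - 38746980352*x^4*Z^2 - 3772776448*x^4*Z - 18073255936*x^4 + 11374952448*x^3*T*Z - 6308233216*x^3*T - 73651978240*x^3*Z^2 - 3909091328*x^3*Z - 30534533120*x^3 + 26038239232*x^2*T*Z - 5301600256*x^2*T - 97005862912*x^2*Z^2 - 1526726656*x^2*Z - 25333596160*x^2 + 36507222016*x*T*Z + 5368709120*x*T - 78651588608*x*Z^2 + 536870912*x*Z - 402653184*x + 26038239232*T*Z + 13421772800*T - 29527900160*Z^2 - 2147483648*Z + 6979321856) * hT + (-5*x^15 - 176*x^14*T + 83*x^14 - 3080*x^13*T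 - 29744*x^12*T - 45648*x^12 - 521984*x^11*T - 480768*x^11 - 6488320*x^10*T - 3403520*x^10 - 48578560*x^9*T - 30545920*x^9 - 292392960*x^8*T - 184627200*x^8 - 1415970816*x^7*T - 842268672*x^7 - 5379850240*x^6*T - 3413770240*x^6 - 17198743552*x^5*T - 10516168704*x^5 - 43268440064*x^4*T - 26799505408*x^4 - 82325798912*x^3*T - 50902073344*x^3 - 108498255872*x^2*T - 67008200704*x^2 - 87912611840*x*T - 54358179840*x - 33017561088*T - 20401094656) * hZ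

noncomputable def Pp (t z : R) : R[X] :=
  X ^ 4 + C (-4*t*z + 4*t + 12) * X ^ 3 + C (-32*t*z + 32*t + 32*z + 64) * X ^ 2 + C (64*t*z + 192*t + 64) * X ^ 1

noncomputable def Qp (t z : R) : R[X] :=
  C (2*t*z + t - z - 4) * X ^ 3 + C (-4*t*z - 20*t + 24*z + 12) * X ^ 2 + C (64*t*z - 16*t - 16*z - 32) * X ^ 1 + C (64*t*z + 64*z) * X ^ 0

lemma goodp : Good (Pp t z) (Qp t z) 4 := by
  obtain ⟨hT, hZ⟩ := rels ht hz
  refine ⟨by unfold Pp; monicity!, by unfold Pp; compute_degree!,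
    by unfold Qp; compute_degree!, ?_⟩
  refine cop_of (u := -537*X^2*C t*C z - 331*X^2*C t + 864*X^2*C z + 515*X^2 + 2624*X*C t*C z - 176*X*C t - 4272*X*C z + 160*X - 1360*C t*C z + 2912*C t + 2320*C z - 5040) (v := -111*X^3*C t*C z - 125*X^3*C t + 176*X^3*C z + 197*X^3 - 1176*X^2*C t*C z - 1032*X^2*C t + 1856*X^2*C z + 1560*X^2 - 6464*X*C t*C z - 656*X*C t + 10224*X*C z + 608*X + 1728*C t*C z + 1728*C t - 3456*C z - 3456) (unit23 h2 h3 12 3) ?_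
  simp only [Pp, Qp, map_add, map_sub, map_mul, map_neg, map_ofNat, map_one, map_pow]
  linear_combination (-222*X^6*C z^2 - 361*X^6*C z - 125*X^6 + 240*X^5*C z^2 - 1344*X^5*C z + 144*X^5 - 8640*X^4*C z^2 + 18256*X^4*C z + 10688*X^4 - 165952*X^3*C z^2 + 30080*X^3*C z - 26176*X^3 - 284416*X^2*C z^2 + 309760*X^2*C z + 35328*X^2 - 390144*X*C z^2 - 33792*X*C z + 531456*X + 110592*C z^2 + 110592*C z) * hT + (241*X^6*C t - 398*X^6 - 1696*X^5*C t + 2608*X^5 - 32080*X^4*C t + 50512*X^4 + 37824*X^3*C t - 72256*X^3 + 180992*X^2*C t - 337920*X^2 - 249856*X*C t + 319488*X - 110592) * hZ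

omit [IsDomain R] [CharZero R] h2 h3 in
lemma zvi : Zv (4 * t) (4 * t) (1) 1 ((Pi t z).eval 0) ((Qi t z).eval 0) := by
  refine Or.inr ⟨by decide, by simp [Pi], ?_⟩
  simp only [Qi, eval_add, eval_mul, eval_pow, eval_C, eval_X, eval_one]
  linear_combination (0) * ht + (0) * hz

omit [IsDomain R] [CharZero R] h2 h3 in
lemma zvo : Zv (4 * t) (4 * t) (-1) 4 ((Po t z).eval 0) ((Qo t z).eval 0) := by
  refine Or.inr ⟨by decide, by simp [Po], ?_⟩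
  simp only [Qo, eval_add, eval_mul, eval_pow, eval_C, eval_X, eval_one]
  linear_combination (-16777216*t^6 - 16777216*t^5 - 33554432*t^4 - 16777216*t^3*z^3 - 50331648*t^3*z^2 - 50331648*t^3*z - 67108864*t^3 - 67108864*t^2*z^3 - 201326592*t^2*z^2 - 201326592*t^2*z - 150994944*t^2 - 134217728*t*z^3 - 402653184*t*z^2 - 402653184*t*z - 268435456*t - 218103808*z^3 - 654311424*z^2 - 654311424*z - 436207616) * ht + (-352321536*t*z - 704643072*t - 218103808*z - 436207616) * hz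

omit [IsDomain R] [CharZero R] h2 h3 in
lemma zvp : Zv (4 * t) (4 * t) (1 - -1) 4 ((Pp t z).eval 0) ((Qp t z).eval 0) := by
  refine Or.inr ⟨by decide, by simp [Pp], ?_⟩
  simp only [Qp, eval_add, eval_mul, eval_pow, eval_C, eval_X, eval_one]
  linear_combination (-16777216*t^6 - 16777216*t^5 - 33554432*t^4 + 16777216*t^3*z^3 - 50331648*t^3 + 67108864*t^2*z^3 - 83886080*t^2 + 134217728*t*z^3 - 134217728*t + 218103808*z^3 - 218103808) * ht + (352321536*t*z - 352321536*t + 218103808*z - 218103808) * hz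

omit [IsDomain R] [CharZero R] h2 h3 in
lemma relbaseEnd : 2 * C ((1) * (1 + z - t - 2 * t * z)) * Pp t z * fA (Pi t z) (Qi t z) (Po t z) (Qo t z)
    = Qp t z * (C ((1) * (1 + z - t - 2 * t * z)) * fB (C (4 * t)) (Pi t z) (Qi t z) (Po t z) (Qo t z)
      + 4 * gp (4 * t) * (Wr (Pi t z) (Qi t z) * Wr (Po t z) (Qo t z))) := by
  obtain ⟨hT, hZ⟩ := rels ht hz
  rw [Wi ht hz, Wo ht hz]
  simp only [gp, Pi, Qi, Po, Qo, Pp, Qp, map_add, map_sub, map_mul, map_neg,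
    map_ofNat, map_one, map_pow]
  generalize (C t : R[X]) = T at hT ⊢
  generalize (C z : R[X]) = Z at hZ ⊢
  generalize (X : R[X]) = x
  refine rel_steps (N := -2*x^4*T*Z - x^4*T + x^4*Z - 4*x^4 - 24*x^3*T - 24*x^3*Z - 24*x^3 - 96*x^2*T*Z - 144*x^2*T + 48*x^2*Z - 48*x^2 - 192*x*T - 64*x*Z - 128*x)
    (A := 18*x^8*T*Z + 9*x^8*T - 9*x^8*Z + 12*x^8 + 96*x^7*T*Z + 192*x^7*T + 288*x^7*Z + 288*x^7 + 2496*x^6*T*Z + 3264*x^6*T + 384*x^6*Z + 768*x^6 + 9984*x^5*T*Z + 13440*x^5*T + 8064*x^5*Z + 13056*x^5 + 35328*x^4*T*Z + 59136*x^4*T + 17664*x^4*Z + 23808*x^4 + 49152*x^3*T*Z + 98304*x^3*T + 36864*x^3*Z + 73728*x^3 + 24576*x^2*T*Z + 86016*x^2*T + 12288*x^2*Z + 49152*x^2)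
    (s := x^5 + 4*x^4*T*Z + 8*x^4*T + 12*x^4 + 32*x^3*T*Z + 64*x^3*T - 32*x^3*Z + 32*x^3 - 64*x^2*T*Z + 128*x^2*T + 64*x^2)
    (t := -2*x^4*T*Z - x^4*T + x^4*Z - 2*x^4 + 8*x^3*T*Z - 8*x^3*T - 24*x^3*Z - 32*x^2*T*Z - 16*x^2*T - 16*x^2*Z + 16*x^2 - 128*x*T*Z + 64*x*T - 64*x*Z)
    (u := -2*x^3*T*Z - x^3*T + x^3*Z - 3*x^3 + 4*x^2*T*Z - 16*x^2*T - 24*x^2*Z - 12*x^2 - 64*x*T*Z - 80*x*T + 16*x*Z - 16*x - 64*T*Z - 64*T - 64*Z - 64)
    (v := x^5 + 4*x^4*T*Z + 8*x^4*T + 12*x^4 + 8*x^3*T*Z - 32*x^3*T - 80*x^3*Z + 8*x^3 - 544*x^2*T*Z - 544*x^2*T + 96*x^2*Z - 320*x^2 - 1152*x*T*Z - 2304*x*T - 1536*x*Z - 1920*x - 3072*T*Z - 3072*T - 1536*Z - 1536)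
    (bu := -4*x^3*T*Z - 16*x^3*T - 8*x^3*Z - 4*x^3 - 80*x^2*T*Z - 112*x^2*T + 16*x^2*Z - 64*x^2 - 192*x*T*Z - 384*x*T - 256*x*Z - 320*x - 512*T*Z - 512*T - 256*Z - 256)
    (B := -4*x^9*T*Z - 2*x^9*T + 2*x^9*Z - 4*x^9 - 136*x^8*T*Z - 116*x^8*T - 12*x^8*Z - 156*x^8 - 1664*x^7*T*Z - 2368*x^7*T - 832*x^7*Z - 1664*x^7 - 8192*x^6*T*Z - 20032*x^6*T - 14784*x^6*Z - 15552*x^6 - 53248*x^5*T*Z - 113408*x^5*T - 28928*x^5*Z - 73216*x^5 - 80896*x^4*T*Z - 413696*x^4*T - 3072*x^4*Z - 215040*x^4 + 434176*x^3*T*Z - 851968*x^3*T + 155648*x^3*Z - 598016*x^3 + 1785856*x^2*T*Z - 1196032*x^2*T + 1228800*x^2*Z - 688128*x^2 + 3080192*x*T*Z - 720896*x*T + 1835008*x*Z - 458752*x + 2097152*T*Z + 1310720*Z)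
    (WW := -2*x^6*T*Z - x^6*T + x^6*Z - 3*x^6 + 8*x^5*T*Z - 32*x^5*T - 48*x^5*Z - 24*x^5 - 80*x^4*T*Z - 256*x^4*T - 352*x^4*Z - 272*x^4 - 2816*x^3*T*Z - 2048*x^3*T - 512*x^3*Z - 512*x^3 - 9728*x^2*T*Z - 7168*x^2*T - 7168*x^2*Z - 3584*x^2 - 20480*x*T*Z - 16384*x*T - 12288*x*Z - 12288*x - 20480*T*Z - 28672*T - 12288*Z - 16384)
    (c := -2*T*Z - T + Z + 1)
    (E := -24*x^9 + 240*x^8*T*Z - 168*x^8*T - 216*x^8*Z - 504*x^8 + 3072*x^7*T*Z - 4224*x^7*T - 1920*x^7*Z - 3840*x^7 + 9984*x^6*T*Z - 45312*x^6*T + 2304*x^6*Z - 12288*x^6 - 6144*x^5*T*Z - 196608*x^5*T + 43008*x^5*Z - 98304*x^5 - 24576*x^4*T*Z - 491520*x^4*T - 73728*x^4*Z - 368640*x^4 - 196608*x^3*T*Z - 688128*x^3*T - 98304*x^3*Z - 393216*x^3)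
    (cp := -4*x^4*T*Z - 2*x^4*T + 2*x^4*Z + 2*x^4 - 64*x^3*T*Z - 32*x^3*T - 320*x^2*T*Z - 64*x^2*T - 64*x^2*Z - 128*x^2 - 512*x*T*Z - 512*x*Z) ?_ ?_ ?_ ?_ ?_ ?_ ?_ ?_ ?_ ?_ ?_ ?_ ?_
  · linear_combination (0) * hT + (0) * hZ
  · linear_combination (4*x^8*Z^2 + 4*x^8*Z + x^8 + 96*x^7*Z + 48*x^7 + 384*x^6*Z^2 + 768*x^6*Z + 864*x^6 + 5376*x^5*Z + 7296*x^5 + 9216*x^4*Z^2 + 27648*x^4*Z + 29952*x^4 + 36864*x^3*Z + 55296*x^3 + 36864*x^2) * hT + (5*x^8 + 96*x^7*T - 48*x^7 + 1056*x^6 + 4864*x^5*T - 2432*x^5 + 14592*x^4 + 12288*x^3*T - 6144*x^3 + 4096*x^2) * hZ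
  · linear_combination (0) * hT + (0) * hZ
  · linear_combination (0) * hT + (0) * hZ
  · linear_combination (0) * hT + (0) * hZ
  · linear_combination (-48*x^3*Z - 24*x^3 + 96*x^2*Z - 384*x^2 - 1536*x*Z - 1920*x - 1536*Z - 1536) * hT + (0) * hZ
  · linear_combination (-8*x^3*Z - 4*x^3 + 16*x^2*Z - 64*x^2 - 256*x*Z - 320*x - 256*Z - 256) * hT + (0) * hZ
  · linear_combination (-16*x^8*Z^2 - 40*x^8*Z - 16*x^8 - 256*x^7*Z^2 - 544*x^7*Z - 352*x^7 + 384*x^6*Z^2 - 4416*x^6*Z - 4544*x^6 - 3072*x^5*Z^2 - 20480*x^5*Z - 34816*x^5 - 33792*x^4*Z^2 - 41984*x^4*Z - 120832*x^4 + 376832*x^3*Z^2 + 421888*x^3*Z - 53248*x^3 + 1114112*x^2*Z^2 + 1966080*x^2*Z + 557056*x^2 + 1572864*x*Z^2 + 2752512*x*Z + 1179648*x + 1048576*Z^2 + 2097152*Z + 1048576) * hT + (-8*x^8*T - 16*x^8 + 32*x^7*T - 416*x^7 - 2624*x^6*T + 3520*x^6 + 5120*x^5*T + 18432*x^5 + 176128*x^4*T + 43008*x^4 +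 823296*x^3*T + 544768*x^3 + 2490368*x^2*T + 1589248*x^2 + 3801088*x*T + 2293760*x + 2097152*T + 1310720) * hZ
  · linear_combination (0) * hT + (0) * hZ
  · linear_combination (0) * hT + (0) * hZ
  · linear_combination (8*x^9*Z^2 + 8*x^9*Z + 2*x^9 + 272*x^8*Z^2 + 368*x^8*Z + 116*x^8 + 3328*x^7*Z^2 + 6208*x^7*Z + 2272*x^7 - 128*x^6*T*Z - 64*x^6*T + 16384*x^6*Z^2 + 48960*x^6*Z + 16704*x^6 + 512*x^5*T*Z - 2048*x^5*T + 106496*x^5*Z^2 + 269824*x^5*Z + 85248*x^5 - 5120*x^4*T*Z - 16384*x^4*T + 161792*x^4*Z^2 + 610304*x^4*Z + 183296*x^4 - 180224*x^3*T*Z - 131072*x^3*T - 868352*x^3*Z^2 + 122880*x^3*Z - 622592*x^2*T*Z - 458752*x^2*T - 3571712*x^2*Z^2 - 2441216*x^2*Z - 1064960*x^2 - 1310720*x*T*Z - 1048576*x*T - 6160384*x*Z^2 - 5701632*x*Z - 3866624*x - 1310720*T*Z - 1835008*T - 4194304*Z^2 - 4194304*Z - 2883584) * hT + (10*x^9 + 160*x^8*T + 260*x^8 + 3328*x^7*T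 + 2496*x^7 + 37760*x^6*T + 1600*x^6 + 111104*x^5*T + 77568*x^5 + 87040*x^4*T + 158720*x^4 - 745472*x^3*T - 712704*x^3 - 4243456*x^2*T - 2342912*x^2 - 6750208*x*T - 4325376*x - 4718592*T - 2883584) * hZ
  · linear_combination (16*x^3*Z^2 - 8*x^3*Z - 8*x^3 + 128*x^2*Z^2 - 64*x^2*Z - 64*x^2 - 256*x*Z^2 - 896*x*Z - 384*x) * hT + (8*x^3*T + 16*x^3 - 64*x^2*T + 192*x^2 - 128*x*T - 256*x) * hZ
  · linear_combination (-72*x^12*Z^2 - 72*x^12*Z - 18*x^12 - 2016*x^11*Z^2 - 2016*x^11*Z - 504*x^11 - 27072*x^10*Z^2 - 27936*x^10*Z - 12384*x^10 - 262656*x^9*Z^2 - 294912*x^9*Z - 185472*x^9 - 1787904*x^8*Z^2 - 2041344*x^8*Z - 1534464*x^8 - 7741440*x^7*Z^2 - 8589312*x^7*Z - 7114752*x^7 - 19611648*x^6*Z^2 - 21823488*x^6*Z - 19390464*x^6 - 34209792*x^5*Z^2 - 34209792*x^5*Z - 30670848*x^5 - 18874368*x^4*Z^2 - 7077888*x^4*Z - 16515072*x^4) * hT + (-90*x^12 - 1728*x^11*T - 1656*x^11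 - 40032*x^10*T - 22464*x^10 - 460800*x^9*T - 215424*x^9 - 2935296*x^8*T - 1953792*x^8 - 13234176*x^7*T - 9326592*x^7 - 42467328*x^6*T - 22634496*x^6 - 70778880*x^5*T - 47185920*x^5 - 58982400*x^4*T - 35389440*x^4) * hZ

/-- explicit generators of a lattice of isogenies -/
noncomputable def baseEnd : Base (4 * t) (4 * t) where
  Pa := Pi t z
  Qa := Qi t z
  Pb := Po t z
  Qb := Qo t z
  Pc := Pp t z
  Qc := Qp t z
  da := 1
  db := 4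
  dc := 4
  πa := 1
  πb := 1 + z - t - 2 * t * z
  εb := -1
  sa := 1
  ga := goodi ht hz h2 h3
  gb := goodo ht hz h2 h3
  gc := goodp ht hz h2 h3
  oa := odei ht hz
  ob := odeo ht hz
  πa0 := ne_of_mul (w := 1) (n := 1) (by norm_num) (by push_cast; linear_combination (0) * ht + (0) * hz)
  πb0 := ne_of_mul (w := 2*t*z + t - z) (n := 4) (by norm_num) (by push_cast; linear_combination (-4*z^2 - 4*z - 1) * ht + (-5) * hz)
  Qb0 := by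
    intro h
    have h1 := congrArg (eval 0) h
    simp only [Qo, eval_add, eval_mul, eval_pow, eval_C, eval_X, eval_one, eval_zero] at h1
    exact ne_of_mul (w := -t*z + 2*z) (n := 64) (by norm_num)
      (by push_cast; linear_combination (64*z^2 + 64*z) * ht + (-64) * hz) h1
  hA := by
    intro h
    have h1 := congrArg (eval 1) (pow_eq_zero_iff (by norm_num) |>.mp h)
    simp only [Pi, Qi, Po, Qo, eval_add, eval_sub, eval_mul, eval_pow, eval_C, eval_X,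
      eval_one, eval_zero] at h1
    exact ne_of_mul (w := 102134*t*z + 9247*t - 163535*z - 20107) (n := 4394928) (by norm_num)
      (by push_cast; linear_combination (-10009132*z^2 - 37776580*z - 3338167) * ht + (2034072*t - 3631267) * hz) h1
  rel := relbaseEnd ht hz
  za := zvi ht hz
  zb := zvo ht hz
  zc := zvp ht hz
  hsa := by norm_num
  sg := by
    rw [Wi ht hz]
    simp only [Qi, eval_add, eval_sub, eval_neg, eval_mul, eval_pow, eval_C, eval_X, eval_one,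
      eval_ofNat]
    linear_combination (0) * ht + (0) * hz

omit [IsDomain R] [CharZero R] h2 h3 in
lemma gp_split : gp (4 * t) = (X - C (4*t - 8)) * (X - C (-2*t*z - 3*t - z - 1)) * (X - C (2*t*z - t + z)) := by
  obtain ⟨hT, hZ⟩ := rels ht hz
  simp only [gp, map_add, map_sub, map_mul, map_neg, map_ofNat, map_one, map_pow]
  linear_combination (4*X*C z^2 + 4*X*C z + 13*X - 16*C t*C z^2 - 16*C t*C z + 12*C t + 8) * hT + (8*X*C t + 5*X + 12*C t + 8) * hZ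

omit [IsDomain R] [CharZero R] in
lemma unit01 : IsUnit ((4*t - 8) - (-2*t*z - 3*t - z - 1)) := by
  refine isUnit_of_mul_isUnit_left (y := -5*t*z + 2*t - 3*z - 3) ?_
  convert unit23 h2 h3 4 1 using 1
  linear_combination (-10*z^2 - 31*z + 14) * ht + (-21*t - 13) * hz

omit [IsDomain R] [CharZero R] in
lemma unit02 : IsUnit ((4*t - 8) - (2*t*z - t + z)) := by
  refine isUnit_of_mul_isUnit_left (y := 5*t*z + 7*t + 3*z) ?_
  convert unit23 h2 h3 4 1 using 1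
  linear_combination (-10*z^2 + 11*z + 35) * ht + (-21*t - 13) * hz

omit [IsDomain R] [CharZero R] in
lemma unit12 : IsUnit ((-2*t*z - 3*t - z - 1) - (2*t*z - t + z)) := by
  refine isUnit_of_mul_isUnit_left (y := 4*t*z + 2*t - 6*z - 3) ?_
  convert unit23 h2 h3 0 1 using 1
  linear_combination (-16*z^2 - 16*z - 4) * ht + (-4) * hz

end Pool.Agent.P.MP_a378b9_nt
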