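import Mathlib
import Pool.Agent.P.MP_a378b9_nt.Arith
import Pool.Agent.P.MP_a378b9_nt.BaseData

/-! The congruences in an abstract unramified ring. -/

set_option autoImplicit false

open Finset Polynomial

namespace Pool.Agent.P.MP_a378b9_nt

variable {R : Type*} [CommRing R]

/-- hypergeometric coefficients in `R` -/
noncomputable def sq' (a b : R) : ℕ → R
  | 0 => 1
  | k + 1 => (k + a) * (k + b) * sq' a b k * Ring.inverse (((k : R) + 1) ^ 2)

/-- hypotheses on the coefficient ring -/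
structure Unr (R : Type*) [CommRing R] (p : ℕ) : Prop where
  pp : p.Prime
  big : 5 < p
  pr : Prime (p : R)
  un : ∀ n : ℕ, ¬ p ∣ n → IsUnit (n : R)

lemma Unr.small {p : ℕ} (h : Unr R p) (n : ℕ) (h0 : 0 < n) (hn : n < p) : IsUnit (n : R) :=
  h.un n (Nat.not_dvd_of_pos_of_lt h0 hn)

lemma Unr.u2 {p : ℕ} (h : Unr R p) : IsUnit (2 : R) := by
  simpa using h.small 2 (by norm_num) (by have := h.big; omega)

lemma Unr.u3 {p : ℕ} (h : Unr R p) : IsUnit (3 : R) := by
  simpa using h.small 3 (by norm_num) (by have := h.big; omega)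

lemma Unr.u5 {p : ℕ} (h : Unr R p) : IsUnit (5 : R) := by
  simpa using h.small 5 (by norm_num) h.big

lemma sq'_rec {p : ℕ} (h : Unr R p) (a b : R) : Rec p a b 0 (sq' a b) := by
  intro k hk
  have u : IsUnit (((k : R) + 1) ^ 2) := by simpa using (h.small (k + 1) (by omega) hk).pow 2
  have := Ring.mul_inverse_cancel _ u
  simp only [sq', add_zero]
  linear_combination ((k + a) * (k + b) * sq' a b k) * this

lemma sq'_dvd {p : ℕ} (h : Unr R p) {a b c d : R} {i j k : ℕ} (ha : a = p * c - i)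
    (hb : b = p * d - j) (hi : i < k) (hj : j < k) (hk : k < p) : (p : R) ^ 2 ∣ sq' a b k := by
  have := rec_closed rfl (sq'_rec h a b) hk
  apply ((fact_unit h.small hk).pow 2).dvd_mul_left.mp
  rw [this, ha, hb, sq]
  exact mul_dvd_mul ((Dvd.intro _ rfl).trans (dvd_Pn _ hi)) ((Dvd.intro _ rfl).trans (dvd_Pn _ hj))

lemma err_closed {n : ℕ} (h : Unr R (n + 1)) (a b : R) :
    (n.factorial : R) ^ 2 * ((n + a) * (n + b) * sq' a b n) = Pn a (n + 1) * Pn b (n + 1) := by
  rw [Pn_succ, Pn_succ]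
  linear_combination (n + a) * (n + b) * rec_closed rfl (sq'_rec h a b) (Nat.lt_succ_self n)

lemma err_dvd {n : ℕ} (h : Unr R (n + 1)) {a b c d : R} {i j : ℕ} (ha : a = (n + 1 : ℕ) * c - i)
    (hb : b = (n + 1 : ℕ) * d - j) (hi : i < n + 1) (hj : j < n + 1) :
    ((n + 1 : ℕ) : R) ^ 2 ∣ (n + a) * (n + b) * sq' a b n := by
  apply ((fact_unit h.small (Nat.lt_succ_self n)).pow 2).dvd_mul_left.mp
  rw [err_closed h, ha, hb, sq]
  exact mul_dvd_mul ((Dvd.intro _ rfl).trans (dvd_Pn _ hi)) ((Dvd.intro _ rfl).trans (dvd_Pn _ hj))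

variable [IsDomain R] [CharZero R]

theorem geo_of_base {p m : ℕ} (h : Unr R p) (hm : p = 2 * m + 1) {i4 t t' z π π' : R}
    (h4 : 4 * i4 = 1) (ht : t ^ 2 - t - 1 = 0) (ht' : t' ^ 2 - t' - 1 = 0)
    (hz : z ^ 2 + z + 1 = 0) (B : Base (4 * t) (4 * t')) (u v e : ℤ)
    (hn : (p : ℤ) = B.da * u ^ 2 + B.db * v ^ 2 + (B.da + B.db - B.dc) * (u * v))
    (hna : p ≠ B.da) (he : e = 1 ∨ e = -1) (hτ : (u + v * B.εb : ZMod 3) = e)
    (hπ : π = u * B.πa + v * B.πb) (hππ : π * π' = p) (hd : (p : R) ∣ π) :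
    Geo p m i4 t t' π' (e * B.sa) := by
  have u4 : IsUnit (4 : R) := IsUnit.of_mul_eq_one _ h4
  have ut : IsUnit t := IsUnit.of_mul_eq_one (t - 1) (by linear_combination ht)
  have ut' : IsUnit t' := IsUnit.of_mul_eq_one (t' - 1) (by linear_combination ht')
  have ut'' : IsUnit (1 - t') := IsUnit.of_mul_eq_one (-t') (by linear_combination ht')
  have hD : IsUnit (432 * (4 * t') ^ 3 * (4 - 4 * t')) := by
    have := ((unit23 h.u2 h.u3 12 3).mul (ut'.pow 3)).mul ut''
    convert this using 1; ring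
  obtain ⟨Φ, Θ, g, o, z0, z1, z2⟩ := lattice_isogeny B hD (u4.mul ut).ne_zero u v p e hn hna he hτ
  rw [← hπ] at o z2
  have : Fact p.Prime := ⟨h.pp⟩
  have : (Ideal.span {(p : R)}).IsPrime := (Ideal.span_singleton_prime h.pr.ne_zero).mpr h.pr
  have : CharP (R ⧸ Ideal.span {(p : R)}) p := CharP.quotient R p h.pr.not_isUnit
  have hρ : ∀ r, Ideal.Quotient.mk (Ideal.span {(p : R)}) r = 0 ↔ (p : R) ∣ r := fun r => by
    rw [Ideal.Quotient.eq_zero_iff_mem, Ideal.mem_span_singleton]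
  have big := h.big
  exact cp_cong hm (by omega) (Ideal.Quotient.mk (Ideal.span {(p : R)})) (fun r => (hρ r).mp) h4
    (u4.mul ut) (u4.mul ut') hππ ((hρ _).mpr hd)
    (by rw [mul_pow, B.hsa]; rcases he with rfl | rfl <;> simp) (gp_split ht hz)
    ((unit01 ht hz h.u2 h.u3).map _).ne_zero ((unit02 ht hz h.u2 h.u3).map _).ne_zero
    ((unit12 ht hz h.u2 h.u3).map _).ne_zero g o z0 z1 z2

omit [IsDomain R] [CharZero R] in
lemma zq_eval {t : R} (ht : t ^ 2 - t - 1 = 0) (f : R[X]) :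
    (f.comp zq).eval t = f.eval (-4) ∧ (f.comp zq).eval (1 - t) = f.eval (-4) := by
  constructor <;> rw [eval_comp] <;> congr 1 <;> simp [zq] <;> linear_combination (-4) * ht

omit [IsDomain R] [CharZero R] in
lemma easy_coeff {Q : Type*} [CommRing Q] (q : R →+* Q) {p n : ℕ} {u : ℕ → R}
    (h : ∀ k, n < k → k < p → q (u k) = 0) (hn : 2 * n + 1 < p) :
    q (((Up p u).comp zq).coeff p) = 0 ∧ q (((1 - 2 * X) * (Up p u).comp zq).coeff p) = 0 := by
  have e : (Up p u).map q = Up p fun k => q (u k) := by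
    simp [Up, Polynomial.map_sum]
  have z : (zq : R[X]).map q = zq := by simp [zq]
  have d := Up_deg (u := fun k => q (u k)) h
  constructor
  · rw [← coeff_map, map_comp, e, z]
    exact coeff_eq_zero_of_natDegree_lt ((zq_deg _ d).trans_lt (by omega))
  · rw [← coeff_map, Polynomial.map_mul, map_comp, e, z]
    have : (1 - 2 * X : R[X]).map q = 1 - 2 * X := by simp
    rw [this]
    exact coeff_eq_zero_of_natDegree_lt ((zq_deg' _ d).trans_lt (by omega))

section quot
variable {p : ℕ}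

omit [IsDomain R] [CharZero R] in
lemma q2_iff (r : R) : Ideal.Quotient.mk (Ideal.span {(p : R) ^ 2}) r = 0 ↔ (p : R) ^ 2 ∣ r := by
  rw [Ideal.Quotient.eq_zero_iff_mem, Ideal.mem_span_singleton]

omit [IsDomain R] [CharZero R] in
lemma q2_eps : ((p : ℕ) : R ⧸ Ideal.span {(p : R) ^ 2}) ^ 2 = 0 := by
  rw [← map_natCast (Ideal.Quotient.mk (Ideal.span {(p : R) ^ 2})), ← map_pow, q2_iff]

omit [IsDomain R] [CharZero R] in
lemma q2_unit (h : Unr R p) (n : ℕ) (h0 : 0 < n) (hn : n < p) :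
    IsUnit (n : R ⧸ Ideal.span {(p : R) ^ 2}) := by
  simpa using (h.small n h0 hn).map (Ideal.Quotient.mk (Ideal.span {(p : R) ^ 2}))

end quot

theorem case_one {p j : ℕ} (h : Unr R p) (hj : p = 6 * j + 1) {i4 i3 t π' e : R} (h4 : 4 * i4 = 1)
    (h3 : 3 * i3 = 1) (ht : t ^ 2 - t - 1 = 0) (he : e ^ 2 = 1)
    (g1 : Geo p (3 * j) i4 t t π' e) (g2 : Geo p (3 * j) i4 (1 - t) (1 - t) π' (1 * e)) :
    (p : R) ^ 2 ∣ ∑ k ∈ range p, sq' i3 (2 * i4 * i3) k * (-4) ^ k - e * π' ∧
    (p : R) ^ 2 ∣ ∑ k ∈ range p, sq' (2 * i3) (10 * i4 * i3) k * (-4) ^ k - e * π' := by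
  have big := h.big
  have hm : p = 2 * (3 * j) + 1 := by omega
  let q := Ideal.Quotient.mk (Ideal.span {(p : R) ^ 2})
  have hε := q2_eps (R := R) (p := p)
  have hu := q2_unit h
  have cp' : (p : R) = 6 * j + 1 := by rw [hj]; push_cast; ring
  have a1 : i3 = p * i3 - ((2 * j : ℕ) : R) := by
    rw [cp']; push_cast; linear_combination (-2 * j) * h3
  have a2 : 2 * i3 = p * (2 * i3) - ((p - 1 - 2 * j : ℕ) : R) := by
    rw [show p - 1 - 2 * j = 4 * j by omega, cp']; push_cast; linear_combination (-4 * j) * h3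
  have a3 : 2 * i4 * i3 = p * (2 * i4 * i3) - ((j : ℕ) : R) := by
    rw [cp']; linear_combination (-j * 4 * i4) * h3 - j * h4
  have a4 : 10 * i4 * i3 = p * (10 * i4 * i3) - ((5 * j : ℕ) : R) := by
    rw [cp']; push_cast; linear_combination (-5 * j * 4 * i4) * h3 - 5 * j * h4
  obtain ⟨n, rfl⟩ : ∃ n, p = n + 1 := ⟨p - 1, by omega⟩
  have sE := sol_even (n := n) (a0 := i3) (b0 := 2 * i3) (by linear_combination h3)
    (by linear_combination i3 * h4 + h3) (by linear_combination (2 * i3 ^ 2) * h4) rfl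
    (sq'_rec h i3 (2 * i4 * i3))
  have sH := sol_odd (n := n) (a0 := i3) (b0 := 2 * i3) (by linear_combination h3)
    (by linear_combination (5 * i3) * h4 + 3 * h3)
    (by linear_combination (20 * i3 ^ 2) * h4 + (6 * i3 + 2) * h3) rfl
    (sq'_rec h (2 * i3) (10 * i4 * i3))
  have top := sH.top
  rw [err_closed h] at top
  have dup := Pn_dup (a := i3) (b := 10 * i4 * i3)
    (by linear_combination (5 * i3) * h4 + h3) (n + 1)
  rw [Pn_add _ (n + 1) (n + 1)] at dup
  have res := hyp_final q h.pp hm (by omega) hε hu h4 h3 sE sH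
    ((q2_iff _).mpr (err_dvd h a1 a3 (by omega) (by omega)))
    ((q2_iff _).mpr (err_dvd h a2 a4 (by omega) (by omega)))
    (easy_coeff q (n := 2 * j) (fun k h1 h2 => (q2_iff _).mpr
      (sq'_dvd h a1 a3 h1 (by omega) h2)) (by omega)).1
    (w_value q hm hε hu (by omega) h3 a1 a2 dup
      (Pn_trip h3 (by linear_combination 2 * h3) _) top)
    (χ := 1) (t := t) (t' := t) (by ring) he
    (by rw [(zq_eval ht _).1, (zq_eval ht _).2, one_mul])
    (by simp only [eval_mul, (zq_eval ht _).1, (zq_eval ht _).2]; simp; ring)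
    (IsUnit.of_mul_eq_one (t - 1) (by linear_combination ht))
    (IsUnit.of_mul_eq_one (-t) (by linear_combination ht)) g1 g2
  simp only [eval_mul, (zq_eval ht _).1, Up_eval] at res
  refine ⟨(q2_iff _).mp (by rw [map_sub, res.1, sub_self]), ?_⟩
  have u : IsUnit (1 - 2 * t) := isUnit_of_mul_isUnit_left (y := 1 - 2 * t)
    (by convert h.u5 using 1; linear_combination 4 * ht)
  apply u.dvd_mul_left.mp
  apply (q2_iff _).mp
  have := res.2
  simp only [eval_sub, eval_one, eval_mul, eval_ofNat, eval_X] at this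
  rw [mul_sub, map_sub, this, mul_comm, sub_self]

theorem case_two {p j : ℕ} (h : Unr R p) (hj : p = 6 * j + 5) {i4 i3 t π' e : R} (h4 : 4 * i4 = 1)
    (h3 : 3 * i3 = 1) (ht : t ^ 2 - t - 1 = 0) (he : e ^ 2 = 1)
    (g1 : Geo p (3 * j + 2) i4 t (1 - t) π' e)
    (g2 : Geo p (3 * j + 2) i4 (1 - t) (1 - (1 - t)) π' (-1 * e)) :
    (p : R) ^ 2 ∣ ∑ k ∈ range p, sq' i3 (2 * i4 * i3) k * (-4) ^ k + e * π' * (1 - 2 * t) ∧
    (p : R) ^ 2 ∣ (1 - 2 * t) * ∑ k ∈ range p, sq' (2 * i3) (10 * i4 * i3) k * (-4) ^ k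
      - e * π' := by
  have big := h.big
  have hm : p = 2 * (3 * j + 2) + 1 := by omega
  let q := Ideal.Quotient.mk (Ideal.span {(p : R) ^ 2})
  have hε := q2_eps (R := R) (p := p)
  have hu := q2_unit h
  have cp' : (p : R) = 6 * j + 5 := by rw [hj]; push_cast; ring
  have a1 : 2 * i3 = p * i3 - ((2 * j + 1 : ℕ) : R) := by
    rw [cp']; push_cast; linear_combination (-(2 * j + 1)) * h3
  have a2 : i3 = p * (2 * i3) - ((p - 1 - (2 * j + 1) : ℕ) : R) := by
    rw [show p - 1 - (2 * j + 1) = 4 * j + 3 by omega, cp']; push_cast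
    linear_combination (-(4 * j + 3)) * h3
  have a3 : 10 * i4 * i3 = p * (2 * i4 * i3) - ((j : ℕ) : R) := by
    rw [cp']; linear_combination (-j * 4 * i4) * h3 - j * h4
  have a4 : 2 * i4 * i3 = p * (10 * i4 * i3) - ((5 * j + 4 : ℕ) : R) := by
    rw [cp']; push_cast; linear_combination (-(5 * j + 4) * 4 * i4) * h3 - (5 * j + 4) * h4
  obtain ⟨n, rfl⟩ : ∃ n, p = n + 1 := ⟨p - 1, by omega⟩
  have sH := sol_even (n := n) (a0 := i3) (b0 := 2 * i3) (by linear_combination h3)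
    (by linear_combination i3 * h4 + h3) (by linear_combination (2 * i3 ^ 2) * h4) rfl
    (sq'_rec h i3 (2 * i4 * i3))
  have sE := sol_odd (n := n) (a0 := i3) (b0 := 2 * i3) (by linear_combination h3)
    (by linear_combination (5 * i3) * h4 + 3 * h3)
    (by linear_combination (20 * i3 ^ 2) * h4 + (6 * i3 + 2) * h3) rfl
    (sq'_rec h (2 * i3) (10 * i4 * i3))
  have top := sH.top
  rw [err_closed h, mul_comm (Pn i3 (n + 1)) (Pn (2 * i3) (n + 1))] at top
  have dup := Pn_dup (a := 2 * i4 * i3) (b := 2 * i3)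
    (by linear_combination (-i3) * h4 + h3) (n + 1)
  rw [Pn_add _ (n + 1) (n + 1), show 2 * (2 * i4 * i3) = i3 by linear_combination i3 * h4,
    mul_comm (Pn (2 * i4 * i3) (n + 1))] at dup
  have trip := Pn_trip h3 (b := 2 * i3) (by linear_combination 2 * h3) (n + 1)
  rw [mul_comm (Pn i3 (n + 1))] at trip
  have res := hyp_final q h.pp hm (by omega) hε hu h4 h3 sE sH
    ((q2_iff _).mpr (err_dvd h a1 a3 (by omega) (by omega)))
    ((q2_iff _).mpr (err_dvd h a2 a4 (by omega) (by omega)))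
    (easy_coeff q (n := 2 * j + 1) (fun k h1 h2 => (q2_iff _).mpr
      (sq'_dvd h a1 a3 h1 (by omega) h2)) (by omega)).2
    (w_value q hm hε hu (by omega) h3 a1 a2 dup trip top)
    (χ := -1) (t := t) (t' := 1 - t) (by ring) he
    (by simp only [eval_mul, (zq_eval ht _).1, (zq_eval ht _).2]; simp; ring)
    (by rw [(zq_eval ht _).1, (zq_eval ht _).2]; ring)
    (IsUnit.of_mul_eq_one (t - 1) (by linear_combination ht))
    (IsUnit.of_mul_eq_one (-t) (by linear_combination ht)) g1 g2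
  simp only [eval_mul, (zq_eval ht _).1, Up_eval] at res
  constructor
  · apply (q2_iff _).mp
    rw [map_add, res.2, ← map_add, ← map_zero q]; congr 1; ring
  · apply (q2_iff _).mp
    have := res.1
    simp only [eval_sub, eval_one, eval_mul, eval_ofNat, eval_X] at this
    rw [map_sub, this, sub_self]

end Pool.Agent.P.MP_a378b9_nt
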