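import Mathlib
import Pool.Agent.P.MP_a378b9_nt.Main

/-! The two CM cases, transfer to the rationals and construction of the coefficient ring. -/

set_option autoImplicit false

open Finset Polynomial

namespace Pool.Agent.P.MP_a378b9_nt

section transfer
variable {R : Type*} [CommRing R] [IsDomain R] [CharZero R]

omit [IsDomain R] [CharZero R] in
lemma Unr.int_dvd {p : ℕ} (h : Unr R p) {n : ℤ} (hn : (p : R) ∣ (n : R)) : (p : ℤ) ∣ n := by
  by_contra hne
  have u := h.un n.natAbs (fun h1 => hne (Int.natCast_dvd.mpr h1))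
  have : IsUnit (n : R) := by
    rcases Int.natAbs_eq n with e | e <;> rw [e]
    · simpa using u
    · simpa using u.neg
  exact h.pr.not_isUnit (isUnit_of_dvd_unit hn this)

omit [IsDomain R] [CharZero R] in
lemma Unr.int_unit {p : ℕ} (h : Unr R p) {n : ℤ} (hn : ¬ (p : ℤ) ∣ n) : IsUnit (n : R) := by
  have u := h.un n.natAbs (fun h1 => hn (Int.natCast_dvd.mpr h1))
  rcases Int.natAbs_eq n with e | e <;> rw [e]
  · simpa using u
  · simpa using u.neg

/-- a rational number lying in `R` -/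
def Rel (a : ℚ) (r : R) : Prop := (a : FractionRing R) = algebraMap R (FractionRing R) r

lemma cong_of_rel {p : ℕ} (h : Unr R p) {a : ℚ} {r : R} (hr : Rel a r) (hd : (p : R) ^ 2 ∣ r) :
    ∃ c : ℚ, ¬ p ∣ c.den ∧ a = (p : ℚ) ^ 2 * c := by
  have e : (a.num : R) = r * a.den := by
    apply IsFractionRing.injective R (FractionRing R)
    rw [map_mul, ← hr, map_intCast, map_natCast]
    exact_mod_cast (Rat.mul_den_eq_num a).symm
  have d1 : (p : R) ^ 2 ∣ (a.num : R) := by rw [e]; exact hd.mul_right _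
  obtain ⟨n1, hn1⟩ := h.int_dvd ((Dvd.intro_left _ (pow_succ (p : R) 1).symm).trans d1)
  have d2 : (p : R) ∣ (n1 : R) := by
    rw [hn1, sq] at d1
    push_cast at d1
    exact (mul_dvd_mul_iff_left h.pr.ne_zero).mp d1
  obtain ⟨n2, hn2⟩ := h.int_dvd d2
  refine ⟨Rat.divInt n2 a.den, ?_, ?_⟩
  · intro hp
    have h1 : p ∣ a.den := by
      have := Rat.den_dvd n2 (a.den : ℤ)
      exact hp.trans (Int.natCast_dvd_natCast.mp this)
    have h2 : p ∣ a.num.natAbs := Int.natCast_dvd.mp ⟨n1, hn1⟩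
    exact h.pp.one_lt.ne' (Nat.eq_one_of_dvd_coprimes a.reduced h2 h1)
  · rw [Rat.divInt_eq_div]
    conv_lhs => rw [← Rat.num_div_den a, hn1, hn2]
    push_cast; ring

lemma Rel.add {a b : ℚ} {r s : R} (h1 : Rel a r) (h2 : Rel b s) : Rel (a + b) (r + s) := by
  simp only [Rel] at *; rw [map_add, ← h1, ← h2]; push_cast; rfl

lemma Rel.sub {a b : ℚ} {r s : R} (h1 : Rel a r) (h2 : Rel b s) : Rel (a - b) (r - s) := by
  simp only [Rel] at *; rw [map_sub, ← h1, ← h2]; push_cast; rfl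

lemma Rel.mul {a b : ℚ} {r s : R} (h1 : Rel a r) (h2 : Rel b s) : Rel (a * b) (r * s) := by
  simp only [Rel] at *; rw [map_mul, ← h1, ← h2]; push_cast; rfl

lemma Rel.int (n : ℤ) : Rel (n : ℚ) (n : R) := by simp [Rel]

lemma Rel.of_mul {a : ℚ} {r : R} {n k : ℤ} (hn : n ≠ 0) (h1 : n * a = k) (h2 : n * r = k) :
    Rel a r := by
  have hn' : (n : FractionRing R) ≠ 0 := by exact_mod_cast hn
  apply mul_left_cancel₀ hn'
  have e1 := congrArg (Rat.cast : ℚ → FractionRing R) h1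
  have e2 := congrArg (algebraMap R (FractionRing R)) h2
  push_cast at e1
  rw [map_mul, map_intCast, map_intCast] at e2
  rw [e1, e2]

lemma rel_sum {p : ℕ} (h : Unr R p) {a b : ℚ} {r s : R} (ha : Rel a r) (hb : Rel b s) :
    Rel (∑ k ∈ range p, (∏ i ∈ range k, (-a - i)) / k.factorial *
        ((∏ i ∈ range k, (-b - i)) / k.factorial) * (-4) ^ k)
      (∑ k ∈ range p, sq' r s k * (-4) ^ k) := by
  simp only [Rel] at *
  rw [map_sum, Rat.cast_sum]
  refine sum_congr rfl fun k hk => ?_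
  have c := congrArg (algebraMap R (FractionRing R)) (rec_closed rfl (sq'_rec h r s)
    (mem_range.mp hk))
  rw [map_mul, map_mul, map_Pn, map_Pn, ← ha, ← hb, map_pow, map_natCast] at c
  have pr : ∀ x : FractionRing R, ∏ i ∈ range k, (-x - i) = (-1) ^ k * Pn x k := by
    intro x
    rw [Pn, ← card_range k, ← prod_const, card_range, ← prod_mul_distrib]
    exact prod_congr rfl fun i _ => by ring
  have hk0 : (k.factorial : FractionRing R) ≠ 0 := by exact_mod_cast Nat.factorial_ne_zero k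
  have e : (-1 : FractionRing R) ^ k * (-1) ^ k = 1 := by rw [← mul_pow]; simp
  rw [map_mul, map_pow, map_neg, map_ofNat]
  push_cast
  rw [pr, pr]
  congr 1
  field_simp
  linear_combination (Pn (a : FractionRing R) k * Pn (b : FractionRing R) k) * e - c

end transfer

lemma leg3 {x : ℤ} (hx : ¬ (3 : ℤ) ∣ x) :
    (legendreSym 3 x = 1 ∨ legendreSym 3 x = -1) ∧ (x : ZMod 3) = legendreSym 3 x := by
  have : x % 3 = 1 ∨ x % 3 = 2 := by omega
  rw [legendreSym.mod, ← ZMod.intCast_mod x 3]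
  rcases this with h | h
  · have e : x % (3 : ℕ) = 1 := h
    rw [e]; norm_num
  · have e : x % (3 : ℕ) = 2 := h
    rw [e]
    have : legendreSym 3 2 = -1 := by norm_num
    rw [this]; exact ⟨Or.inr rfl, by decide⟩

section cm
variable {R : Type*} [CommRing R] [IsDomain R] [CharZero R]

/-- the rational sum -/
def sm (a b : ℚ) (p : ℕ) : ℚ := ∑ k ∈ range p, (∏ i ∈ range k, (-a - i)) / k.factorial *
  ((∏ i ∈ range k, (-b - i)) / k.factorial) * (-4) ^ k

/-- congruence modulo `p^2` -/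
def Cg (p : ℕ) (a b : ℚ) : Prop := ∃ c : ℚ, ¬ p ∣ c.den ∧ a - b = (p : ℚ) ^ 2 * c

theorem cm_one {p : ℕ} (h : Unr R p) {x y : ℤ} (hxy : (p : ℤ) = x ^ 2 + 15 * y ^ 2) {t z : R}
    (ht : t ^ 2 - t - 1 = 0) (hz : z ^ 2 + z + 1 = 0)
    (hd : (p : R) ∣ x + y * ((1 - 2 * t) * (1 + 2 * z))) (hx3 : ¬ (3 : ℤ) ∣ x)
    (hxp : ¬ (p : ℤ) ∣ 2 * x) {j : ℕ} (hj : p = 6 * j + 1) :
    Cg p (sm (1 / 3) (1 / 6) p) (sm (2 / 3) (5 / 6) p) ∧
    Cg p (sm (2 / 3) (5 / 6) p) (legendreSym 3 x * (2 * x - p / (2 * x))) := by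
  obtain ⟨i4, h4⟩ := (h.u2.mul h.u2).exists_right_inv
  replace h4 : 4 * i4 = 1 := by linear_combination h4
  obtain ⟨i3, h3⟩ := h.u3.exists_right_inv
  obtain ⟨ix, hx⟩ := (h.int_unit hxp).exists_right_inv
  push_cast at hx
  have ht' : (1 - t) ^ 2 - (1 - t) - 1 = 0 := by linear_combination ht
  obtain ⟨l1, l2⟩ := leg3 hx3
  have big := h.big
  have hR := congrArg (Int.cast : ℤ → R) hxy
  push_cast at hR
  set π : R := x + y * ((1 - 2 * t) * (1 + 2 * z)) with hπ
  have hππ : π * (2 * x - π) = p := by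
    rw [hπ, hR]
    linear_combination (12 * y ^ 2) * ht - (4 * y ^ 2 * (1 - 2 * t) ^ 2) * hz
  have g1 := geo_of_base h (m := 3 * j) (by omega) h4 ht ht hz (baseEnd ht hz h.u2 h.u3) (x - y)
    (2 * y) (legendreSym 3 x) (by simp only [baseEnd]; push_cast; linear_combination hxy)
    (by simp only [baseEnd]; omega) l1
    (by simp only [baseEnd]; push_cast; rw [← l2]; linear_combination (-y : ZMod 3) * (by decide : (3 : ZMod 3) = 0))
    (π := π) (by simp only [baseEnd, hπ]; push_cast; ring) hππ hd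
  have g2 := geo_of_base h (m := 3 * j) (by omega) h4 ht' ht' hz (baseEnd ht' hz h.u2 h.u3) (x + y)
    (-2 * y) (legendreSym 3 x) (by simp only [baseEnd]; push_cast; linear_combination hxy)
    (by simp only [baseEnd]; omega) l1
    (by simp only [baseEnd]; push_cast; rw [← l2]; linear_combination (y : ZMod 3) * (by decide : (3 : ZMod 3) = 0))
    (π := π) (by simp only [baseEnd, hπ]; push_cast; ring) hππ hd
  simp only [baseEnd, mul_one] at g1 g2
  obtain ⟨c1, c2⟩ := case_one h hj h4 h3 ht (e := (legendreSym 3 x : R))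
    (by rcases l1 with e | e <;> simp [e]) g1 (by rwa [one_mul])
  have r1 : Rel (1 / 3) i3 := Rel.of_mul (n := 3) (k := 1) (by norm_num) (by norm_num)
    (by push_cast; exact h3)
  have r2 : Rel (1 / 6) (2 * i4 * i3) := Rel.of_mul (n := 6) (k := 1) (by norm_num) (by norm_num)
    (by push_cast; linear_combination (3 * i3) * h4 + h3)
  have r3 : Rel (2 / 3) (2 * i3) := Rel.of_mul (n := 3) (k := 2) (by norm_num) (by norm_num)
    (by push_cast; linear_combination 2 * h3)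
  have r4 : Rel (5 / 6) (10 * i4 * i3) := Rel.of_mul (n := 6) (k := 5) (by norm_num) (by norm_num)
    (by push_cast; linear_combination (15 * i3) * h4 + 5 * h3)
  have hx0 : 2 * x ≠ 0 := by rintro h0; exact hxp (by rw [h0]; exact dvd_zero _)
  have r5 : Rel (p / (2 * x)) (p * ix) := Rel.of_mul (n := 2 * x) (k := p) hx0
    (by have : (2 * x : ℚ) ≠ 0 := by exact_mod_cast hx0
        push_cast; exact mul_div_cancel₀ _ this)
    (by push_cast; linear_combination p * hx)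
  have r6 := (Rel.int (R := R) (legendreSym 3 x)).mul ((Rel.int (2 * x)).sub r5)
  push_cast at r6
  constructor
  · refine cong_of_rel h ((rel_sum h r1 r2).sub (rel_sum h r3 r4)) ?_
    convert dvd_sub c1 c2 using 1; ring
  · refine cong_of_rel h ((rel_sum h r3 r4).sub r6) ?_
    have c3 : (p : R) ^ 2 ∣ π ^ 2 * (legendreSym 3 x * ix) := (pow_dvd_pow_of_dvd hd 2).mul_right _
    convert dvd_sub c2 c3 using 1
    linear_combination (-(legendreSym 3 x : R) * ix) * hππ + (legendreSym 3 x * π) * hx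

theorem cm_two {p : ℕ} (h : Unr R p) {x y : ℤ} (hxy : (p : ℤ) = 5 * x ^ 2 + 3 * y ^ 2) {t z : R}
    (ht : t ^ 2 - t - 1 = 0) (hz : z ^ 2 + z + 1 = 0)
    (hd : (p : R) ∣ x * (1 - 2 * t) + y * (1 + 2 * z)) (hx3 : ¬ (3 : ℤ) ∣ x)
    (hxp : ¬ (p : ℤ) ∣ 2 * x) {j : ℕ} (hj : p = 6 * j + 5) :
    Cg p (sm (1 / 3) (1 / 6) p) (-5 * sm (2 / 3) (5 / 6) p) ∧
    Cg p (-5 * sm (2 / 3) (5 / 6) p) (-legendreSym 3 x * (10 * x - p / (2 * x))) := by
  obtain ⟨i4, h4⟩ := (h.u2.mul h.u2).exists_right_inv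
  replace h4 : 4 * i4 = 1 := by linear_combination h4
  obtain ⟨i3, h3⟩ := h.u3.exists_right_inv
  obtain ⟨ix, hx⟩ := (h.int_unit hxp).exists_right_inv
  push_cast at hx
  have ht' : (1 - t) ^ 2 - (1 - t) - 1 = 0 := by linear_combination ht
  have ht'' : (1 - (1 - t)) ^ 2 - (1 - (1 - t)) - 1 = 0 := by linear_combination ht
  obtain ⟨l1, l2⟩ := leg3 hx3
  have big := h.big
  have hR := congrArg (Int.cast : ℤ → R) hxy
  push_cast at hR
  set π : R := x * (1 - 2 * t) + y * (1 + 2 * z) with hπ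
  have hππ : π * (2 * x * (1 - 2 * t) - π) = p := by
    rw [hπ, hR]
    linear_combination (4 * x ^ 2) * ht - (4 * y ^ 2) * hz
  have g1 := geo_of_base h (m := 3 * j + 2) (by omega) h4 ht ht' hz (baseHom ht hz h.u2 h.u3)
    (x + y) (x - y) (-legendreSym 3 x)
    (by simp only [baseHom]; push_cast; linear_combination hxy)
    (by simp only [baseHom]; omega) (by omega)
    (by simp only [baseHom]; push_cast; rw [← l2]; linear_combination (x : ZMod 3) * (by decide : (3 : ZMod 3) = 0))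
    (π := π) (by simp only [baseHom, hπ]; push_cast; ring) hππ hd
  have g2 := geo_of_base h (m := 3 * j + 2) (by omega) h4 ht' ht'' hz (baseHom ht' hz h.u2 h.u3)
    (-x + y) (-x - y) (legendreSym 3 x)
    (by simp only [baseHom]; push_cast; linear_combination hxy)
    (by simp only [baseHom]; omega) l1
    (by simp only [baseHom]; push_cast; rw [← l2]; linear_combination (-x : ZMod 3) * (by decide : (3 : ZMod 3) = 0))
    (π := π) (by simp only [baseHom, hπ]; push_cast; ring) hππ hd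
  simp only [baseHom] at g1 g2
  obtain ⟨c1, c2⟩ := case_two h hj h4 h3 ht (e := (legendreSym 3 x : R))
    (by rcases l1 with e | e <;> simp [e]) (by convert g1 using 1; push_cast; ring)
    (by convert g2 using 1; ring)
  have r1 : Rel (1 / 3) i3 := Rel.of_mul (n := 3) (k := 1) (by norm_num) (by norm_num)
    (by push_cast; exact h3)
  have r2 : Rel (1 / 6) (2 * i4 * i3) := Rel.of_mul (n := 6) (k := 1) (by norm_num) (by norm_num)
    (by push_cast; linear_combination (3 * i3) * h4 + h3)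
  have r3 : Rel (2 / 3) (2 * i3) := Rel.of_mul (n := 3) (k := 2) (by norm_num) (by norm_num)
    (by push_cast; linear_combination 2 * h3)
  have r4 : Rel (5 / 6) (10 * i4 * i3) := Rel.of_mul (n := 6) (k := 5) (by norm_num) (by norm_num)
    (by push_cast; linear_combination (15 * i3) * h4 + 5 * h3)
  have hx0 : 2 * x ≠ 0 := by rintro h0; exact hxp (by rw [h0]; exact dvd_zero _)
  have r5 : Rel (p / (2 * x)) (p * ix) := Rel.of_mul (n := 2 * x) (k := p) hx0
    (by have : (2 * x : ℚ) ≠ 0 := by exact_mod_cast hx0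
        push_cast; exact mul_div_cancel₀ _ this)
    (by push_cast; linear_combination p * hx)
  have r6 := (Rel.int (R := R) (-legendreSym 3 x)).mul ((Rel.int (10 * x)).sub r5)
  have r7 := (Rel.int (R := R) (-5)).mul (rel_sum h r3 r4)
  push_cast at r6 r7
  constructor
  · refine cong_of_rel h ((rel_sum h r1 r2).sub r7) ?_
    convert dvd_add c1 (c2.mul_left (1 - 2 * t)) using 1
    linear_combination (-4 * ∑ k ∈ range p, sq' (2 * i3) (10 * i4 * i3) k * (-4) ^ k) * ht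
  · refine cong_of_rel h (r7.sub r6) ?_
    have c3 : (p : R) ^ 2 ∣ π ^ 2 * (legendreSym 3 x * ix) := (pow_dvd_pow_of_dvd hd 2).mul_right _
    convert dvd_sub c3 (c2.mul_left (1 - 2 * t)) using 1
    linear_combination (4 * ∑ k ∈ range p, sq' (2 * i3) (10 * i4 * i3) k * (-4) ^ k
      - 8 * x * legendreSym 3 x) * ht + ((legendreSym 3 x : R) * ix) * hππ
      - (legendreSym 3 x * π * (1 - 2 * t)) * hx

end cm

section padic
variable {p : ℕ} [Fact p.Prime]

lemma unr_padic (hp : 5 < p) : Unr ℤ_[p] p :=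
  ⟨Fact.out, hp, PadicInt.prime_p, fun n hn => by
    rw [PadicInt.isUnit_iff, PadicInt.norm_natCast_eq_one_iff]
    exact (Nat.Prime.coprime_iff_not_dvd Fact.out).mpr hn⟩

lemma padic_sqrt (hp : 5 < p) {a c : ℤ_[p]} (ha : IsUnit a) (h : (p : ℤ_[p]) ∣ a ^ 2 - c) :
    ∃ r : ℤ_[p], r ^ 2 = c ∧ (p : ℤ_[p]) ∣ r - a := by
  have hd : ‖(derivative (X ^ 2 - C c : ℤ_[p][X])).aeval a‖ = 1 := by
    have : (derivative (X ^ 2 - C c : ℤ_[p][X])).aeval a = 2 * a := by
      simp [one_add_one_eq_two]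
    rw [this]
    exact PadicInt.isUnit_iff.mp ((unr_padic hp).u2.mul ha)
  obtain ⟨r, h1, h2, -⟩ := hensels_lemma (F := (X ^ 2 - C c : ℤ_[p][X])) (a := a) (by
    rw [hd, one_pow, PadicInt.norm_lt_one_iff_dvd]; simpa using h)
  rw [hd, PadicInt.norm_lt_one_iff_dvd] at h2
  exact ⟨r, by simpa [sub_eq_zero] using h1, h2⟩

lemma exists_cube_root (hp : 5 < p) (h : p % 3 = 1) : ∃ z : ℤ_[p], z ^ 2 + z + 1 = 0 := by
  have hpp : p.Prime := Fact.out
  have : Fact (Nat.Prime 3) := ⟨by norm_num⟩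
  obtain ⟨g, hg⟩ := exists_prime_orderOf_dvd_card (G := (ZMod p)ˣ) 3 (by
    rw [ZMod.card_units_eq_totient, Nat.totient_prime hpp]; omega)
  have g3 : (g : ZMod p) ^ 3 = 1 := by
    rw [← Units.val_pow_eq_pow_val, ← hg, pow_orderOf_eq_one, Units.val_one]
  have g1 : (g : ZMod p) - 1 ≠ 0 := by
    intro h1
    have : g = 1 := Units.ext (sub_eq_zero.mp h1)
    rw [this, orderOf_one] at hg; omega
  have g2 : (g : ZMod p) ^ 2 + g + 1 = 0 := mul_left_cancel₀ g1 (by linear_combination g3)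
  obtain ⟨n, hn⟩ := ZMod.intCast_surjective (g : ZMod p)
  have d : (p : ℤ) ∣ (2 * n + 1) ^ 2 + 3 := by
    rw [← ZMod.intCast_zmod_eq_zero_iff_dvd]; push_cast; rw [hn]; linear_combination 4 * g2
  have nd : ¬ (p : ℤ) ∣ 2 * n + 1 := by
    intro h1
    have : (p : ℤ) ∣ 3 := by
      have := dvd_sub d (h1.mul_left (2 * n + 1))
      have e : (2 * n + 1) ^ 2 + 3 - (2 * n + 1) * (2 * n + 1) = 3 := by ring
      rwa [e] at this
    have := Int.le_of_dvd (by norm_num) this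
    omega
  obtain ⟨r, hr, -⟩ := padic_sqrt hp ((unr_padic hp).int_unit nd) (c := -3) (by
    have := (Int.castRingHom ℤ_[p]).map_dvd d
    simpa using this)
  obtain ⟨i2, h2⟩ := (unr_padic hp).u2.exists_right_inv
  refine ⟨(r - 1) * i2, ?_⟩
  apply (((unr_padic hp).u2).pow 2).mul_left_cancel
  linear_combination hr + ((r - 1) ^ 2 * (2 * i2 + 1) + 2 * (r - 1)) * h2

lemma norm_form_dvd (h : p % 3 = 2) {u v : ℤ_[p]} (hd : (p : ℤ_[p]) ∣ u ^ 2 - u * v + v ^ 2) :
    (p : ℤ_[p]) ∣ u ∧ (p : ℤ_[p]) ∣ v := by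
  have hpp : p.Prime := Fact.out
  have ker : ∀ w : ℤ_[p], PadicInt.toZMod w = 0 ↔ (p : ℤ_[p]) ∣ w := by
    intro w
    rw [← RingHom.mem_ker, PadicInt.ker_toZMod, PadicInt.maximalIdeal_eq_span_p,
      Ideal.mem_span_singleton]
  rw [← ker] at hd
  rw [← ker, ← ker]
  simp only [map_add, map_sub, map_mul, map_pow] at hd
  generalize PadicInt.toZMod u = a at *
  generalize PadicInt.toZMod v = b at *
  have hb : b = 0 := by
    by_contra hb
    obtain ⟨w, rfl⟩ : ∃ w, a = -w * b := ⟨-a / b, by field_simp⟩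
    have w2 : w ^ 2 + w + 1 = 0 :=
      mul_left_cancel₀ (pow_ne_zero 2 hb) (by linear_combination hd)
    have w3 : w ^ 3 = 1 := by linear_combination (w - 1) * w2
    have wp : w ^ p = w := ZMod.pow_card w
    obtain ⟨k, hk⟩ : ∃ k, p = 3 * k + 2 := ⟨p / 3, by omega⟩
    have : w ^ p = w ^ 2 := by
      conv_lhs => rw [show w ^ p = w ^ (3 * k + 2) by rw [← hk]]
      rw [pow_add, pow_mul, w3, one_pow, one_mul]
    have w1 : w = 1 := by linear_combination w3 - (w + 1) * (this.symm.trans wp)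
    have h3 : ((3 : ℕ) : ZMod p) = 0 := by rw [w1] at w2; push_cast; linear_combination w2
    rw [ZMod.natCast_eq_zero_iff] at h3
    have := (Nat.prime_dvd_prime_iff_eq hpp Nat.prime_three).mp h3
    omega
  rw [hb] at hd
  exact ⟨by simpa using hd, hb⟩

open QuadraticAlgebra in
lemma quad_domain (h : p % 3 = 2) : IsDomain (QuadraticAlgebra ℤ_[p] (-1) (-1)) := by
  have key : ∀ w : QuadraticAlgebra ℤ_[p] (-1) (-1), QuadraticAlgebra.norm w = 0 → w = 0 := by
    intro w hw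
    have : ∀ n : ℕ, (p : ℤ_[p]) ^ n ∣ w.re ∧ (p : ℤ_[p]) ^ n ∣ w.im := by
      intro n
      induction n with
      | zero => simp
      | succ n ih =>
        obtain ⟨⟨u, hu⟩, ⟨v, hv⟩⟩ := ih
        rw [QuadraticAlgebra.norm_def, hu, hv] at hw
        have : u ^ 2 - u * v + v ^ 2 = 0 :=
          mul_left_cancel₀ (pow_ne_zero 2 (pow_ne_zero n PadicInt.prime_p.ne_zero))
            (by linear_combination hw)
        obtain ⟨d1, d2⟩ := norm_form_dvd h (this ▸ dvd_zero _)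
        rw [hu, hv, pow_succ]
        exact ⟨mul_dvd_mul_left _ d1, mul_dvd_mul_left _ d2⟩
    have z : ∀ s : ℤ_[p], (∀ n : ℕ, (p : ℤ_[p]) ^ n ∣ s) → s = 0 := by
      intro s hs
      by_contra hne
      obtain ⟨n, hn⟩ := FiniteMultiplicity.of_not_isUnit PadicInt.prime_p.not_isUnit hne
      exact hn (hs _)
    ext
    · exact z _ fun n => (this n).1
    · exact z _ fun n => (this n).2
  have : NoZeroDivisors (QuadraticAlgebra ℤ_[p] (-1) (-1)) := ⟨fun {a b} hab => by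
    have := congrArg QuadraticAlgebra.norm hab
    rw [map_mul, QuadraticAlgebra.norm_zero] at this
    exact (mul_eq_zero.mp this).imp (key a) (key b)⟩
  exact NoZeroDivisors.to_isDomain _

open QuadraticAlgebra in
lemma unr_quad (hp : 5 < p) (h : p % 3 = 2) : Unr (QuadraticAlgebra ℤ_[p] (-1) (-1)) p := by
  have key : ∀ w : QuadraticAlgebra ℤ_[p] (-1) (-1), (p : ℤ_[p]) ∣ QuadraticAlgebra.norm w →
      (p : QuadraticAlgebra ℤ_[p] (-1) (-1)) ∣ w := by
    intro w hw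
    obtain ⟨⟨u, hu⟩, ⟨v, hv⟩⟩ := norm_form_dvd h (u := w.re) (v := w.im) (by
      convert hw using 1; rw [QuadraticAlgebra.norm_def]; ring)
    exact ⟨⟨u, v⟩, by ext <;> simp [hu, hv]⟩
  refine ⟨Fact.out, hp, ⟨?_, ?_, ?_⟩, ?_⟩
  · intro h0
    have := congrArg QuadraticAlgebra.re h0
    exact PadicInt.prime_p.ne_zero (by simpa using this)
  · rw [isUnit_iff_norm_isUnit, QuadraticAlgebra.norm_natCast]
    intro hu
    exact PadicInt.prime_p.not_isUnit ((isUnit_pow_iff (by norm_num)).mp hu)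
  · rintro a b ⟨c, hc⟩
    have := congrArg QuadraticAlgebra.norm hc
    rw [map_mul, map_mul, QuadraticAlgebra.norm_natCast] at this
    have d : (p : ℤ_[p]) ∣ QuadraticAlgebra.norm a * QuadraticAlgebra.norm b :=
      ⟨p * QuadraticAlgebra.norm c, by rw [this]; ring⟩
    exact (PadicInt.prime_p.dvd_or_dvd d).imp (key a) (key b)
  · intro n hn
    simpa using ((unr_padic hp).un n hn).map (algebraMap ℤ_[p] (QuadraticAlgebra ℤ_[p] (-1) (-1)))

end padic

lemma exists_t {R : Type*} [CommRing R] {p : ℕ} (h : Unr R p) {r z : R} (hr : r ^ 2 = -15)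
    (hz : z ^ 2 + z + 1 = 0) : ∃ t : R, t ^ 2 - t - 1 = 0 ∧ (1 - 2 * t) * (1 + 2 * z) = r := by
  obtain ⟨i2, h2⟩ := h.u2.exists_right_inv
  obtain ⟨i3, h3⟩ := h.u3.exists_right_inv
  obtain ⟨s, hs⟩ : ∃ s, s = -r * (1 + 2 * z) * i3 := ⟨_, rfl⟩
  have s1 : s * (1 + 2 * z) = r := by rw [hs]; linear_combination (-4 * r * i3) * hz + r * h3
  have s2 : s ^ 2 = 5 := by
    apply h.u3.mul_left_cancel
    linear_combination 4 * s ^ 2 * hz - (s * (1 + 2 * z) + r) * s1 - hr
  have e : 1 - 2 * ((1 - s) * i2) = s := by linear_combination (-(1 - s)) * h2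
  refine ⟨(1 - s) * i2, ?_, by rw [e, s1]⟩
  apply (h.u2.pow 2).mul_left_cancel
  linear_combination s2 + (1 - 2 * ((1 - s) * i2) + s) * e

lemma not_dvd_of_sq_lt {p : ℕ} (hp : p.Prime) {x : ℤ} (h0 : x ≠ 0) (h : x ^ 2 ≤ p) :
    ¬ (p : ℤ) ∣ x := by
  intro hd
  have h1 := Int.le_of_dvd (by positivity) (pow_dvd_pow_of_dvd hd 2)
  have : (2 : ℤ) ≤ p := by exact_mod_cast hp.two_le
  nlinarith

theorem final_one {p : ℕ} [Fact p.Prime] (hp : 5 < p) {x y : ℤ}
    (hxy : (p : ℤ) = x ^ 2 + 15 * y ^ 2) :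
    legendreSym p 5 = 1 ∧ legendreSym 3 p = 1 ∧
    Cg p (sm (1 / 3) (1 / 6) p) (sm (2 / 3) (5 / 6) p) ∧
    Cg p (sm (2 / 3) (5 / 6) p) (legendreSym 3 x * (2 * x - p / (2 * x))) := by
  have hpp : p.Prime := Fact.out
  have hpi : Prime (p : ℤ) := Nat.prime_iff_prime_int.mp hpp
  have nd : ∀ l : ℕ, 1 < l → l ≤ 5 → ¬ (l : ℤ) ∣ p := by
    intro l h1 h2 h3
    rcases (Nat.dvd_prime hpp).mp (Int.natCast_dvd_natCast.mp h3) with h | h <;> omega
  have hx3 : ¬ (3 : ℤ) ∣ x := by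
    rintro ⟨w, rfl⟩; exact nd 3 (by norm_num) (by norm_num) ⟨3 * w ^ 2 + 5 * y ^ 2, by
      rw [hxy]; push_cast; ring⟩
  have hx5 : ¬ (5 : ℤ) ∣ x := by
    rintro ⟨w, rfl⟩; exact nd 5 (by norm_num) (by norm_num) ⟨5 * w ^ 2 + 3 * y ^ 2, by
      rw [hxy]; push_cast; ring⟩
  have hx0 : x ≠ 0 := by rintro rfl; simp at hx3
  have hxp : ¬ (p : ℤ) ∣ x := not_dvd_of_sq_lt hpp hx0 (by nlinarith [sq_nonneg y])
  have hyp : ¬ (p : ℤ) ∣ y := by
    intro hd
    apply hxp
    apply hpi.dvd_of_dvd_pow (n := 2)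
    have := dvd_sub (dvd_refl (p : ℤ)) (hd.mul_left (15 * y))
    convert this using 1; rw [hxy]; ring
  have h2p : ¬ (p : ℤ) ∣ 2 * x := fun hd => (hpi.dvd_or_dvd hd).elim
    (fun h => by have := Int.le_of_dvd (by norm_num) h; omega) hxp
  have hp3 : (p : ℤ) % 3 = 1 := by
    have : x % 3 = 1 ∨ x % 3 = 2 := by omega
    rcases this with h | h <;> simp [hxy, Int.add_emod, Int.mul_emod, pow_two, h]
  have hp5 : (p : ℤ) % 5 = 1 ∨ (p : ℤ) % 5 = 4 := by
    have : x % 5 = 1 ∨ x % 5 = 2 ∨ x % 5 = 3 ∨ x % 5 = 4 := by omega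
    rcases this with h | h | h | h <;> simp [hxy, Int.add_emod, Int.mul_emod, pow_two, h]
  have hodd := hpp.eq_two_or_odd
  obtain ⟨j, hj⟩ : ∃ j, p = 6 * j + 1 := ⟨p / 6, by omega⟩
  have U := unr_padic hp
  obtain ⟨z, hz⟩ := exists_cube_root hp (by omega)
  obtain ⟨iy, hy⟩ := (U.int_unit hyp).exists_right_inv
  have hR := congrArg (Int.cast : ℤ → ℤ_[p]) hxy
  push_cast at hR
  obtain ⟨r, hr, w, hw⟩ := padic_sqrt hp (a := -x * iy) (c := -15)
    ((U.int_unit hxp).neg.mul (IsUnit.of_mul_eq_one_right _ hy))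
    ⟨iy ^ 2, by rw [hR]; linear_combination (-15 * (y * iy + 1)) * hy⟩
  obtain ⟨t, ht, htz⟩ := exists_t U hr hz
  refine ⟨?_, ?_, cm_one U hxy ht hz ⟨y * w, ?_⟩ hx3 h2p hj⟩
  · have : Fact (Nat.Prime 5) := ⟨by norm_num⟩
    have q := legendreSym.quadratic_reciprocity_one_mod_four (p := 5) (q := p) (by norm_num)
      (by omega)
    push_cast at q
    rw [q, legendreSym.mod]
    rcases hp5 with h | h
    · have e : (p : ℤ) % (5 : ℕ) = 1 := h
      rw [e]; norm_num
    · have e : (p : ℤ) % (5 : ℕ) = 4 := h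
      rw [e]; norm_num
  · rw [legendreSym.mod]
    have e : (p : ℤ) % (3 : ℕ) = 1 := hp3
    rw [e]; norm_num
  · rw [htz]; linear_combination y * hw - x * hy

theorem final_two {p : ℕ} [Fact p.Prime] (hp : 5 < p) {x y : ℤ}
    (hxy : (p : ℤ) = 5 * x ^ 2 + 3 * y ^ 2) :
    legendreSym p 5 = -1 ∧ legendreSym 3 p = -1 ∧
    Cg p (sm (1 / 3) (1 / 6) p) (-5 * sm (2 / 3) (5 / 6) p) ∧
    Cg p (-5 * sm (2 / 3) (5 / 6) p) (-legendreSym 3 x * (10 * x - p / (2 * x))) := by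
  have hpp : p.Prime := Fact.out
  have hpi : Prime (p : ℤ) := Nat.prime_iff_prime_int.mp hpp
  have nd : ∀ l : ℕ, 1 < l → l ≤ 5 → ¬ (l : ℤ) ∣ p := by
    intro l h1 h2 h3
    rcases (Nat.dvd_prime hpp).mp (Int.natCast_dvd_natCast.mp h3) with h | h <;> omega
  have hx3 : ¬ (3 : ℤ) ∣ x := by
    rintro ⟨w, rfl⟩; exact nd 3 (by norm_num) (by norm_num) ⟨15 * w ^ 2 + y ^ 2, by
      rw [hxy]; push_cast; ring⟩
  have hy5 : ¬ (5 : ℤ) ∣ y := by
    rintro ⟨w, rfl⟩; exact nd 5 (by norm_num) (by norm_num) ⟨x ^ 2 + 15 * w ^ 2, by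
      rw [hxy]; push_cast; ring⟩
  have hx0 : x ≠ 0 := by rintro rfl; simp at hx3
  have hy0 : y ≠ 0 := by rintro rfl; simp at hy5
  have hxp : ¬ (p : ℤ) ∣ x := not_dvd_of_sq_lt hpp hx0 (by nlinarith [sq_nonneg y, sq_nonneg x])
  have hyp : ¬ (p : ℤ) ∣ y := not_dvd_of_sq_lt hpp hy0 (by nlinarith [sq_nonneg y, sq_nonneg x])
  have h2p : ¬ (p : ℤ) ∣ 2 * x := fun hd => (hpi.dvd_or_dvd hd).elim
    (fun h => by have := Int.le_of_dvd (by norm_num) h; omega) hxp
  have hp3 : (p : ℤ) % 3 = 2 := by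
    have : x % 3 = 1 ∨ x % 3 = 2 := by omega
    rcases this with h | h <;> simp [hxy, Int.add_emod, Int.mul_emod, pow_two, h]
  have hp5 : (p : ℤ) % 5 = 3 ∨ (p : ℤ) % 5 = 2 := by
    have : y % 5 = 1 ∨ y % 5 = 2 ∨ y % 5 = 3 ∨ y % 5 = 4 := by omega
    rcases this with h | h | h | h <;> simp [hxy, Int.add_emod, Int.mul_emod, pow_two, h]
  have hodd := hpp.eq_two_or_odd
  obtain ⟨j, hj⟩ : ∃ j, p = 6 * j + 5 := ⟨p / 6, by omega⟩
  have U0 := unr_padic hp
  have U := unr_quad hp (by omega)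
  have := quad_domain (p := p) (by omega)
  let ι := algebraMap ℤ_[p] (QuadraticAlgebra ℤ_[p] (-1) (-1))
  have : CharZero (QuadraticAlgebra ℤ_[p] (-1) (-1)) :=
    charZero_of_injective_algebraMap (R := ℤ_[p]) QuadraticAlgebra.algebraMap_injective
  obtain ⟨z, hz⟩ : ∃ z : QuadraticAlgebra ℤ_[p] (-1) (-1), z ^ 2 + z + 1 = 0 :=
    ⟨⟨0, 1⟩, by ext <;> simp [sq, QuadraticAlgebra.re_one, QuadraticAlgebra.im_one]⟩
  obtain ⟨ix, hx⟩ := (U0.int_unit hxp).exists_right_inv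
  have hR := congrArg (Int.cast : ℤ → ℤ_[p]) hxy
  push_cast at hR
  obtain ⟨r, hr, w, hw⟩ := padic_sqrt hp (a := 3 * y * ix) (c := -15)
    ((U0.u3.mul (U0.int_unit hyp)).mul (IsUnit.of_mul_eq_one_right _ hx))
    ⟨3 * ix ^ 2, by rw [hR]; linear_combination (-15 * (x * ix + 1)) * hx⟩
  obtain ⟨t, ht, htz⟩ := exists_t U (r := ι r) (by rw [← map_pow, hr]; simp [map_ofNat]) hz
  refine ⟨?_, ?_, cm_two U hxy ht hz ?_ hx3 h2p hj⟩
  · have : Fact (Nat.Prime 5) := ⟨by norm_num⟩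
    have q := legendreSym.quadratic_reciprocity_one_mod_four (p := 5) (q := p) (by norm_num)
      (by omega)
    push_cast at q
    rw [q, legendreSym.mod]
    rcases hp5 with h | h
    · have e : (p : ℤ) % (5 : ℕ) = 3 := h
      rw [e]; norm_num
    · have e : (p : ℤ) % (5 : ℕ) = 2 := h
      rw [e]; norm_num
  · rw [legendreSym.mod]
    have e : (p : ℤ) % (3 : ℕ) = 2 := hp3
    rw [e]; norm_num
  · have u : IsUnit (1 + 2 * z) := isUnit_of_mul_isUnit_left (y := -(1 + 2 * z))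
      (by convert U.u3 using 1; linear_combination (-4) * hz)
    apply u.dvd_mul_left.mp
    have e1 := congrArg ι hw
    have e2 := congrArg ι hx
    simp only [map_sub, map_mul, map_intCast, map_natCast, map_ofNat, map_one] at e1 e2
    exact ⟨x * ι w, by linear_combination x * htz + x * e1 + 3 * y * e2 + 4 * y * hz⟩

end Pool.Agent.P.MP_a378b9_nt
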